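import Pool.Agent.Work.MP_bf01b2_co.Bd.Stmts

/-!
# MP_bf01b2_co, item AS: assembly of the final statement
-/

set_option autoImplicit false

namespace Pool.Agent.Work.MP_bf01b2_co.Bd

open Classical

theorem asm_zmod : ∀ x y : ZMod 2, (decide (x = 1)) = (decide (y = 1)) → x = y := by decide

theorem asm_zmod' : ∀ x : ZMod 2, (decide (x + 1 = 1)) ≠ (decide (x = 1)) := by decide

/-- From a good labelling by a small coordinate set to the embedding. -/
theorem asm_final {m : ℕ} {K : Type} [Fintype K] (hK : Fintype.card K ≤ m)
    {V : Type} [Fintype V] [DecidableEq V] (G : SimpleGraph V) (f : V → List Bool)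
    (hf : Function.Injective f)
    (hadj : ∀ u v, G.Adj u v → (∃ e, f v = f u ++ [e]) ∨ (∃ e, f u = f v ++ [e]))
    (T : Finset (List Bool)) (hT : ∀ v, f v ∈ T) (Φ : List Bool → K → Bool)
    (hinj : ∀ u ∈ T, ∀ v ∈ T, Φ u = Φ v → u = v)
    (hed : ∀ y e, y ++ [e] ∈ T → ∃ k, ∀ k', (Φ (y ++ [e]) k' ≠ Φ y k') ↔ k' = k) :
    ∃ g : G →g SimpleGraph.fromRel (fun x y : Fin m → Bool => hammingDist x y = 1),
      Function.Injective g := by
  obtain ⟨emb⟩ : Nonempty (K ↪ Fin m) := by
    apply Function.Embedding.nonempty_of_card_le
    rw [Fintype.card_fin]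
    exact hK
  set F : V → Fin m → Bool := fun v => Function.extend emb (Φ (f v)) (fun _ => false) with hF
  have hham : ∀ y e, y ++ [e] ∈ T → hammingDist (Function.extend emb (Φ y) (fun _ => false))
      (Function.extend emb (Φ (y ++ [e])) (fun _ => false)) = 1 := by
    intro y e hye
    obtain ⟨k, hk⟩ := hed y e hye
    unfold hammingDist
    rw [Finset.card_eq_one]
    refine ⟨emb k, ?_⟩
    ext i
    simp only [Finset.mem_filter, Finset.mem_univ, true_and, Finset.mem_singleton]
    by_cases hi : ∃ c, emb c = i
    · obtain ⟨c, rfl⟩ := hi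
      rw [emb.injective.extend_apply, emb.injective.extend_apply, ne_comm, hk c]
      exact emb.injective.eq_iff.symm
    · rw [Function.extend_apply' _ _ _ hi, Function.extend_apply' _ _ _ hi]
      constructor
      · intro h; exact absurd rfl h
      · intro h; exact absurd ⟨k, h.symm⟩ hi
  have hFinj : Function.Injective F := by
    intro u v huv
    apply hf
    refine hinj (f u) (hT u) (f v) (hT v) ?_
    funext c
    have h5 := congrFun huv (emb c)
    simp only [hF] at h5
    rw [emb.injective.extend_apply, emb.injective.extend_apply] at h5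
    exact h5
  refine ⟨⟨F, ?_⟩, hFinj⟩
  intro a b hab
  rw [SimpleGraph.fromRel_adj]
  refine ⟨fun h => hab.ne (hFinj h), ?_⟩
  rcases hadj a b hab with ⟨e, he⟩ | ⟨e, he⟩
  · left
    have h6 := hham (f a) e (he ▸ hT b)
    rw [← he] at h6
    exact h6
  · right
    have h6 := hham (f b) e (he ▸ hT a)
    rw [← he] at h6
    exact h6

theorem assemble (h1 : Core) (h2 : MP_bf01b2_co.TreeStr) (h3 : EdgeP) (h4 : EdgeB) (h5 : Supp) :
    FinalStatement := by
  obtain ⟨m0, n0, hcore⟩ := h1
  refine ⟨max m0 (2 ^ n0), ?_⟩
  intro n V _ _ G _ hG hdeg hcard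
  obtain ⟨f, hf, hpre, hadj⟩ := h2 V G hG hdeg
  set T : Finset (List Bool) := Finset.univ.image f with hTdef
  have hT : ∀ v, f v ∈ T := fun v => Finset.mem_image.mpr ⟨v, Finset.mem_univ _, rfl⟩
  have hPC : PrefClosed T := by
    intro v hv k
    obtain ⟨a, -, rfl⟩ := Finset.mem_image.mp hv
    obtain ⟨u, hu⟩ := hpre a k
    exact Finset.mem_image.mpr ⟨u, Finset.mem_univ _, hu⟩
  have hTc : T.card ≤ 2 ^ n := Finset.card_image_le.trans (by simpa using hcard)
  by_cases hn : n0 ≤ n
  · obtain ⟨s, B, I, ω, κ, ψ, hs, hB, hsize, hψ1, hψ2, hψ3⟩ := hcore n hn T hPC hTc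
    have hK : Fintype.card ((Fin B × Fin (7 * s)) ⊕ (Fin I ⊕ Fin m0)) ≤ n + max m0 (2 ^ n0) := by
      rw [Fintype.card_sum, Fintype.card_sum, Fintype.card_prod, Fintype.card_fin,
        Fintype.card_fin, Fintype.card_fin, Fintype.card_fin]
      have h6 : B * (7 * s) = 7 * s * B := by ring
      have h7 : m0 ≤ max m0 (2 ^ n0) := le_max_left _ _
      omega
    refine asm_final hK G f hf hadj T hT
      (fun v => Sum.elim (fun p => decide (P B ω v ((p.1 : ℕ), (p.2 : ℕ)) = 1))
        (Sum.elim (fun c => (Ph B I ω κ v).2 ((c : ℕ) + 1)) (fun c => decide (ψ v c = 1)))) ?_ ?_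
    · intro u hu v hv huv
      apply hψ3 u hu v hv
      · unfold Ph
        refine Prod.ext ?_ ?_
        · funext c
          show P B ω u c = P B ω v c
          obtain ⟨b, j⟩ := c
          by_cases hbj : b < B ∧ j < 7 * s
          · have h6 := congrFun huv (Sum.inl (⟨b, hbj.1⟩, ⟨j, hbj.2⟩))
            exact asm_zmod _ _ h6
          · have h6 : B ≤ b ∨ 7 * s ≤ j := by
              by_contra hcon
              push Not at hcon
              exact hbj ⟨hcon.1, hcon.2⟩
            rw [h5 s B hs hB ω u b j h6, h5 s B hs hB ω v b j h6]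
        · funext c
          by_cases hc : 1 ≤ c ∧ c ≤ I
          · have h6 := congrFun huv (Sum.inr (Sum.inl ⟨c - 1, by omega⟩))
            have h7 : (Ph B I ω κ u).2 (c - 1 + 1) = (Ph B I ω κ v).2 (c - 1 + 1) := h6
            rw [Nat.sub_add_cancel hc.1] at h7
            exact h7
          · show (if 1 ≤ c ∧ c ≤ I then _ else false) = (if 1 ≤ c ∧ c ≤ I then _ else false)
            rw [if_neg hc, if_neg hc]
      · funext c
        exact asm_zmod _ _ (congrFun huv (Sum.inr (Sum.inr c)))
    · intro y e hye
      by_cases hPh : Ph B I ω κ (y ++ [e]) = Ph B I ω κ y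
      · obtain ⟨c, hc⟩ := hψ2 y e hye hPh
        refine ⟨Sum.inr (Sum.inr c), ?_⟩
        have hP1 : ∀ x, P B ω (y ++ [e]) x = P B ω y x := fun x => congrFun (congrArg Prod.fst hPh) x
        have hP2 : ∀ x, (Ph B I ω κ (y ++ [e])).2 x = (Ph B I ω κ y).2 x :=
          fun x => congrFun (congrArg Prod.snd hPh) x
        rintro (p | x | x)
        · simp [hP1]
        · simp [hP2]
        · simp only [Sum.elim_inr, Sum.inr.injEq]
          rw [hc, Pi.add_apply, Pi.single_apply]
          by_cases hx : x = c
          · rw [if_pos hx]
            exact ⟨fun _ => hx, fun _ => asm_zmod' _⟩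
          · rw [if_neg hx, add_zero]
            exact ⟨fun h => absurd rfl h, fun h => absurd h hx⟩
      · have hψ := hψ1 y e hye hPh
        obtain ⟨hE1, hE2⟩ := h3 s B hs ω y e
        by_cases h5y : y.length % 5 = 0
        · have hnone := hE2 h5y
          have hP1 : ∀ x, P B ω (y ++ [e]) x = P B ω y x := by
            intro x
            rw [hE1 x, hnone, if_neg (by simp), add_zero]
          have hdiff : ∀ c, (Ph B I ω κ (y ++ [e])).2 c ≠ (Ph B I ω κ y).2 c →
              1 ≤ c ∧ c ≤ I ∧ col y.length = c := by
            intro c hne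
            have h6 : (Ph B I ω κ (y ++ [e])).2 c =
              if 1 ≤ c ∧ c ≤ I then bit (fun t => col t = c) (κ c) (y ++ [e]) else false := rfl
            have h7 : (Ph B I ω κ y).2 c =
              if 1 ≤ c ∧ c ≤ I then bit (fun t => col t = c) (κ c) y else false := rfl
            rw [h6, h7] at hne
            by_cases hc : 1 ≤ c ∧ c ≤ I
            · rw [if_pos hc, if_pos hc] at hne
              refine ⟨hc.1, hc.2, ?_⟩
              by_contra hcol
              exact hne ((h4 (fun t => col t = c) (κ c) y e).1 hcol)
            · rw [if_neg hc, if_neg hc] at hne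
              exact absurd rfl hne
          have hex : ∃ c, (Ph B I ω κ (y ++ [e])).2 c ≠ (Ph B I ω κ y).2 c := by
            by_contra hcon
            push Not at hcon
            exact hPh (Prod.ext (funext hP1) (funext hcon))
          obtain ⟨c, hc⟩ := hex
          obtain ⟨hc1, hc2, hc3⟩ := hdiff c hc
          refine ⟨Sum.inr (Sum.inl ⟨c - 1, by omega⟩), ?_⟩
          rintro (p | x | x)
          · simp [hP1]
          · simp only [Sum.elim_inr, Sum.elim_inl, Sum.inr.injEq, Sum.inl.injEq]
            constructor
            · intro hne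
              have h6 := hdiff _ hne
              apply Fin.ext
              show (x : ℕ) = c - 1
              omega
            · intro hx
              have h6 : (x : ℕ) + 1 = c := by
                rw [hx]
                show c - 1 + 1 = c
                omega
              rw [h6]
              exact hc
          · simp [hψ]
        · have hcol : col y.length = 0 := by
            unfold col
            rw [if_neg (by omega)]
          have hP2 : ∀ c, (Ph B I ω κ (y ++ [e])).2 c = (Ph B I ω κ y).2 c := by
            intro c
            have h6 : (Ph B I ω κ (y ++ [e])).2 c =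
              if 1 ≤ c ∧ c ≤ I then bit (fun t => col t = c) (κ c) (y ++ [e]) else false := rfl
            have h7 : (Ph B I ω κ y).2 c =
              if 1 ≤ c ∧ c ≤ I then bit (fun t => col t = c) (κ c) y else false := rfl
            rw [h6, h7]
            by_cases hc : 1 ≤ c ∧ c ≤ I
            · rw [if_pos hc, if_pos hc]
              exact (h4 (fun t => col t = c) (κ c) y e).1 (by
                show ¬ col y.length = c
                omega)
            · rw [if_neg hc, if_neg hc]
          have hex : ∃ c, P B ω (y ++ [e]) c ≠ P B ω y c := by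
            by_contra hcon
            push Not at hcon
            exact hPh (Prod.ext (funext hcon) (funext hP2))
          obtain ⟨c, hc⟩ := hex
          have hcd : cd B ω (y ++ [e]) y.length = some c := by
            by_contra hcon
            rw [hE1 c, if_neg hcon, add_zero] at hc
            exact hc rfl
          obtain ⟨b, j⟩ := c
          have hbj : b < B ∧ j < 7 * s := by
            by_contra hcon
            have h6 : B ≤ b ∨ 7 * s ≤ j := by
              by_contra hcon'
              push Not at hcon'
              exact hcon ⟨hcon'.1, hcon'.2⟩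
            rw [h5 s B hs hB ω _ b j h6, h5 s B hs hB ω _ b j h6] at hc
            exact hc rfl
          refine ⟨Sum.inl (⟨b, hbj.1⟩, ⟨j, hbj.2⟩), ?_⟩
          rintro (⟨p, q⟩ | x | x)
          · simp only [Sum.elim_inl, Sum.inl.injEq]
            rw [hE1, hcd]
            by_cases hx : ((p, q) : Fin B × Fin (7 * s)) = (⟨b, hbj.1⟩, ⟨j, hbj.2⟩)
            · have hp : (p : ℕ) = b := congrArg (fun z => (z.1 : ℕ)) hx
              have hq : (q : ℕ) = j := congrArg (fun z => (z.2 : ℕ)) hx
              rw [if_pos (by rw [hp, hq])]
              exact ⟨fun _ => hx, fun _ => asm_zmod' _⟩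
            · rw [if_neg ?_, add_zero]
              · exact ⟨fun h => absurd rfl h, fun h => absurd h hx⟩
              · intro h
                apply hx
                have h6 := Option.some.inj h
                rw [Prod.mk.injEq] at h6
                refine Prod.ext ?_ ?_
                · exact Fin.ext h6.1.symm
                · exact Fin.ext h6.2.symm
          · simp [hP2]
          · simp [hψ]
  · have hK : Fintype.card {y // y ∈ T} ≤ n + max m0 (2 ^ n0) := by
      rw [Fintype.card_coe]
      have h6 : 2 ^ n ≤ 2 ^ n0 := Nat.pow_le_pow_right (by norm_num) (by omega)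
      have h7 : 2 ^ n0 ≤ max m0 (2 ^ n0) := le_max_right _ _
      omega
    refine asm_final hK G f hf hadj T hT (fun v y => decide (y.1 <+: v)) ?_ ?_
    · intro u hu v hv huv
      have h6 : decide (u <+: u) = decide (u <+: v) := congrFun huv ⟨u, hu⟩
      have h7 : decide (v <+: u) = decide (v <+: v) := congrFun huv ⟨v, hv⟩
      have h8 : u <+: v := by
        have : decide (u <+: v) = true := by rw [← h6]; simp
        simpa using this
      have h9 : v <+: u := by
        have : decide (v <+: u) = true := by rw [h7]; simp
        simpa using this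
      exact h8.eq_of_length (le_antisymm h8.length_le h9.length_le)
    · intro y e hye
      refine ⟨⟨y ++ [e], hye⟩, ?_⟩
      rintro ⟨z, hz⟩
      have h6 : z <+: y ++ [e] ↔ z = y ++ [e] ∨ z <+: y := List.prefix_concat_iff
      simp only [Subtype.mk.injEq]
      constructor
      · intro hne
        by_contra hcon
        apply hne
        congr 1
        rw [h6]
        simp [hcon]
      · intro hzz
        have h7 : z <+: y ++ [e] := h6.2 (Or.inl hzz)
        have h8 : ¬ z <+: y := by
          intro hcon
          have := hcon.length_le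
          rw [hzz] at this
          simp at this
        simp [h7, h8]

end Pool.Agent.Work.MP_bf01b2_co.Bd
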