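import Pool.Agent.Work.MP_bf01b2_co.Bd.LB

/-!
# MP_bf01b2_co, item BI: the label sets determine the complete blocks
-/

set_option autoImplicit false

namespace Pool.Agent.Work.MP_bf01b2_co.Bd

theorem bi_chk : ∀ ty : Bool, ∀ c < 32, ∀ d < 32, ∀ q < 6,
    lbMsk ty c 5 = lbMsk ty d q → (q = 5 ∧ c = d) := by
  decide +kernel

theorem blkInj (_h1 : LbInj) (_h2 : LbBasic) : BlkInj := by
  have key : ∀ (a : ℕ) (x y : ℕ → Bool) (l m : ℕ), SetEq a x l y m → ∀ g, g < l / 5 →
      g < m / 5 ∧ ∀ k < 5, x (5 * g + k) = y (5 * g + k) := by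
    intro a x y l m h g hg
    have h1 := lb_msk_eq a x y l m h g
    rw [show min 5 (l - 5 * g) = 5 by omega] at h1
    have h2 := bi_chk _ _ (lb_cod_lt x (5 * g) 4) _ (lb_cod_lt y (5 * g) 4)
      (min 5 (m - 5 * g)) (by omega) h1
    refine ⟨by omega, ?_⟩
    intro k hk
    exact lb_cod_bits x y (5 * g) 4 h2.2 k (by omega)
  intro a x y l m h
  have hsymm : SetEq a y m x l := fun c => (h c).symm
  have hlm : l / 5 = m / 5 := by
    rcases Nat.lt_trichotomy (l / 5) (m / 5) with h3 | h3 | h3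
    · have := (key a y x m l hsymm (l / 5) h3).1
      omega
    · exact h3
    · have := (key a x y l m h (m / 5) h3).1
      omega
  refine ⟨hlm, ?_⟩
  intro i hi
  have h4 := (key a x y l m h (i / 5) (by omega)).2 (i % 5) (by omega)
  rwa [show 5 * (i / 5) + i % 5 = i by omega] at h4

end Pool.Agent.Work.MP_bf01b2_co.Bd
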