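import Pool.Agent.Work.MP_bf01b2_co.Bd.LB

/-!
# MP_bf01b2_co, item BL: divergence inside a block on flipping levels
-/

set_option autoImplicit false

namespace Pool.Agent.Work.MP_bf01b2_co.Bd

/-- All positions in `[r, p)` flip. -/
def blAll (ty : Bool) (r p : ℕ) : Bool :=
  (List.range 5).all fun i => !(decide (r ≤ i)) || !(decide (i < p)) || tfl ty i

/-- The finite check. -/
def blChk (ty : Bool) (p q r : ℕ) : Bool :=
  if 1 ≤ r ∧ r ≤ p ∧ r ≤ q ∧ blAll ty r p = true ∧ blAll ty r q = true then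
    (List.range 32).all fun c => (List.range 32).all fun d =>
      !(c / 2 ^ (5 - r) == d / 2 ^ (5 - r)) || !(lbMsk ty c p == lbMsk ty d q) ||
        (p == q && c / 2 ^ (5 - p) == d / 2 ^ (5 - p))
  else true

theorem bl_chk : ∀ ty : Bool, ∀ p < 5, ∀ q < 5, ∀ r < 5, blChk ty p q r = true := by
  decide +kernel

theorem bl_use (ty : Bool) (p q r c d : ℕ) (hp : p < 5) (hq : q < 5) (hr : 1 ≤ r) (hrp : r ≤ p)
    (hrq : r ≤ q) (h1 : ∀ i, r ≤ i → i < p → tfl ty i = true)
    (h2 : ∀ i, r ≤ i → i < q → tfl ty i = true) (hc : c < 32) (hd : d < 32)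
    (hcd : c / 2 ^ (5 - r) = d / 2 ^ (5 - r)) (hm : lbMsk ty c p = lbMsk ty d q) :
    p = q ∧ c / 2 ^ (5 - p) = d / 2 ^ (5 - p) := by
  have hall : ∀ p', (∀ i, r ≤ i → i < p' → tfl ty i = true) → blAll ty r p' = true := by
    intro p' h
    unfold blAll
    rw [List.all_eq_true]
    intro i _
    by_cases hi : r ≤ i
    · by_cases hi' : i < p'
      · simp [h i hi hi']
      · simp [hi']
    · simp [hi]
  have h3 := bl_chk ty p hp q hq r (by omega)
  unfold blChk at h3
  rw [if_pos ⟨hr, hrp, hrq, hall p h1, hall q h2⟩] at h3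
  rw [List.all_eq_true] at h3
  have h4 := h3 c (List.mem_range.2 hc)
  rw [List.all_eq_true] at h4
  have h5 := h4 d (List.mem_range.2 hd)
  simpa [hcd, hm] using h5

theorem blkLoc (_h1 : LbInj) (_h2 : LbBasic) : BlkLoc := by
  intro a x y l m c h hlm hc hcl hcm hxy hl hm
  have hm1 := lb_msk_eq a x y l m h (l / 5)
  generalize hg : l / 5 = g at *
  rw [show min 5 (l - 5 * g) = l - 5 * g by omega,
    show min 5 (m - 5 * g) = m - 5 * g by omega] at hm1
  have hc1 : cod x (5 * g) (c - 5 * g - 1) = cod y (5 * g) (c - 5 * g - 1) :=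
    lb_cod_congr x y _ _ (fun k hk => hxy _ (by omega))
  rw [lb_cod4 x _ _ (by omega), lb_cod4 y _ _ (by omega),
    show 4 - (c - 5 * g - 1) = 5 - (c - 5 * g) by omega] at hc1
  obtain ⟨hpq, he⟩ := bl_use (decide (g < a)) (l - 5 * g) (m - 5 * g) (c - 5 * g)
    (cod x (5 * g) 4) (cod y (5 * g) 4) (by omega) (by omega) (by omega) (by omega) (by omega)
    (by
      intro i hi hi'
      have := hl (5 * g + i) (by omega) (by omega)
      rw [lb_none_iff, show (5 * g + i) / 5 = g by omega,
        show (5 * g + i) % 5 = i by omega] at this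
      exact this)
    (by
      intro i hi hi'
      have := hm (5 * g + i) (by omega) (by omega)
      rw [lb_none_iff, show (5 * g + i) / 5 = g by omega,
        show (5 * g + i) % 5 = i by omega] at this
      exact this)
    (lb_cod_lt x _ 4) (lb_cod_lt y _ 4) hc1 hm1
  refine ⟨by omega, ?_⟩
  intro i hi
  by_cases hic : i < 5 * g
  · exact hxy i (by omega)
  · have h6 : cod x (5 * g) (l - 5 * g - 1) = cod y (5 * g) (l - 5 * g - 1) := by
      rw [lb_cod4 x _ _ (by omega), lb_cod4 y _ _ (by omega),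
        show 4 - (l - 5 * g - 1) = 5 - (l - 5 * g) by omega]
      exact he
    have h7 := lb_cod_bits x y _ _ h6 (i - 5 * g) (by omega)
    rwa [show 5 * g + (i - 5 * g) = i by omega] at h7

end Pool.Agent.Work.MP_bf01b2_co.Bd
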