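import Pool.Agent.Work.MP_bf01b2_co.Bd.Stmts

/-!
# Item CO : the core
-/

set_option autoImplicit false

namespace Pool.Agent.Work.MP_bf01b2_co.Bd

theorem core (h1 : Params) (h2 : LoadThm) (h3 : NearP) (h4 : Iter) (h5 : LocP) (h6 : Finish)
    (h7 : EdgeP) (h8 : EdgeB) : Core := by
  obtain ⟨n0, hn0⟩ := h1
  refine ⟨2 ^ 10 * 2 ^ 46 + 1, n0, ?_⟩
  intro n hn T hT hcard
  obtain ⟨s, B, hs, hB, a1, a2, a3, a4, a5, a6⟩ := hn0 n hn
  obtain ⟨ω, hω⟩ := h2 s B n T hs (by omega) hT hcard a1 a2 a3 a4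
  have hbig : 10 ≤ (B - 2) * (5 * s) := by
    have h9 : 2 * 5 ≤ (B - 2) * (5 * s) := Nat.mul_le_mul (by omega) (by omega)
    omega
  obtain ⟨κ, hκ⟩ := h4 s B (n - 7 * s * B + 9) T ω hT a5
    (h3 s B _ hs (by omega) a6 ω T) hω
  set I := n - 7 * s * B + 9 - 45 with hI
  have hloc := h5 s B I hs (by omega) T ω κ hT (h3 s B 10 hs (by omega) hbig ω T)
  obtain ⟨ψ, hψ1, hψ2, hψ3⟩ := h6 _ T (Ph B I ω κ) (2 ^ 46) (2 ^ 10 * 2 ^ 46 + 1) hT (by
    intro y e hy _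
    have hP : P B ω (y ++ [e]) = P B ω y := by
      funext c
      obtain ⟨b1, b2⟩ := h7 s B hs ω y e
      rw [b1 c, b2 (by omega)]
      simp
    unfold Ph
    rw [hP]
    congr 1
    funext c
    by_cases hc : 1 ≤ c ∧ c ≤ I
    · rw [if_pos hc, if_pos hc]
      apply (h8 (fun t => col t = c) (κ c) y e).1
      unfold col
      rw [if_neg (by omega)]
      omega
    · rw [if_neg hc, if_neg hc]) (by
    have : (((2 ^ 46 : ℕ) : ℝ)) = 2 ^ 46 := by norm_num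
    rw [this]
    exact hκ) hloc (by omega)
  exact ⟨s, B, I, ω, κ, ψ, hs, by omega, by omega, hψ1, hψ2, hψ3⟩

end Pool.Agent.Work.MP_bf01b2_co.Bd
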