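import Pool.Agent.Work.MP_bf01b2_co.Bd.Stmts

set_option autoImplicit false

namespace Pool.Agent.Work.MP_bf01b2_co.Bd

open Classical

theorem cardOpt : CardOpt := by
  intro s
  unfold Z Opt
  rw [Fintype.card_prod, Fintype.card_perm, Fintype.card_fin]

theorem cz_low (s : ℕ) :
    (((Finset.univ.filter fun A : Finset (Fin (7 * s)) => A.card < 3 * s).card : ℕ) : ℝ) ≤
      (2 : ℝ) ^ (7 * s) * (823543 / 884736 : ℝ) ^ s := by
  have h1 := Fintype.sum_pow_mul_eq_add_pow (Fin (7 * s)) (3 / 4 : ℝ) 1
  rw [Fintype.card_fin] at h1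
  have h2 : (((Finset.univ.filter fun A : Finset (Fin (7 * s)) => A.card < 3 * s).card : ℕ) : ℝ) ≤
      ∑ A : Finset (Fin (7 * s)), (3 / 4 : ℝ) ^ A.card * 1 ^ (7 * s - A.card) *
        (4 / 3 : ℝ) ^ (3 * s) := by
    rw [Finset.card_eq_sum_ones]
    push_cast
    rw [Finset.sum_filter]
    refine Finset.sum_le_sum fun A _ => ?_
    split_ifs with h
    · rw [one_pow, mul_one]
      obtain ⟨k, hk⟩ := Nat.exists_eq_add_of_lt h
      rw [hk, add_assoc, pow_add, ← mul_assoc, ← mul_pow]
      norm_num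
      exact one_le_pow₀ (by norm_num)
    · positivity
  rw [← Finset.sum_mul, h1] at h2
  refine h2.trans (le_of_eq ?_)
  rw [pow_mul, pow_mul, pow_mul, ← mul_pow, ← mul_pow]
  congr 1
  norm_num

theorem cz_high (s : ℕ) :
    (Finset.univ.filter fun A : Finset (Fin (7 * s)) => 4 * s < A.card).card =
      (Finset.univ.filter fun A : Finset (Fin (7 * s)) => A.card < 3 * s).card := by
  refine Finset.card_equiv (Function.Involutive.toPerm (compl : Finset (Fin (7 * s)) → _)
    compl_involutive) fun A => ?_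
  rw [Finset.mem_filter, Finset.mem_filter, Function.Involutive.coe_toPerm, Finset.card_compl,
    Fintype.card_fin]
  have h := Finset.card_le_univ A
  rw [Fintype.card_fin] at h
  constructor
  · rintro ⟨_, h1⟩
    exact ⟨Finset.mem_univ _, by omega⟩
  · rintro ⟨_, h1⟩
    exact ⟨Finset.mem_univ _, by omega⟩

theorem zLow : ZLow := by
  intro s
  have h1 : Z s = (Finset.univ.filter fun A : Finset (Fin (7 * s)) =>
      3 * s ≤ A.card ∧ A.card ≤ 4 * s).card := by
    unfold Z
    rw [Fintype.card_subtype]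
  have h2 : (2 : ℕ) ^ (7 * s) ≤ Z s +
      (Finset.univ.filter fun A : Finset (Fin (7 * s)) => A.card < 3 * s).card +
      (Finset.univ.filter fun A : Finset (Fin (7 * s)) => 4 * s < A.card).card := by
    rw [h1]
    have h3 : Fintype.card (Finset (Fin (7 * s))) = 2 ^ (7 * s) := by
      rw [Fintype.card_finset, Fintype.card_fin]
    rw [← h3, ← Finset.card_univ]
    refine le_trans (Finset.card_le_card ?_) ((Finset.card_union_le _ _).trans
      (Nat.add_le_add_right (Finset.card_union_le _ _) _))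
    intro A _
    rw [Finset.mem_union, Finset.mem_union, Finset.mem_filter, Finset.mem_filter,
      Finset.mem_filter]
    by_cases q1 : A.card < 3 * s
    · exact Or.inl (Or.inr ⟨Finset.mem_univ _, q1⟩)
    · by_cases q2 : 4 * s < A.card
      · exact Or.inr ⟨Finset.mem_univ _, q2⟩
      · exact Or.inl (Or.inl ⟨Finset.mem_univ _, by omega, by omega⟩)
  rw [cz_high] at h2
  have h3 := cz_low s
  have h4 : ((2 : ℕ) ^ (7 * s) : ℝ) ≤ (Z s : ℝ) +
      (((Finset.univ.filter fun A : Finset (Fin (7 * s)) => A.card < 3 * s).card : ℕ) : ℝ) +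
      (((Finset.univ.filter fun A : Finset (Fin (7 * s)) => A.card < 3 * s).card : ℕ) : ℝ) := by
    exact_mod_cast h2
  push_cast at h4
  linarith

end Pool.Agent.Work.MP_bf01b2_co.Bd
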