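import Pool.Agent.Work.MP_bf01b2_co.Bd.Stmts

/-!
# MP_bf01b2_co : item DE, decomposition of the position into slabs, support, locality
-/

set_option autoImplicit false

namespace Pool.Agent.Work.MP_bf01b2_co.Bd

open Finset

theorem de_sum {M : Type} [AddCommMonoid M] (L n : ℕ) (f : ℕ → M) (m : ℕ) :
    ∑ k ∈ range m, ∑ i ∈ range (min L (n - k * L)), f (k * L + i) =
      ∑ t ∈ range (min (m * L) n), f t := by
  induction m with
  | zero => simp
  | succ m ih =>
    rw [Finset.sum_range_succ, ih]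
    rcases le_or_gt (m * L) n with h | h
    · have h1 : min ((m + 1) * L) n = min (m * L) n + min L (n - m * L) := by
        rw [add_mul, one_mul]
        omega
      have h2 : min (m * L) n = m * L := min_eq_left h
      rw [h1, h2, Finset.sum_range_add]
    · have h1 : min L (n - m * L) = 0 := by omega
      have h2 : min ((m + 1) * L) n = min (m * L) n := by
        rw [add_mul, one_mul]
        omega
      rw [h1, h2]
      simp

theorem de_cd {s : ℕ} (B : ℕ) (ω : List Bool → Opt s) (v : List Bool) (k i b j : ℕ)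
    (hi : i < 5 * s) : (cd B ω v (k * (5 * s) + i) = some (b, j)) ↔
      (k % B = b ∧ fl (ω (v.take (k * (5 * s)))) (bits s k v) i = some j) := by
  have h0 : 0 < 5 * s := by omega
  have h1 : (k * (5 * s) + i) / (5 * s) = k := by
    rw [mul_comm k, Nat.mul_add_div h0, Nat.div_eq_of_lt hi, add_zero]
  have h2 : (k * (5 * s) + i) % (5 * s) = i := by
    rw [mul_comm k, Nat.mul_add_mod, Nat.mod_eq_of_lt hi]
  rw [cd, h1, h2, Option.map_eq_some_iff]
  constructor
  · rintro ⟨a, ha, hab⟩
    rw [Prod.mk.injEq] at hab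
    exact ⟨hab.1, hab.2 ▸ ha⟩
  · rintro ⟨h3, h4⟩
    exact ⟨j, h4, by rw [h3]⟩

theorem decomp : Decomp := by
  intro s B hs ω v b j
  have h0 : 0 < 5 * s := by omega
  have h1 : min ((v.length / (5 * s) + 1) * (5 * s)) v.length = v.length := by
    refine min_eq_right ?_
    have := Nat.lt_mul_div_succ v.length h0
    rw [mul_comm]
    exact this.le
  have h2 := de_sum (5 * s) v.length
    (fun t => if cd B ω v t = some (b, j) then (1 : ZMod 2) else 0) (v.length / (5 * s) + 1)
  rw [h1] at h2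
  rw [P, ← h2]
  refine Finset.sum_congr rfl fun k _ => ?_
  by_cases hk : k % B = b
  · rw [if_pos hk, Q]
    refine Finset.sum_congr rfl fun i hi => ?_
    have hi2 : i < 5 * s := lt_of_lt_of_le (Finset.mem_range.1 hi) (min_le_left _ _)
    have h3 := de_cd B ω v k i b j hi2
    by_cases h4 : fl (ω (v.take (k * (5 * s)))) (bits s k v) i = some j
    · rw [if_pos h4, if_pos (h3.2 ⟨hk, h4⟩)]
    · rw [if_neg h4, if_neg fun h => h4 (h3.1 h).2]
  · rw [if_neg hk]
    refine Finset.sum_eq_zero fun i hi => ?_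
    have hi2 : i < 5 * s := lt_of_lt_of_le (Finset.mem_range.1 hi) (min_le_left _ _)
    rw [if_neg fun h => hk ((de_cd B ω v k i b j hi2).1 h).1]

theorem de_fl (h2 : LbBasic) {s : ℕ} (o : Opt s) (x : ℕ → Bool) (i j : ℕ) (hi : i < 5 * s)
    (h : fl o x i = some j) : j < 7 * s := by
  rw [fl, Option.map_eq_some_iff] at h
  obtain ⟨c, hc, rfl⟩ := h
  have h3 := (h2.1 _ _ _ _ hc).2
  have h4 : c < 7 * s := by omega
  rw [pv, dif_pos h4]
  exact Fin.is_lt _

theorem de_cd_lt (h2 : LbBasic) {s : ℕ} (hs : 0 < s) (B : ℕ) (hB : 0 < B)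
    (ω : List Bool → Opt s) (v : List Bool) (t b j : ℕ) (h : cd B ω v t = some (b, j)) :
    b < B ∧ j < 7 * s := by
  have h0 : 0 < 5 * s := by omega
  have h1 : t = t / (5 * s) * (5 * s) + t % (5 * s) := (Nat.div_add_mod' t (5 * s)).symm
  have h3 : t % (5 * s) < 5 * s := Nat.mod_lt _ h0
  rw [h1, de_cd B ω v _ _ b j h3] at h
  refine ⟨?_, de_fl h2 _ _ _ _ h3 h.2⟩
  rw [← h.1]
  exact Nat.mod_lt _ hB

theorem supp (h2 : LbBasic) : Supp := by
  intro s B hs hB ω v b j hbj
  rw [P]
  refine Finset.sum_eq_zero fun t _ => ?_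
  rw [if_neg]
  intro h
  have := de_cd_lt h2 hs B hB ω v t b j h
  omega

theorem localP : Local := by
  intro s B hs ω ω' v h
  funext c
  rw [P, P]
  refine Finset.sum_congr rfl fun t ht => ?_
  have h1 : cd B ω v t = cd B ω' v t := by
    rw [cd, cd, h (t / (5 * s)) (lt_of_le_of_lt (Nat.div_mul_le_self _ _) (Finset.mem_range.1 ht))]
  rw [h1]

end Pool.Agent.Work.MP_bf01b2_co.Bd
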