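import Mathlib

/-!
# MP_bf01b2_co : binary trees in hypercubes, `n + O(1)`

Definitions.  Parameters: `s` (a slab has `5 * s` levels and uses a window of `7 * s` coordinates),
`B` (number of windows).  A vertex of the tree is a bit string `v : List Bool`, the edge at level
`t` goes from `v.take t` to `v.take (t + 1)`.  A boundary vertex is a vertex whose length is
divisible by `5 * s`.
-/

set_option autoImplicit false

namespace Pool.Agent.Work.MP_bf01b2_co.Bd

/-! ### The block maps: five levels, seven labels -/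

/-- Labels of the block map of type `A` (it flips at the positions `1, 2, 3, 4`); row `p`, index =
the bits at the positions `0, .., p` read as a binary number (first bit most significant). -/
def tA : List (List ℕ) :=
  [[0, 0],
   [6, 1, 0, 4],
   [4, 2, 0, 2, 6, 3, 0, 2],
   [0, 3, 1, 5, 5, 6, 3, 4, 2, 5, 1, 5, 3, 2, 3, 6],
   [3, 1, 1, 5, 3, 5, 4, 3, 2, 4, 5, 2, 4, 5, 5, 0, 3, 5, 4, 3, 2, 6, 2, 1, 1, 5, 3, 5, 5, 6, 1, 0]]

/-- Labels of the block map of type `B` (it flips at the positions `2, 3, 4`). -/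
def tB : List (List ℕ) :=
  [[0, 0],
   [0, 0, 0, 0],
   [0, 6, 4, 2, 1, 3, 2, 5],
   [2, 3, 5, 4, 5, 3, 4, 6, 4, 6, 1, 5, 1, 5, 1, 0],
   [4, 3, 6, 1, 1, 0, 0, 2, 6, 0, 1, 0, 3, 5, 0, 3, 2, 0, 4, 0, 2, 6, 0, 4, 0, 6, 3, 1, 4, 3, 2, 1]]

/-- Label at the position `p`, code `c`. -/
def tlab (ty : Bool) (p c : ℕ) : ℕ := ((if ty then tA else tB).getD p []).getD c 0

/-- Does the type `ty` flip at the position `p`? -/
def tfl (ty : Bool) (p : ℕ) : Bool := if ty then decide (1 ≤ p) else decide (2 ≤ p)

/-- The bits `x a, .., x (a + p)` as a binary number (first bit most significant). -/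
def cod (x : ℕ → Bool) (a : ℕ) : ℕ → ℕ
  | 0 => (x a).toNat
  | (p + 1) => 2 * cod x a p + (x (a + p + 1)).toNat

/-- The label used at the level `i` of a slab by the word `x`, if the blocks `g < a` are of type
`A` and the others of type `B`. -/
def lb (a : ℕ) (x : ℕ → Bool) (i : ℕ) : Option ℕ :=
  if tfl (decide (i / 5 < a)) (i % 5) = true then
    some (7 * (i / 5) + tlab (decide (i / 5 < a)) (i % 5) (cod x (5 * (i / 5)) (i % 5)))
  else none

/-- The words `x` of length `l` and `y` of length `m` use the same set of labels. -/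
def SetEq (a : ℕ) (x : ℕ → Bool) (l : ℕ) (y : ℕ → Bool) (m : ℕ) : Prop :=
  ∀ c : ℕ, (∃ i < l, lb a x i = some c) ↔ (∃ i < m, lb a y i = some c)

/-! ### Options, positions -/

/-- Options of a boundary vertex: only the size of the set `A` matters, the set itself gives the
right weight to this size. -/
abbrev Opt (s : ℕ) : Type :=
  {A : Finset (Fin (7 * s)) // 3 * s ≤ A.card ∧ A.card ≤ 4 * s} × Equiv.Perm (Fin (7 * s))

/-- The number of blocks of type `A`. -/
def nA {s : ℕ} (o : Opt s) : ℕ := o.1.1.card - 3 * s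

/-- Value of a permutation. -/
def pv {N : ℕ} (π : Equiv.Perm (Fin N)) (i : ℕ) : ℕ := if h : i < N then (π ⟨i, h⟩ : ℕ) else i

/-- The coordinate (inside the window) flipped at the level `i` of a slab. -/
def fl {s : ℕ} (o : Opt s) (x : ℕ → Bool) (i : ℕ) : Option ℕ := (lb (nA o) x i).map (pv o.2)

/-- Content of the coordinate `j` of the window after `l` levels of a slab. -/
def Q {s : ℕ} (o : Opt s) (x : ℕ → Bool) (l j : ℕ) : ZMod 2 :=
  ∑ i ∈ Finset.range l, if fl o x i = some j then 1 else 0

/-- The bits of `v` in the slab `k`. -/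
def bits (s k : ℕ) (v : List Bool) (i : ℕ) : Bool := v.getD (k * (5 * s) + i) false

/-- The coordinate flipped by the edge of `v` at level `t`. -/
def cd {s : ℕ} (B : ℕ) (ω : List Bool → Opt s) (v : List Bool) (t : ℕ) : Option (ℕ × ℕ) :=
  (fl (ω (v.take (t / (5 * s) * (5 * s)))) (bits s (t / (5 * s)) v) (t % (5 * s))).map
    fun j => (t / (5 * s) % B, j)

/-- Position of the vertex `v`: the coordinate `(b, j)` is the coordinate `j` of the window `b`. -/
def P {s : ℕ} (B : ℕ) (ω : List Bool → Opt s) (v : List Bool) (c : ℕ × ℕ) : ZMod 2 :=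
  ∑ t ∈ Finset.range v.length, if cd B ω v t = some c then 1 else 0

/-- `Z s = #{A ⊆ [7 s] : 3 s ≤ |A| ≤ 4 s}`. -/
def Z (s : ℕ) : ℕ := Fintype.card {A : Finset (Fin (7 * s)) // 3 * s ≤ A.card ∧ A.card ≤ 4 * s}

/-- `T` is closed under taking prefixes. -/
def PrefClosed (T : Finset (List Bool)) : Prop := ∀ v ∈ T, ∀ t : ℕ, v.take t ∈ T

/-- `u` and `v` lie in the same block of five levels. -/
def SameBlk (u v : List Bool) : Prop :=
  u.length / 5 = v.length / 5 ∧ u.take (5 * (u.length / 5)) = v.take (5 * (v.length / 5))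

/-- Vertices with the same image which are less than `D` levels below a common ancestor lie in
the same block. -/
def NearD {X : Type} (T : Finset (List Bool)) (φ : List Bool → X) (D : ℕ) : Prop :=
  ∀ u ∈ T, ∀ v ∈ T, φ u = φ v → ∀ t, t ≤ u.length → t ≤ v.length → u.take t = v.take t →
    u.length ≤ t + D → v.length ≤ t + D → SameBlk u v

open Classical in
/-- All fibres of `φ` on `T` have at most `a` elements. -/
def FibLe {X : Type} (T : Finset (List Bool)) (φ : List Bool → X) (a : ℝ) : Prop :=
  ∀ x : X, ((T.filter fun v => φ v = x).card : ℝ) ≤ a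

/-! ### The coordinates which are decided by halving -/

/-- Ruler function: `m = 2 ^ j (2 i + 1)` gets `2 ^ j + i % 2 ^ j`. -/
def rul (m : ℕ) : ℕ := 2 ^ padicValNat 2 m + m / 2 ^ padicValNat 2 m / 2 % 2 ^ padicValNat 2 m

/-- The halving coordinate of the level `t` (`0` = none).  Levels `t` with `t % 10 = 5` are never
used. -/
def col (t : ℕ) : ℕ := if t % 10 = 0 then rul (t / 10 + 1) else 0

/-- The last `t < n` with `p t`. -/
def lastLev (p : ℕ → Prop) [DecidablePred p] : ℕ → Option ℕ
  | 0 => none
  | (n + 1) => if p n then some n else lastLev p n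

/-- The bit of `v` for the cut levels `p` and the coins `κ`. -/
def bit (p : ℕ → Prop) [DecidablePred p] (κ : List Bool → Bool) (v : List Bool) : Bool :=
  match lastLev p v.length with
  | none => false
  | some t => xor (κ (v.take t)) (v.getD t false)

/-- Bound for the fibres. -/
noncomputable def aa (r : ℕ) : ℝ := 2 ^ r * (1 + 4 / (r : ℝ))

/-- The complete map: the real coordinates, and the bits of the coordinates `1, .., I`. -/
def Ph {s : ℕ} (B I : ℕ) (ω : List Bool → Opt s) (κ : ℕ → List Bool → Bool) (v : List Bool) :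
    (ℕ × ℕ → ZMod 2) × (ℕ → Bool) :=
  (P B ω v, fun c => if 1 ≤ c ∧ c ≤ I then bit (fun t => col t = c) (κ c) v else false)

/-- `w i` for the coins in the region, `ω i` outside. -/
def mix {ι Ω : Type} (R : Finset ι) [DecidableEq ι] (η ω : ι → Ω) : ι → Ω :=
  fun i => if i ∈ R then η i else ω i

end Pool.Agent.Work.MP_bf01b2_co.Bd
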