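import Pool.Agent.Work.MP_bf01b2_co.Bd.Stmts

set_option autoImplicit false

namespace Pool.Agent.Work.MP_bf01b2_co.Bd

open Classical

theorem ed_cod (x y : ℕ → Bool) (a p : ℕ) (h : ∀ j ≤ a + p, x j = y j) :
    cod x a p = cod y a p := by
  induction p with
  | zero =>
    unfold cod
    rw [h a (by omega)]
  | succ p ih =>
    unfold cod
    rw [ih fun j hj => h j (by omega), h (a + p + 1) (by omega)]

theorem ed_lb (a : ℕ) (x y : ℕ → Bool) (i : ℕ) (h : ∀ j ≤ i, x j = y j) :
    lb a x i = lb a y i := by
  unfold lb
  rw [ed_cod x y (5 * (i / 5)) (i % 5) fun j hj => h j (by omega)]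

theorem ed_take (y : List Bool) (e : Bool) (m : ℕ) (h : m ≤ y.length) :
    (y ++ [e]).take m = y.take m := List.take_append_of_le_length h

theorem ed_getD (y : List Bool) (e : Bool) (m : ℕ) (h : m < y.length) :
    (y ++ [e]).getD m false = y.getD m false := by
  rw [List.getD_eq_getElem?_getD, List.getD_eq_getElem?_getD, List.getElem?_append_left h]

theorem ed_getD_last (y : List Bool) (e : Bool) : (y ++ [e]).getD y.length false = e := by
  rw [List.getD_eq_getElem?_getD, List.getElem?_append_right le_rfl]
  simp

theorem edgeP : EdgeP := by
  intro s B hs ω y e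
  constructor
  · intro c
    unfold P
    rw [List.length_append, List.length_singleton, Finset.sum_range_succ]
    congr 1
    refine Finset.sum_congr rfl fun t ht => ?_
    have ht' := Finset.mem_range.1 ht
    have h1 : t / (5 * s) * (5 * s) ≤ t := Nat.div_mul_le_self _ _
    have h2 : t / (5 * s) * (5 * s) + t % (5 * s) = t := by
      have := Nat.div_add_mod t (5 * s)
      rw [mul_comm] at this
      exact this
    have h3 : cd B ω (y ++ [e]) t = cd B ω y t := by
      unfold cd
      rw [ed_take y e _ (by omega)]
      have h4 : fl (ω (y.take (t / (5 * s) * (5 * s)))) (bits s (t / (5 * s)) (y ++ [e]))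
          (t % (5 * s)) = fl (ω (y.take (t / (5 * s) * (5 * s)))) (bits s (t / (5 * s)) y)
          (t % (5 * s)) := by
        unfold fl
        rw [ed_lb _ (bits s (t / (5 * s)) (y ++ [e])) (bits s (t / (5 * s)) y)]
        intro j hj
        unfold bits
        exact ed_getD y e _ (by omega)
      rw [h4]
    rw [h3]
  · intro hy
    have h1 : y.length % (5 * s) % 5 = 0 := by
      rw [Nat.mod_mod_of_dvd _ (Dvd.intro s rfl)]
      exact hy
    unfold cd fl lb
    rw [h1]
    have h2 : ∀ ty : Bool, tfl ty 0 = false := by
      intro ty
      cases ty <;> rfl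
    rw [h2]
    simp

theorem ed_lastLev (p : ℕ → Prop) [DecidablePred p] (n t : ℕ) (h : lastLev p n = some t) :
    t < n := by
  induction n with
  | zero =>
    unfold lastLev at h
    exact absurd h (by simp)
  | succ n ih =>
    unfold lastLev at h
    split_ifs at h with h1
    · rw [Option.some.injEq] at h
      omega
    · have := ih h
      omega

theorem edgeB : EdgeB := by
  intro p _ κ y e
  have h0 : (y ++ [e]).length = y.length + 1 := by
    rw [List.length_append, List.length_singleton]
  constructor
  · intro hp
    have h1 : lastLev p (y ++ [e]).length = lastLev p y.length := by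
      rw [h0]
      unfold lastLev
      rw [if_neg hp]
      cases y.length <;> rfl
    unfold bit
    rw [h1]
    cases h2 : lastLev p y.length with
    | none => rfl
    | some t =>
      have h3 := ed_lastLev p _ _ h2
      simp only
      rw [ed_take y e t h3.le, ed_getD y e t h3]
  · intro hp
    have h1 : lastLev p (y ++ [e]).length = some y.length := by
      rw [h0]
      unfold lastLev
      rw [if_pos hp]
    unfold bit
    rw [h1]
    simp only
    rw [ed_take y e _ le_rfl, ed_getD_last, List.take_length]

end Pool.Agent.Work.MP_bf01b2_co.Bd
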