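import Pool.Agent.Work.MP_bf01b2_co.Bd.Stmts

/-!
# Item FI: greedy separation of bounded fibres
-/

set_option autoImplicit false

namespace Pool.Agent.Work.MP_bf01b2_co.Bd

open Classical

/-- fewer than `2 ^ (D + 1)` bit strings have length at most `D` -/
theorem fi_cardLists (S : Finset (List Bool)) (D : ℕ) (h : ∀ v ∈ S, v.length ≤ D) :
    S.card < 2 ^ (D + 1) := by
  have h1 : S ⊆ (Finset.range (D + 1)).biUnion
      (fun l => (Finset.univ : Finset (List.Vector Bool l)).image (fun x => x.1)) := by
    intro v hv
    rw [Finset.mem_biUnion]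
    refine ⟨v.length, Finset.mem_range.mpr (Nat.lt_succ_of_le (h v hv)), ?_⟩
    rw [Finset.mem_image]
    exact ⟨⟨v, rfl⟩, Finset.mem_univ _, rfl⟩
  have h2 : S.card ≤ ∑ l ∈ Finset.range (D + 1), 2 ^ l := by
    refine (Finset.card_le_card h1).trans (Finset.card_biUnion_le.trans ?_)
    apply Finset.sum_le_sum
    intro l _
    refine Finset.card_image_le.trans ?_
    rw [Finset.card_univ, card_vector, Fintype.card_bool]
  have h3 : ∑ l ∈ Finset.range (D + 1), 2 ^ l = 2 ^ (D + 1) - 1 := by
    have := Nat.geomSum_eq (le_refl 2) (D + 1)
    simpa using this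
  have h4 : 0 < 2 ^ (D + 1) := by positivity
  omega

variable {X : Type} (Φ : List Bool → X)

/-- length of the root -/
noncomputable def fi_rl (v : List Bool) : ℕ → ℕ
  | 0 => 0
  | (n + 1) => if Φ (v.take (n + 1)) = Φ (v.take n) then n + 1 else fi_rl v n

theorem fi_rl_le (v : List Bool) (n : ℕ) : fi_rl Φ v n ≤ n := by
  induction n with
  | zero => exact le_rfl
  | succ n ih =>
    unfold fi_rl
    split_ifs
    · exact le_rfl
    · omega

theorem fi_rl_chg (v : List Bool) (n i : ℕ) (h1 : fi_rl Φ v n ≤ i) (h2 : i < n) :
    Φ (v.take (i + 1)) ≠ Φ (v.take i) := by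
  induction n with
  | zero => omega
  | succ n ih =>
    unfold fi_rl at h1
    split_ifs at h1 with h
    · omega
    · rcases Nat.lt_succ_iff_lt_or_eq.mp h2 with h3 | rfl
      · exact ih h1 h3
      · exact h

theorem fi_rl_unch (v : List Bool) (n k : ℕ) (h1 : fi_rl Φ v n = k + 1) :
    Φ (v.take (k + 1)) = Φ (v.take k) := by
  induction n with
  | zero => simp [fi_rl] at h1
  | succ n ih =>
    unfold fi_rl at h1
    split_ifs at h1 with h
    · obtain rfl : n = k := by omega
      exact h
    · exact ih h1

/-- the root -/
noncomputable def fi_rt (v : List Bool) : List Bool := v.take (fi_rl Φ v v.length)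

theorem fi_rt_len (v : List Bool) : (fi_rt Φ v).length = fi_rl Φ v v.length := by
  unfold fi_rt
  rw [List.length_take]
  have := fi_rl_le Φ v v.length
  omega

/-- the term of the sum -/
noncomputable def fi_tm {m : ℕ} (g : List Bool → Fin m) (v : List Bool) (t : ℕ) :
    Fin m → ZMod 2 :=
  if Φ (v.take (t + 1)) = Φ (v.take t) then Pi.single (g (v.take (t + 1))) 1 else 0

/-- the map -/
noncomputable def fi_psi {m : ℕ} (g : List Bool → Fin m) (v : List Bool) : Fin m → ZMod 2 :=
  ∑ t ∈ Finset.range v.length, fi_tm Φ g v t

theorem fi_tm_take {m : ℕ} (g : List Bool → Fin m) (v : List Bool) (t n : ℕ) (h : t < n) :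
    fi_tm Φ g (v.take n) t = fi_tm Φ g v t := by
  unfold fi_tm
  rw [List.take_take, List.take_take, min_eq_left (by omega), min_eq_left (by omega)]

theorem fi_psi_snoc {m : ℕ} (g : List Bool → Fin m) (y : List Bool) (e : Bool) :
    fi_psi Φ g (y ++ [e]) = fi_psi Φ g y +
      (if Φ (y ++ [e]) = Φ y then Pi.single (g (y ++ [e])) 1 else 0) := by
  unfold fi_psi
  have h1 : (y ++ [e]).length = y.length + 1 := by simp
  rw [h1, Finset.sum_range_succ]
  congr 1
  · apply Finset.sum_congr rfl
    intro t ht
    rw [Finset.mem_range] at ht
    have : y = (y ++ [e]).take y.length := by simp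
    conv_rhs => rw [this]
    rw [fi_tm_take]
    exact ht
  · unfold fi_tm
    have h2 : (y ++ [e]).take (y.length + 1) = y ++ [e] := by
      rw [← h1]; exact List.take_length
    have h3 : (y ++ [e]).take y.length = y := by simp
    rw [h2, h3]

/-- the sum stops at the root -/
theorem fi_psi_root {m : ℕ} (g : List Bool → Fin m) (v : List Bool) :
    fi_psi Φ g v = ∑ t ∈ Finset.range (fi_rl Φ v v.length), fi_tm Φ g v t := by
  unfold fi_psi
  symm
  apply Finset.sum_subset
  · intro t ht
    rw [Finset.mem_range] at ht ⊢
    exact lt_of_lt_of_le ht (fi_rl_le Φ v _)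
  · intro t ht ht'
    rw [Finset.mem_range] at ht ht'
    unfold fi_tm
    rw [if_neg (fi_rl_chg Φ v v.length t (by omega) ht)]

theorem fi_eq_take {a v : List Bool} {t : ℕ} (h : v.take t = a) (ht : t ≤ v.length) :
    a.length = t := by
  rw [← h, List.length_take]
  omega

theorem fi_psi_update {m : ℕ} (g : List Bool → Fin m) (a : List Bool) (c : Fin m)
    (s : Finset (List Bool)) (has : a ∉ s) (hs : ∀ x ∈ s, x.length ≤ a.length)
    (v : List Bool) (hv : fi_rt Φ v ∈ s) : fi_psi Φ (Function.update g a c) v = fi_psi Φ g v := by
  rw [fi_psi_root, fi_psi_root]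
  apply Finset.sum_congr rfl
  intro t ht
  rw [Finset.mem_range] at ht
  have h1 := hs _ hv
  rw [fi_rt_len] at h1
  have h2 := fi_rl_le Φ v v.length
  unfold fi_tm
  have h3 : v.take (t + 1) ≠ a := by
    intro h4
    have h5 := fi_eq_take h4 (by omega)
    have h6 : fi_rl Φ v v.length = t + 1 := by omega
    apply has
    rw [← h4, ← h6]
    exact hv
  rw [Function.update_of_ne h3]

theorem finish : Finish := by
  intro X T Φ F m hT h5 hF hL hm
  have hm0 : 0 < m := by omega
  have key : ∃ g : List Bool → Fin m, ∀ u ∈ T, ∀ v ∈ T, fi_rt Φ u ∈ T.image (fi_rt Φ) →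
      fi_rt Φ v ∈ T.image (fi_rt Φ) → Φ u = Φ v → fi_psi Φ g u = fi_psi Φ g v → u = v := by
    refine Finset.induction_on_max_value (fun x : List Bool => x.length)
      (motive := fun R => ∃ g : List Bool → Fin m, ∀ u ∈ T, ∀ v ∈ T, fi_rt Φ u ∈ R → fi_rt Φ v ∈ R →
        Φ u = Φ v → fi_psi Φ g u = fi_psi Φ g v → u = v) (T.image (fi_rt Φ)) ?_ ?_
    · exact ⟨fun _ => ⟨0, hm0⟩, fun u _ v _ hu => absurd hu (Finset.notMem_empty _)⟩
    · intro a s has hs hg
      obtain ⟨g, hg⟩ := hg
      -- the component
      set C := T.filter (fun u => fi_rt Φ u = a) with hC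
      have hCcard : C.card < 2 ^ (9 + 1) := by
        have h1 : (C.image (fun v => v.drop a.length)).card = C.card := by
          apply Finset.card_image_of_injOn
          intro u hu v hv huv
          have hu2 := (Finset.mem_filter.mp hu).2
          have hv2 := (Finset.mem_filter.mp hv).2
          simp only at huv
          have e1 : u.take a.length = a := by
            rw [← hu2, fi_rt_len]; rfl
          have e2 : v.take a.length = a := by
            rw [← hv2, fi_rt_len]; rfl
          rw [← List.take_append_drop a.length u, ← List.take_append_drop a.length v, e1, e2, huv]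
        rw [← h1]
        apply fi_cardLists
        intro z hz
        obtain ⟨v, hv, rfl⟩ := Finset.mem_image.mp hz
        obtain ⟨hv1, hv2⟩ := Finset.mem_filter.mp hv
        rw [List.length_drop, ← hv2, fi_rt_len]
        by_contra hcon
        push Not at hcon
        set r := fi_rl Φ v v.length with hr
        obtain ⟨i, hi1, hi2, hi3⟩ : ∃ i, r ≤ i ∧ i < v.length ∧ i % 10 = 5 := by
          refine ⟨r + (15 - r % 10) % 10, by omega, ?_, ?_⟩
          · have : (15 - r % 10) % 10 < 10 := Nat.mod_lt _ (by norm_num)
            omega
          · omega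
        apply fi_rl_chg Φ v v.length i hi1 hi2
        have h6 : v.take (i + 1) = v.take i ++ [v[i]] := by
          rw [List.take_succ_eq_append_getElem hi2]
        have h7 := h5 (v.take i) v[i] (by rw [List.length_take]; rw [min_eq_left hi2.le]; exact hi3)
          (by rw [← h6]; exact hT v hv1 _)
        rw [h6]
        exact h7
      -- forbidden values
      set β : Fin m → ZMod 2 := ∑ t ∈ Finset.range (a.length - 1), fi_tm Φ g a t with hβ
      set W := T.filter (fun v => Φ v ∈ C.image Φ) with hW
      have hWcard : W.card < m := by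
        have h1 : W.card ≤ ∑ x ∈ C.image Φ, F := by
          have h2 : W ⊆ (C.image Φ).biUnion (fun x => T.filter fun v => Φ v = x) := by
            intro v hv
            obtain ⟨hv1, hv2⟩ := Finset.mem_filter.mp hv
            rw [Finset.mem_biUnion]
            exact ⟨Φ v, hv2, Finset.mem_filter.mpr ⟨hv1, rfl⟩⟩
          refine (Finset.card_le_card h2).trans (Finset.card_biUnion_le.trans ?_)
          apply Finset.sum_le_sum
          intro x _
          have := hF x
          exact_mod_cast this
        rw [Finset.sum_const, smul_eq_mul] at h1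
        have h2 : (C.image Φ).card ≤ C.card := Finset.card_image_le
        have h3 : (C.image Φ).card * F ≤ 2 ^ 10 * F := by
          apply Nat.mul_le_mul_right
          exact h2.trans hCcard.le
        omega
      obtain ⟨c, hc⟩ : ∃ c : Fin m, ∀ v ∈ W, fi_psi Φ g v ≠ β + Pi.single c 1 := by
        by_contra hcon
        push Not at hcon
        choose f hf1 hf2 using hcon
        have hinj : Function.Injective f := by
          intro c c' hcc
          have h1 := hf2 c
          rw [hcc, hf2 c'] at h1
          have h2 := add_left_cancel h1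
          have h3 := congrFun h2 c
          rw [Pi.single_eq_same] at h3
          by_contra hne
          rw [Pi.single_eq_of_ne hne] at h3
          exact zero_ne_one h3
        have h4 : m ≤ W.card := by
          have h5 := Finset.card_le_card_of_injOn (s := (Finset.univ : Finset (Fin m))) (t := W) f
            (fun c _ => hf1 c) hinj.injOn
          rwa [Finset.card_univ, Fintype.card_fin] at h5
        omega
      refine ⟨Function.update g a c, ?_⟩
      -- the value on the component
      have hval : ∀ u, fi_rt Φ u = a → a ≠ [] →
          fi_psi Φ (Function.update g a c) u = β + Pi.single c 1 := by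
        intro u hu ha
        have hlen := fi_rt_len Φ u
        rw [hu] at hlen
        obtain ⟨k, hk⟩ : ∃ k, a.length = k + 1 := by
          cases a with
          | nil => exact absurd rfl ha
          | cons b l => exact ⟨l.length, rfl⟩
        have hle := fi_rl_le Φ u u.length
        have hta : u.take (k + 1) = a := by
          rw [← hk, hlen]
          exact hu
        rw [fi_psi_root, ← hlen, hk, Finset.sum_range_succ]
        have e1 : β = ∑ t ∈ Finset.range k, fi_tm Φ g a t := by
          rw [hβ, hk]; rfl
        rw [e1]
        congr 1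
        · apply Finset.sum_congr rfl
          intro t ht
          rw [Finset.mem_range] at ht
          rw [← hta, fi_tm_take Φ g u t (k + 1) (by omega)]
          unfold fi_tm
          have h3 : u.take (t + 1) ≠ u.take (k + 1) := by
            intro h4
            have h5 := congrArg List.length h4
            rw [List.length_take, List.length_take] at h5
            omega
          rw [Function.update_of_ne h3]
        · unfold fi_tm
          rw [if_pos (fi_rl_unch Φ u u.length k (by omega)), hta, Function.update_self]
      have hboth : ∀ u ∈ T, ∀ v ∈ T, fi_rt Φ u = a → fi_rt Φ v = a → Φ u = Φ v → u = v := by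
        intro u hu v hv hua hva huv
        have hlu := fi_rt_len Φ u
        rw [hua] at hlu
        have hlv := fi_rt_len Φ v
        rw [hva] at hlv
        have hleu := fi_rl_le Φ u u.length
        have hlev := fi_rl_le Φ v v.length
        refine hL u hu v hv huv a.length (by omega) (by omega) ?_ ?_ ?_
        · have e1 : u.take a.length = a := by
            rw [hlu]; exact hua
          have e2 : v.take a.length = a := by
            rw [hlv]; exact hva
          rw [e1, e2]
        · intro i hi1 hi2
          exact fi_rl_chg Φ u u.length i (by omega) hi2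
        · intro i hi1 hi2
          exact fi_rl_chg Φ v v.length i (by omega) hi2
      have hmix : ∀ u ∈ T, ∀ v ∈ T, fi_rt Φ u = a → fi_rt Φ v ∈ s → Φ u = Φ v →
          fi_psi Φ (Function.update g a c) u ≠ fi_psi Φ (Function.update g a c) v := by
        intro u hu v hv hua hvs huv h
        have ha : a ≠ [] := by
          rintro rfl
          have h1 := hs _ hvs
          apply has
          have h2 : fi_rt Φ v = [] := by
            apply List.length_eq_zero_iff.mp
            simpa using h1
          rw [← h2]
          exact hvs
        rw [hval u hua ha, fi_psi_update Φ g a c s has hs v hvs] at h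
        refine hc v ?_ h.symm
        rw [hW, Finset.mem_filter]
        exact ⟨hv, Finset.mem_image.mpr ⟨u, Finset.mem_filter.mpr ⟨hu, hua⟩, huv⟩⟩
      intro u hu v hv hu1 hv1 huv hpsi
      rw [Finset.mem_insert] at hu1 hv1
      rcases hu1 with hu1 | hu1 <;> rcases hv1 with hv1 | hv1
      · exact hboth u hu v hv hu1 hv1 huv
      · exact absurd hpsi (hmix u hu v hv hu1 hv1 huv)
      · exact absurd hpsi.symm (hmix v hv u hu hv1 hu1 huv.symm)
      · rw [fi_psi_update Φ g a c s has hs u hu1, fi_psi_update Φ g a c s has hs v hv1] at hpsi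
        exact hg u hu v hv hu1 hv1 huv hpsi
  obtain ⟨g, hg⟩ := key
  refine ⟨fi_psi Φ g, ?_, ?_, ?_⟩
  · intro y e _ hne
    rw [fi_psi_snoc, if_neg hne, add_zero]
  · intro y e _ heq
    exact ⟨g (y ++ [e]), by rw [fi_psi_snoc, if_pos heq]⟩
  · intro u hu v hv huv hpsi
    exact hg u hu v hv (Finset.mem_image_of_mem _ hu) (Finset.mem_image_of_mem _ hv) huv hpsi

end Pool.Agent.Work.MP_bf01b2_co.Bd
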