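import Pool.Agent.Work.MP_bf01b2_co.Bd.Stmts

/-!
# Item HN : numerical inequality for the halving step
-/

set_option autoImplicit false

namespace Pool.Agent.Work.MP_bf01b2_co.Bd

theorem hn_pow : ∀ r : ℕ, 46 ≤ r → 700 * r ^ 6 ≤ 2 ^ r := by
  intro r hr
  induction r, hr using Nat.le_induction with
  | base => norm_num
  | succ n hn ih =>
    have h1 : (n + 1) ^ 6 ≤ 2 * n ^ 6 := by
      obtain ⟨k, rfl⟩ : ∃ k, n = 46 + k := ⟨n - 46, by omega⟩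
      ring_nf
      nlinarith [Nat.zero_le k, Nat.zero_le (k ^ 2), Nat.zero_le (k ^ 3), Nat.zero_le (k ^ 4),
        Nat.zero_le (k ^ 5), Nat.zero_le (k ^ 6)]
    calc 700 * (n + 1) ^ 6 ≤ 700 * (2 * n ^ 6) := Nat.mul_le_mul_left _ h1
      _ = 2 * (700 * n ^ 6) := by ring
      _ ≤ 2 * 2 ^ n := Nat.mul_le_mul_left _ ih
      _ = 2 ^ (n + 1) := by ring

theorem halfNum : HalfNum := by
  intro r hr
  have hp : (700 : ℝ) * (r : ℝ) ^ 6 ≤ 2 ^ r := by exact_mod_cast hn_pow r hr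
  have hr' : (46 : ℝ) ≤ r := by exact_mod_cast hr
  have hr0 : (0 : ℝ) < r := by linarith
  have hr1 : (0 : ℝ) < (r : ℝ) - 1 := by linarith
  have hcast : ((r - 1 : ℕ) : ℝ) = (r : ℝ) - 1 := by
    rw [Nat.cast_sub (by omega)]; norm_num
  have hpow : (2 : ℝ) ^ r = 2 * 2 ^ (r - 1) := by
    rw [← pow_succ']; congr 1; omega
  set P : ℝ := 2 ^ r with hP
  have hPpos : 0 < P := by positivity
  have hdiff : aa (r - 1) - aa r / 2 = 2 * P / (r * (r - 1)) := by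
    unfold aa
    rw [hcast]
    have : (2 : ℝ) ^ (r - 1) = P / 2 := by rw [hpow]; ring
    rw [this, ← hP]
    field_simp
    ring
  have hd2 : 2 * P / (r : ℝ) ^ 2 ≤ 2 * P / (r * (r - 1)) := by
    apply div_le_div_of_nonneg_left (by positivity) (by positivity)
    nlinarith
  have hr6 : (1 : ℝ) ≤ (r : ℝ) ^ 4 := by
    have : (1 : ℝ) ≤ r := by linarith
    exact one_le_pow₀ this
  have hbig : (700 : ℝ) * (r : ℝ) ^ 4 ≤ P / (r : ℝ) ^ 2 := by
    rw [le_div_iff₀ (by positivity)]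
    calc (700 : ℝ) * (r : ℝ) ^ 4 * (r : ℝ) ^ 2 = 700 * (r : ℝ) ^ 6 := by ring
      _ ≤ P := hp
  have h700 : (700 : ℝ) ≤ P / (r : ℝ) ^ 2 := by nlinarith
  have h2P : 2 * P / (r : ℝ) ^ 2 = 2 * (P / (r : ℝ) ^ 2) := by ring
  have hD : 2 * (P / (r : ℝ) ^ 2) ≤ aa (r - 1) - aa r / 2 := by
    rw [hdiff, ← h2P]; exact hd2
  refine ⟨by linarith, ?_⟩
  have hD2 : P / (r : ℝ) ^ 2 ≤ aa (r - 1) - aa r / 2 - 31 := by linarith
  have hsq : (P / (r : ℝ) ^ 2) ^ 2 ≤ (aa (r - 1) - aa r / 2 - 31) ^ 2 :=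
    pow_le_pow_left₀ (by positivity) hD2 2
  have haa : aa r ≤ P * 2 := by
    unfold aa
    rw [← hP]
    apply mul_le_mul_of_nonneg_left _ hPpos.le
    have : 4 / (r : ℝ) ≤ 1 := by rw [div_le_one hr0]; linarith
    linarith
  have haa0 : 0 < aa r := by
    unfold aa
    positivity
  rw [le_div_iff₀ (by positivity)]
  have h5 : 20 * (r : ℝ) ^ 2 + r + 6 ≤ 21 * (r : ℝ) ^ 2 := by nlinarith
  calc (20 * (r : ℝ) ^ 2 + r + 6) * (31 * aa r)
      ≤ (21 * (r : ℝ) ^ 2) * (31 * (P * 2)) := by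
        apply mul_le_mul h5 _ (by positivity) (by positivity)
        linarith
    _ ≤ 2 * (P / (r : ℝ) ^ 2) ^ 2 := by
        have h6 : 2 * (P / (r : ℝ) ^ 2) ^ 2 = 2 * P * (P / (r : ℝ) ^ 4) := by
          field_simp
        rw [h6]
        have h7 : (700 : ℝ) * (r : ℝ) ^ 2 ≤ P / (r : ℝ) ^ 4 := by
          rw [le_div_iff₀ (by positivity)]
          calc (700 : ℝ) * (r : ℝ) ^ 2 * (r : ℝ) ^ 4 = 700 * (r : ℝ) ^ 6 := by ring
            _ ≤ P := hp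
        have h8 : 2 * P * (700 * (r : ℝ) ^ 2) ≤ 2 * P * (P / (r : ℝ) ^ 4) :=
          mul_le_mul_of_nonneg_left h7 (by positivity)
        nlinarith [mul_pos hPpos (pow_pos hr0 2)]
    _ ≤ 2 * (aa (r - 1) - aa r / 2 - 31) ^ 2 := by linarith

end Pool.Agent.Work.MP_bf01b2_co.Bd
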