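import Mathlib

/-!
# Hoeffding bound in counting form
-/

set_option autoImplicit false

namespace Pool.Agent.Work.MP_bf01b2_co.Bd

/-- Sign of a bit. -/
def sg (b : Bool) : ℝ := if b then 1 else -1

theorem sg_xor (a b : Bool) : sg (xor a b) = - (sg a * sg b) := by
  cases a <;> cases b <;> simp [sg]

section

variable {I : Type} [Fintype I] [DecidableEq I]

theorem hoeff_mgf (c : I → ℝ) (l : ℝ) :
    ∑ w : I → Bool, Real.exp (l * ∑ i, sg (w i) * c i) ≤
      2 ^ Fintype.card I * Real.exp (l ^ 2 * (∑ i, c i ^ 2) / 2) := by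
  have h1 : ∀ w : I → Bool, Real.exp (l * ∑ i, sg (w i) * c i) =
      ∏ i, Real.exp (l * (sg (w i) * c i)) := by
    intro w
    rw [Finset.mul_sum, Real.exp_sum]
  have h2 : ∑ w : I → Bool, Real.exp (l * ∑ i, sg (w i) * c i) =
      ∏ i, ∑ b : Bool, Real.exp (l * (sg b * c i)) := by
    rw [Finset.prod_univ_sum, Fintype.piFinset_univ]
    exact Finset.sum_congr rfl fun w _ => h1 w
  rw [h2]
  have h3 : ∀ i, ∑ b : Bool, Real.exp (l * (sg b * c i)) ≤ 2 * Real.exp ((l * c i) ^ 2 / 2) := by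
    intro i
    have h4 : ∑ b : Bool, Real.exp (l * (sg b * c i)) = 2 * Real.cosh (l * c i) := by
      rw [Real.cosh_eq, Fintype.sum_bool]
      simp only [sg, if_true, Bool.false_eq_true, if_false]
      have e1 : l * (1 * c i) = l * c i := by ring
      have e2 : l * (-1 * c i) = -(l * c i) := by ring
      rw [e1, e2]; ring
    rw [h4]
    have := Real.cosh_le_exp_half_sq (l * c i)
    linarith
  calc ∏ i, ∑ b : Bool, Real.exp (l * (sg b * c i))
      ≤ ∏ i, (2 * Real.exp ((l * c i) ^ 2 / 2)) := by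
        apply Finset.prod_le_prod
        · intro i _
          exact Finset.sum_nonneg fun b _ => (Real.exp_pos _).le
        · intro i _
          exact h3 i
    _ = 2 ^ Fintype.card I * Real.exp (l ^ 2 * (∑ i, c i ^ 2) / 2) := by
        rw [Finset.prod_mul_distrib, Finset.prod_const, Finset.card_univ, ← Real.exp_sum]
        congr 2
        rw [Finset.mul_sum, Finset.sum_div]
        exact Finset.sum_congr rfl fun i _ => by ring

theorem hoeff_count (c : I → ℝ) (Q t : ℝ) (hQ : 0 < Q) (ht : 0 ≤ t) (hc : ∑ i, c i ^ 2 ≤ Q)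
    (A : Finset (I → Bool)) (hA : ∀ w ∈ A, t ≤ ∑ i, sg (w i) * c i) :
    (A.card : ℝ) ≤ 2 ^ Fintype.card I * Real.exp (- (t ^ 2 / (2 * Q))) := by
  set l : ℝ := t / Q with hl
  have hl0 : 0 ≤ l := div_nonneg ht hQ.le
  have h1 : (A.card : ℝ) * Real.exp (l * t) ≤
      2 ^ Fintype.card I * Real.exp (l ^ 2 * (∑ i, c i ^ 2) / 2) := by
    refine le_trans ?_ (hoeff_mgf c l)
    calc (A.card : ℝ) * Real.exp (l * t) = ∑ _w ∈ A, Real.exp (l * t) := by
          rw [Finset.sum_const, nsmul_eq_mul]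
      _ ≤ ∑ w ∈ A, Real.exp (l * ∑ i, sg (w i) * c i) := by
          apply Finset.sum_le_sum
          intro w hw
          exact Real.exp_le_exp.mpr (mul_le_mul_of_nonneg_left (hA w hw) hl0)
      _ ≤ ∑ w : I → Bool, Real.exp (l * ∑ i, sg (w i) * c i) := by
          apply Finset.sum_le_sum_of_subset_of_nonneg (Finset.subset_univ _)
          intro w _ _
          exact (Real.exp_pos _).le
  have h2 : Real.exp (l ^ 2 * (∑ i, c i ^ 2) / 2) ≤ Real.exp (l ^ 2 * Q / 2) := by
    apply Real.exp_le_exp.mpr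
    have : l ^ 2 * (∑ i, c i ^ 2) ≤ l ^ 2 * Q := mul_le_mul_of_nonneg_left hc (sq_nonneg l)
    linarith
  have h3 : (A.card : ℝ) * Real.exp (l * t) ≤
      2 ^ Fintype.card I * Real.exp (l ^ 2 * Q / 2) :=
    h1.trans (mul_le_mul_of_nonneg_left h2 (by positivity))
  have h4 : Real.exp (- (t ^ 2 / (2 * Q))) =
      Real.exp (l ^ 2 * Q / 2) * (Real.exp (l * t))⁻¹ := by
    rw [← Real.exp_neg, ← Real.exp_add]
    congr 1
    rw [hl]
    field_simp
    ring
  rw [h4, ← mul_assoc, le_mul_inv_iff₀ (Real.exp_pos _)]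
  exact h3

end

end Pool.Agent.Work.MP_bf01b2_co.Bd
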