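import Pool.Agent.Work.MP_bf01b2_co.Bd.LLL
import Pool.Agent.Work.MP_bf01b2_co.Bd.Hoeff

/-!
# One halving step
-/

set_option autoImplicit false

namespace Pool.Agent.Work.MP_bf01b2_co.Bd

theorem sg_ind (w e β : Bool) :
    (if xor w e = β then (1 : ℝ) else 0) = 1 / 2 + 1 / 2 * (sg w * sg (xor e β)) := by
  cases w <;> cases e <;> cases β <;> norm_num [sg]

theorem sg_sq (b : Bool) : |sg b| = 1 := by
  cases b <;> simp [sg]

section

variable {V X P : Type} [DecidableEq V] [DecidableEq X] [DecidableEq P]

/-- Halving step: `Φ` has fibres of size at most `a` on `T`; every vertex `v` has a coin `p v` and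
a bit `e v`; at most `g` vertices of a fibre have the same coin, and every coin is used by at most
`d` vertices.  Then the coins can be chosen such that the new fibres have size at most `a'`. -/
theorem halve (T : Finset V) (Φ : V → X) (p : V → P) (e : V → Bool) (a a' : ℝ) (g d : ℕ)
    (hg0 : 0 < g) (hd0 : 0 < d) (ha0 : 1 ≤ a)
    (hfib : ∀ x, ((T.filter fun v => Φ v = x).card : ℝ) ≤ a)
    (hgrp : ∀ x i, (T.filter fun v => Φ v = x ∧ p v = i).card ≤ g)
    (hcoin : ∀ i, (T.filter fun v => p v = i).card ≤ d)
    (hhalf : a / 2 ≤ a')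
    (hnum : 8 * a * d * Real.exp (-(2 * (a' - a / 2) ^ 2 / (g * a))) ≤ 1) :
    ∃ w : P → Bool, ∀ x β,
      ((T.filter fun v => Φ v = x ∧ xor (w (p v)) (e v) = β).card : ℝ) ≤ a' := by
  classical
  have hga : 0 < (g : ℝ) * a := by
    have : (0 : ℝ) < g := by exact_mod_cast hg0
    positivity
  let I := {i // i ∈ T.image p}
  let J := {x // x ∈ T.image Φ} × Bool
  let ext : (I → Bool) → P → Bool := fun w i => if h : i ∈ T.image p then w ⟨i, h⟩ else false
  let F : X → Finset V := fun x => T.filter fun v => Φ v = x
  let A : J → Finset (I → Bool) := fun j => Finset.univ.filter fun w =>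
    a' < ((T.filter fun v => Φ v = j.1.1 ∧ xor (ext w (p v)) (e v) = j.2).card : ℝ)
  let S : J → Finset I := fun j => Finset.univ.filter fun i => ∃ v ∈ T, Φ v = j.1.1 ∧ p v = i.1
  have hext : ∀ (w : I → Bool) (v : V) (hv : v ∈ T),
      ext w (p v) = w ⟨p v, Finset.mem_image_of_mem p hv⟩ := by
    intro w v hv
    simp only [ext]
    rw [dif_pos (Finset.mem_image_of_mem p hv)]
  obtain ⟨w, hw⟩ := lll A S ⌊a⌋₊ (2 * d) (Nat.floor_pos.mpr ha0) (by omega) (by
    -- determined by `S`
    intro j w w' hww hw
    simp only [A, Finset.mem_filter, Finset.mem_univ, true_and] at hw ⊢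
    have : (T.filter fun v => Φ v = j.1.1 ∧ xor (ext w' (p v)) (e v) = j.2) =
        (T.filter fun v => Φ v = j.1.1 ∧ xor (ext w (p v)) (e v) = j.2) := by
      apply Finset.filter_congr
      intro v hv
      constructor
      · rintro ⟨h1, h2⟩
        refine ⟨h1, ?_⟩
        rw [hext w v hv, hww _ (Finset.mem_filter.mpr ⟨Finset.mem_univ _, v, hv, h1, rfl⟩),
          ← hext w' v hv]
        exact h2
      · rintro ⟨h1, h2⟩
        refine ⟨h1, ?_⟩
        rw [hext w' v hv, ← hww _ (Finset.mem_filter.mpr ⟨Finset.mem_univ _, v, hv, h1, rfl⟩),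
          ← hext w v hv]
        exact h2
    rw [this]; exact hw) (by
    -- size of `S`
    intro j
    apply Nat.le_floor
    refine le_trans ?_ (hfib j.1.1)
    have h1 : (S j).card ≤ (T.filter fun v => Φ v = j.1.1).card := by
      calc (S j).card = ((S j).image Subtype.val).card :=
            (Finset.card_image_of_injective _ Subtype.val_injective).symm
        _ ≤ ((T.filter fun v => Φ v = j.1.1).image p).card := by
            apply Finset.card_le_card
            intro i hi
            obtain ⟨i', hi', rfl⟩ := Finset.mem_image.mp hi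
            obtain ⟨v, hv, h2, h3⟩ := (Finset.mem_filter.mp hi').2
            exact Finset.mem_image.mpr ⟨v, Finset.mem_filter.mpr ⟨hv, h2⟩, h3⟩
        _ ≤ _ := Finset.card_image_le
    exact_mod_cast h1) (by
    -- degree
    intro i
    calc (Finset.univ.filter fun j => i ∈ S j).card
        ≤ (((T.filter fun v => p v = i.1).image Φ) ×ˢ (Finset.univ : Finset Bool)).card := by
          apply Finset.card_le_card_of_injOn (fun j : J => (j.1.1, j.2))
          · intro j hj
            obtain ⟨v, hv, h2, h3⟩ := (Finset.mem_filter.mp (Finset.mem_filter.mp hj).2).2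
            simp only [Finset.coe_product, Set.mem_prod, Finset.mem_coe, Finset.mem_univ, and_true]
            exact Finset.mem_image.mpr ⟨v, Finset.mem_filter.mpr ⟨hv, h3⟩, h2⟩
          · rintro ⟨⟨x, hx⟩, b⟩ - ⟨⟨x', hx'⟩, b'⟩ - h
            simp only [Prod.mk.injEq] at h
            obtain ⟨rfl, rfl⟩ := h
            rfl
      _ ≤ 2 * d := by
          rw [Finset.card_product, Finset.card_univ, Fintype.card_bool]
          have := (Finset.card_image_le (s := T.filter fun v => p v = i.1) (f := Φ)).trans
            (hcoin i.1)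
          omega) (by
    -- probability
    intro j
    let c : I → ℝ := fun i => ∑ v ∈ T.filter (fun v => Φ v = j.1.1 ∧ p v = i.1),
      sg (xor (e v) j.2)
    have hc1 : ∀ i : I, |c i| ≤ ((T.filter fun v => Φ v = j.1.1 ∧ p v = i.1).card : ℝ) := by
      intro i
      refine (Finset.abs_sum_le_sum_abs _ _).trans ?_
      simp only [sg_sq]
      rw [Finset.sum_const, nsmul_eq_mul, mul_one]
    have hsumcard : ∑ i : I, ((T.filter fun v => Φ v = j.1.1 ∧ p v = i.1).card : ℝ) =
        ((F j.1.1).card : ℝ) := by
      have h1 : (F j.1.1).card = ∑ i : I, (T.filter fun v => Φ v = j.1.1 ∧ p v = i.1).card := by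
        rw [Finset.card_eq_sum_card_fiberwise (t := T.image p) (f := p)]
        · rw [← Finset.sum_coe_sort]
          apply Finset.sum_congr rfl
          intro i _
          congr 1
          ext v
          simp only [F, Finset.mem_filter]
          tauto
        · intro v hv
          exact Finset.mem_image_of_mem p (Finset.mem_filter.mp hv).1
      rw [h1]; push_cast; rfl
    have hc2 : ∑ i, c i ^ 2 ≤ g * a := by
      calc ∑ i, c i ^ 2 ≤ ∑ i : I, (g : ℝ) *
            ((T.filter fun v => Φ v = j.1.1 ∧ p v = i.1).card : ℝ) := by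
            apply Finset.sum_le_sum
            intro i _
            rw [← sq_abs, sq]
            apply mul_le_mul _ (hc1 i) (abs_nonneg _) (Nat.cast_nonneg _)
            exact (hc1 i).trans (by exact_mod_cast hgrp j.1.1 i.1)
        _ = g * ((F j.1.1).card : ℝ) := by rw [← Finset.mul_sum, hsumcard]
        _ ≤ g * a := mul_le_mul_of_nonneg_left (hfib j.1.1) (Nat.cast_nonneg _)
    have hcount : ∀ w : I → Bool,
        ((T.filter fun v => Φ v = j.1.1 ∧ xor (ext w (p v)) (e v) = j.2).card : ℝ) =
          ((F j.1.1).card : ℝ) / 2 + 1 / 2 * ∑ i, sg (w i) * c i := by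
      intro w
      have h1 : ((T.filter fun v => Φ v = j.1.1 ∧ xor (ext w (p v)) (e v) = j.2).card : ℝ) =
          ∑ v ∈ F j.1.1, (if xor (ext w (p v)) (e v) = j.2 then (1 : ℝ) else 0) := by
        rw [Finset.sum_boole, Finset.filter_filter]
      rw [h1]
      simp only [sg_ind]
      rw [Finset.sum_add_distrib, Finset.sum_const, nsmul_eq_mul, ← Finset.mul_sum]
      congr 1
      · ring
      · congr 1
        rw [← Finset.sum_fiberwise_of_maps_to (s := F j.1.1) (t := T.image p) (g := p)
          (fun v hv => Finset.mem_image_of_mem p (Finset.mem_filter.mp hv).1)]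
        rw [← Finset.sum_coe_sort]
        apply Finset.sum_congr rfl
        intro i _
        simp only [c]
        rw [Finset.mul_sum]
        have h2 : (F j.1.1).filter (fun v => p v = i.1) =
            T.filter (fun v => Φ v = j.1.1 ∧ p v = i.1) := by
          simp only [F]
          rw [Finset.filter_filter]
        rw [h2]
        apply Finset.sum_congr rfl
        intro v hv
        have h3 := (Finset.mem_filter.mp hv).2.2
        have h4 : ext w (p v) = w i := by
          rw [hext w v (Finset.mem_filter.mp hv).1]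
          congr 1
          exact Subtype.ext h3
        rw [h4]
    have hA := hoeff_count c (g * a) (2 * (a' - a / 2)) hga (by linarith) hc2 (A j) (by
      intro w hw
      have h1 := (Finset.mem_filter.mp hw).2
      rw [hcount w] at h1
      have h2 := hfib j.1.1
      simp only [F] at h1
      linarith)
    have h5 : (((A j).card * (4 * (⌊a⌋₊ * (2 * d))) : ℕ) : ℝ) ≤
        ((Fintype.card (I → Bool) : ℕ) : ℝ) := by
      have hcardI : ((Fintype.card (I → Bool) : ℕ) : ℝ) = 2 ^ Fintype.card I := by
        rw [Fintype.card_fun, Fintype.card_bool]; push_cast; rfl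
      rw [hcardI]
      push_cast
      have hfl : (⌊a⌋₊ : ℝ) ≤ a := Nat.floor_le (by linarith)
      have h6 : -((2 * (a' - a / 2)) ^ 2 / (2 * (g * a))) =
          -(2 * (a' - a / 2) ^ 2 / (g * a)) := by
        field_simp
      rw [h6] at hA
      have hd : (0 : ℝ) ≤ d := Nat.cast_nonneg _
      have hA0 : (0 : ℝ) ≤ ((A j).card : ℝ) := Nat.cast_nonneg _
      calc ((A j).card : ℝ) * (4 * ((⌊a⌋₊ : ℝ) * (2 * d)))
          ≤ ((A j).card : ℝ) * (8 * a * d) := by
            apply mul_le_mul_of_nonneg_left _ hA0
            nlinarith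
        _ ≤ (2 ^ Fintype.card I * Real.exp (-(2 * (a' - a / 2) ^ 2 / (g * a)))) *
            (8 * a * d) := by
            apply mul_le_mul_of_nonneg_right hA
            positivity
        _ = 2 ^ Fintype.card I *
            (8 * a * d * Real.exp (-(2 * (a' - a / 2) ^ 2 / (g * a)))) := by ring
        _ ≤ 2 ^ Fintype.card I * 1 := by
            apply mul_le_mul_of_nonneg_left hnum
            positivity
        _ = 2 ^ Fintype.card I := by ring
    exact_mod_cast h5)
  refine ⟨ext w, fun x β => ?_⟩
  by_cases hx : x ∈ T.image Φ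
  · have := hw (⟨x, hx⟩, β)
    simp only [A, Finset.mem_filter, Finset.mem_univ, true_and, not_lt] at this
    exact this
  · have : (T.filter fun v => Φ v = x ∧ xor (ext w (p v)) (e v) = β) = ∅ := by
      apply Finset.filter_false_of_mem
      rintro v hv ⟨h1, -⟩
      exact hx (h1 ▸ Finset.mem_image_of_mem Φ hv)
    rw [this, Finset.card_empty]
    push_cast
    linarith

end

end Pool.Agent.Work.MP_bf01b2_co.Bd
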