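import Pool.Agent.Work.MP_bf01b2_co.Bd.Stmts
import Pool.Agent.Work.MP_bf01b2_co.Bd.Halve
import Pool.Agent.Work.MP_bf01b2_co.Bd.HN

/-!
# Item HA : one halving step
-/

set_option autoImplicit false

namespace Pool.Agent.Work.MP_bf01b2_co.Bd

theorem ha_last_some (p : ℕ → Prop) [DecidablePred p] : ∀ (n t : ℕ), lastLev p n = some t →
    t < n ∧ p t ∧ ∀ t', t < t' → t' < n → ¬ p t' := by
  intro n
  induction n with
  | zero => intro t h; simp [lastLev] at h
  | succ n ih =>
    intro t h
    rw [lastLev] at h
    by_cases hp : p n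
    · rw [if_pos hp] at h
      have h1 : n = t := by simpa using h
      subst h1
      exact ⟨by omega, hp, fun t' h1 h2 => by omega⟩
    · rw [if_neg hp] at h
      obtain ⟨h1, h2, h3⟩ := ih t h
      refine ⟨by omega, h2, fun t' h4 h5 => ?_⟩
      by_cases h6 : t' = n
      · rw [h6]; exact hp
      · exact h3 t' h4 (by omega)

theorem ha_last_none (p : ℕ → Prop) [DecidablePred p] : ∀ (n : ℕ), lastLev p n = none →
    ∀ t, t < n → ¬ p t := by
  intro n
  induction n with
  | zero => intro _ t h; omega
  | succ n ih =>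
    intro h t ht
    rw [lastLev] at h
    by_cases hp : p n
    · rw [if_pos hp] at h; simp at h
    · rw [if_neg hp] at h
      by_cases h6 : t = n
      · rw [h6]; exact hp
      · exact ih h t (by omega)

/-- The strings of length at most `L`. -/
def ha_strs (L : ℕ) : Finset (List Bool) :=
  (Finset.range (L + 1)).biUnion fun l => Finset.univ.image (List.ofFn : (Fin l → Bool) → List Bool)

theorem ha_mem_strs (L : ℕ) (v : List Bool) (h : v.length ≤ L) : v ∈ ha_strs L := by
  unfold ha_strs
  rw [Finset.mem_biUnion]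
  refine ⟨v.length, Finset.mem_range.mpr (by omega), Finset.mem_image.mpr ⟨v.get, Finset.mem_univ _, ?_⟩⟩
  exact List.ofFn_get v

theorem ha_card_strs (L : ℕ) : (ha_strs L).card + 1 ≤ 2 ^ (L + 1) := by
  have h1 : (ha_strs L).card ≤ ∑ l ∈ Finset.range (L + 1), 2 ^ l := by
    unfold ha_strs
    refine Finset.card_biUnion_le.trans ?_
    apply Finset.sum_le_sum
    intro l _
    refine Finset.card_image_le.trans ?_
    rw [Finset.card_univ, Fintype.card_fun, Fintype.card_bool, Fintype.card_fin]
  have h2 : ∀ n : ℕ, ∑ l ∈ Finset.range n, 2 ^ l + 1 = 2 ^ n := by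
    intro n
    induction n with
    | zero => simp
    | succ n ih => rw [Finset.sum_range_succ, pow_succ]; omega
  have := h2 (L + 1)
  omega

theorem ha_same (F : Finset (List Bool)) (hF : ∀ u ∈ F, ∀ v ∈ F, SameBlk u v) : F.card ≤ 31 := by
  have h1 : F.card ≤ (ha_strs 4).card := by
    apply Finset.card_le_card_of_injOn (fun v => v.drop (5 * (v.length / 5)))
    · intro v _
      apply ha_mem_strs
      rw [List.length_drop]
      omega
    · intro u hu v hv h
      have h2 := hF u hu v hv
      have h3 : u.drop (5 * (u.length / 5)) = v.drop (5 * (v.length / 5)) := h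
      rw [← List.take_append_drop (5 * (u.length / 5)) u, h2.2, h3,
        List.take_append_drop]
  have h2 := ha_card_strs 4
  omega

theorem ha_ext (F : Finset (List Bool)) (q : List Bool) (D : ℕ)
    (hF : ∀ v ∈ F, v.take q.length = q ∧ v.length ≤ q.length + D) : F.card ≤ 2 ^ (D + 1) := by
  have h1 : F.card ≤ (ha_strs D).card := by
    apply Finset.card_le_card_of_injOn (fun v => v.drop q.length)
    · intro v hv
      apply ha_mem_strs
      rw [List.length_drop]
      have := (hF v hv).2
      omega
    · intro u hu v hv h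
      have h3 : u.drop q.length = v.drop q.length := h
      have h4 : u = q ++ u.drop q.length := by
        conv_lhs => rw [← List.take_append_drop q.length u, (hF u hu).1]
      have h5 : v = q ++ v.drop q.length := by
        conv_lhs => rw [← List.take_append_drop q.length v, (hF v hv).1]
      rw [h4, h5, h3]
  have h2 := ha_card_strs D
  omega

theorem half : Half := by
  intro X T φ p _ D r hT hr hD hgap hnear hfib
  classical
  obtain ⟨hn1, hn2⟩ := halfNum r hr
  have hr0 : (0 : ℝ) < r := by
    have : (46 : ℝ) ≤ r := by exact_mod_cast hr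
    linarith
  have haa2 : aa r ≤ 2 ^ (r + 1) := by
    unfold aa
    rw [pow_succ]
    apply mul_le_mul_of_nonneg_left _ (by positivity)
    have : (46 : ℝ) ≤ r := by exact_mod_cast hr
    have : 4 / (r : ℝ) ≤ 1 := by rw [div_le_one hr0]; linarith
    linarith
  have haa1 : 1 ≤ aa r := by
    unfold aa
    have h1 : (1 : ℝ) ≤ 2 ^ r := one_le_pow₀ (by norm_num)
    have h2 : (0 : ℝ) ≤ 4 / (r : ℝ) := by positivity
    nlinarith
  have haa0 : 0 < aa r := by linarith
  -- lengths
  have hlen : ∀ v : List Bool, ∀ t, lastLev p v.length = some t → v.length ≤ t + D := by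
    intro v t ht
    obtain ⟨h1, h2, h3⟩ := ha_last_some p _ _ ht
    obtain ⟨t', h4, h5, h6⟩ := hgap (t + 1)
    by_contra hcon
    exact h3 t' (by omega) (by omega) h6
  have hlen0 : ∀ v : List Bool, lastLev p v.length = none → v.length ≤ 0 + D := by
    intro v ht
    obtain ⟨t', h4, h5, h6⟩ := hgap 0
    by_contra hcon
    exact ha_last_none p _ ht t' (by omega) h6
  let T' := T.filter fun v => lastLev p v.length ≠ none
  let lv : List Bool → ℕ := fun v => (lastLev p v.length).getD 0
  have hlv : ∀ v ∈ T', v ∈ T ∧ lastLev p v.length = some (lv v) ∧ lv v < v.length ∧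
      (v.take (lv v)).length = lv v ∧ v.length ≤ lv v + D := by
    intro v hv
    obtain ⟨h1, h2⟩ := Finset.mem_filter.mp hv
    obtain ⟨t, ht⟩ := Option.ne_none_iff_exists'.mp h2
    have h3 : lv v = t := by simp only [lv, ht, Option.getD_some]
    have h4 := ha_last_some p _ _ ht
    refine ⟨h1, by rw [h3]; exact ht, by rw [h3]; exact h4.1, ?_, by rw [h3]; exact hlen v t ht⟩
    rw [h3, List.length_take]
    have := h4.1
    omega
  obtain ⟨w, hw⟩ := halve T' φ (fun v => v.take (lv v)) (fun v => v.getD (lv v) false) (aa r)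
    (aa (r - 1) - 31) 31 (2 ^ (D + 1)) (by norm_num) (by positivity) haa1 (by
      intro x
      refine le_trans ?_ (hfib x)
      have h1 : (T'.filter fun v => φ v = x).card ≤ (T.filter fun v => φ v = x).card := by
        apply Finset.card_le_card
        apply Finset.filter_subset_filter
        exact Finset.filter_subset _ _
      have h2 : ((T'.filter fun v => φ v = x).card : ℝ) ≤ ((T.filter fun v => φ v = x).card : ℝ) := by
        exact_mod_cast h1
      convert h2) (by
      intro x i
      apply ha_same
      intro u hu v hv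
      obtain ⟨hu1, hu2, hu3⟩ := Finset.mem_filter.mp hu
      obtain ⟨hv1, hv2, hv3⟩ := Finset.mem_filter.mp hv
      obtain ⟨a1, a2, a3, a4, a5⟩ := hlv u hu1
      obtain ⟨b1, b2, b3, b4, b5⟩ := hlv v hv1
      have hu3' : u.take (lv u) = i := hu3
      have hv3' : v.take (lv v) = i := hv3
      have h1 : lv u = i.length := by rw [← hu3', a4]
      have h2 : lv v = i.length := by rw [← hv3', b4]
      refine hnear u a1 v b1 (hu2.trans hv2.symm) (lv u) a3.le (by omega) ?_ a5 (by omega)
      rw [hu3', h1, ← h2, hv3']) (by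
      intro i
      apply ha_ext _ i D
      intro v hv
      obtain ⟨hv1, hv3⟩ := Finset.mem_filter.mp hv
      obtain ⟨b1, b2, b3, b4, b5⟩ := hlv v hv1
      have hv3' : v.take (lv v) = i := hv3
      have h2 : lv v = i.length := by rw [← hv3', b4]
      refine ⟨by rw [← h2]; exact hv3', by omega⟩) (by linarith) (by
      -- numerical condition
      have h1 : (aa (r - 1) - 31 - aa r / 2) = aa (r - 1) - aa r / 2 - 31 := by ring
      rw [h1]
      have h2 : Real.exp (-(2 * (aa (r - 1) - aa r / 2 - 31) ^ 2 / (((31 : ℕ) : ℝ) * aa r))) ≤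
          Real.exp (-(20 * (r : ℝ) ^ 2 + r + 6)) := by
        apply Real.exp_le_exp.mpr
        apply neg_le_neg
        push_cast
        exact hn2
      have h3 : (2 : ℝ) ^ (20 * r ^ 2 + r + 5) ≤ Real.exp (20 * (r : ℝ) ^ 2 + r + 6) := by
        have h4 : (2 : ℝ) ≤ Real.exp 1 := by
          have := Real.add_one_le_exp (1 : ℝ)
          linarith
        calc (2 : ℝ) ^ (20 * r ^ 2 + r + 5) ≤ (Real.exp 1) ^ (20 * r ^ 2 + r + 5) :=
              pow_le_pow_left₀ (by norm_num) h4 _
          _ = Real.exp ((20 * r ^ 2 + r + 5 : ℕ) : ℝ) := by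
              rw [← Real.exp_nat_mul, mul_one]
          _ ≤ _ := by
              apply Real.exp_le_exp.mpr
              push_cast
              linarith
      calc 8 * aa r * ((2 ^ (D + 1) : ℕ) : ℝ) *
            Real.exp (-(2 * (aa (r - 1) - aa r / 2 - 31) ^ 2 / (((31 : ℕ) : ℝ) * aa r)))
          ≤ 8 * 2 ^ (r + 1) * 2 ^ (20 * r ^ 2 + 1) * Real.exp (-(20 * (r : ℝ) ^ 2 + r + 6)) := by
            apply mul_le_mul _ h2 (Real.exp_pos _).le (by positivity)
            push_cast
            apply mul_le_mul _ _ (by positivity) (by positivity)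
            · linarith
            · exact pow_le_pow_right₀ (by norm_num) (by omega)
        _ = 2 ^ (20 * r ^ 2 + r + 5) * (Real.exp (20 * (r : ℝ) ^ 2 + r + 6))⁻¹ := by
            rw [Real.exp_neg]
            congr 1
            have : (8 : ℝ) = 2 ^ 3 := by norm_num
            rw [this, ← pow_add, ← pow_add]
            congr 1
            omega
        _ ≤ 1 := by
            rw [mul_inv_le_iff₀ (Real.exp_pos _), one_mul]
            exact h3)
  refine ⟨w, ?_⟩
  rintro ⟨x, β⟩
  have hsub : (T.filter fun v => (φ v, bit p w v) = (x, β)) ⊆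
      (T'.filter fun v => φ v = x ∧ xor (w (v.take (lv v))) (v.getD (lv v) false) = β) ∪
        (T.filter fun v => lastLev p v.length = none ∧ φ v = x) := by
    intro v hv
    obtain ⟨h1, h2⟩ := Finset.mem_filter.mp hv
    rw [Prod.mk.injEq] at h2
    by_cases h3 : lastLev p v.length = none
    · exact Finset.mem_union_right _ (Finset.mem_filter.mpr ⟨h1, h3, h2.1⟩)
    · have h4 : v ∈ T' := Finset.mem_filter.mpr ⟨h1, h3⟩
      refine Finset.mem_union_left _ (Finset.mem_filter.mpr ⟨h4, h2.1, ?_⟩)
      rw [← h2.2]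
      unfold bit
      rw [(hlv v h4).2.1]
  have h31 : (T.filter fun v => lastLev p v.length = none ∧ φ v = x).card ≤ 31 := by
    apply ha_same
    intro u hu v hv
    obtain ⟨hu1, hu2, hu3⟩ := Finset.mem_filter.mp hu
    obtain ⟨hv1, hv2, hv3⟩ := Finset.mem_filter.mp hv
    exact hnear u hu1 v hv1 (hu3.trans hv3.symm) 0 (Nat.zero_le _) (Nat.zero_le _) (by simp)
      (hlen0 u hu2) (hlen0 v hv2)
  have h5 := (Finset.card_le_card hsub).trans (Finset.card_union_le _ _)
  have h6 := hw x β
  have h7 : ((T.filter fun v => (φ v, bit p w v) = (x, β)).card : ℝ) ≤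
      ((T'.filter fun v => φ v = x ∧ xor (w (v.take (lv v))) (v.getD (lv v) false) = β).card : ℝ)
        + 31 := by
    have h8 : (T.filter fun v => (φ v, bit p w v) = (x, β)).card ≤
      (T'.filter fun v => φ v = x ∧ xor (w (v.take (lv v))) (v.getD (lv v) false) = β).card
        + 31 := by omega
    exact_mod_cast h8
  have h9 : ((T.filter fun v => (φ v, bit p w v) = (x, β)).card : ℝ) ≤ aa (r - 1) := by
    linarith
  convert h9

end Pool.Agent.Work.MP_bf01b2_co.Bd
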