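import Pool.Agent.Work.MP_bf01b2_co.Bd.Stmts

/-!
# MP_bf01b2_co, item HO: Hoeffding's inequality for coins, counting form
-/

set_option autoImplicit false

namespace Pool.Agent.Work.MP_bf01b2_co.Bd

theorem hoeff : Hoeff := by
  intro ι _ _ w t V hV ht hw
  have hlam0 : 0 ≤ t / V := by positivity
  generalize hlam : t / V = lam at hlam0
  have h1 : ((Finset.univ.filter fun κ : ι → Bool =>
      t < ∑ i, if κ i then w i else - w i).card : ℝ) ≤
      ∑ κ : ι → Bool, Real.exp (lam * ((∑ i, if κ i then w i else - w i) - t)) := by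
    rw [Finset.card_eq_sum_ones, Nat.cast_sum]
    calc _ ≤ ∑ κ ∈ Finset.univ.filter (fun κ : ι → Bool =>
            t < ∑ i, if κ i then w i else - w i),
            Real.exp (lam * ((∑ i, if κ i then w i else - w i) - t)) := by
          apply Finset.sum_le_sum
          intro κ hκ
          rw [Finset.mem_filter] at hκ
          have h0 : 0 ≤ lam * ((∑ i, if κ i then w i else - w i) - t) :=
            mul_nonneg hlam0 (by linarith [hκ.2])
          simpa using Real.one_le_exp h0
      _ ≤ _ := Finset.sum_le_univ_sum_of_nonneg (fun κ => (Real.exp_pos _).le)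
  have h2 : ∑ κ : ι → Bool, Real.exp (lam * ((∑ i, if κ i then w i else - w i) - t)) =
      Real.exp (-(lam * t)) * ∏ i, (Real.exp (lam * w i) + Real.exp (-(lam * w i))) := by
    have h3 : ∏ i, (Real.exp (lam * w i) + Real.exp (-(lam * w i))) =
        ∑ κ : ι → Bool, ∏ i, Real.exp (lam * (if κ i then w i else - w i)) := by
      have h4 := Finset.prod_univ_sum (fun _ : ι => (Finset.univ : Finset Bool))
        (fun i b => Real.exp (lam * (if b then w i else - w i)))
      rw [Fintype.piFinset_univ] at h4
      rw [← h4]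
      apply Finset.prod_congr rfl
      intro i _
      rw [Fintype.sum_bool]
      simp
    rw [h3, Finset.mul_sum]
    apply Finset.sum_congr rfl
    intro κ _
    rw [← Real.exp_sum, ← Real.exp_add, ← Finset.mul_sum]
    congr 1
    ring
  have h5 : ∏ i, (Real.exp (lam * w i) + Real.exp (-(lam * w i))) ≤
      ∏ i : ι, (2 * Real.exp (lam ^ 2 * w i ^ 2 / 2)) := by
    apply Finset.prod_le_prod
    · intro i _; positivity
    · intro i _
      have h6 := Real.cosh_le_exp_half_sq (lam * w i)
      rw [Real.cosh_eq] at h6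
      have h7 : (lam * w i) ^ 2 / 2 = lam ^ 2 * w i ^ 2 / 2 := by ring
      rw [h7] at h6
      linarith
  have h8 : ∏ i : ι, (2 * Real.exp (lam ^ 2 * w i ^ 2 / 2)) ≤
      2 ^ Fintype.card ι * Real.exp (lam ^ 2 * V / 2) := by
    rw [Finset.prod_mul_distrib, Finset.prod_const, Finset.card_univ, ← Real.exp_sum]
    apply mul_le_mul_of_nonneg_left _ (by positivity)
    apply Real.exp_le_exp.2
    rw [← Finset.sum_div, ← Finset.mul_sum]
    have : lam ^ 2 * ∑ i, w i ^ 2 ≤ lam ^ 2 * V := mul_le_mul_of_nonneg_left hw (by positivity)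
    linarith
  calc _ ≤ _ := h1
    _ = _ := h2
    _ ≤ Real.exp (-(lam * t)) * (2 ^ Fintype.card ι * Real.exp (lam ^ 2 * V / 2)) :=
        mul_le_mul_of_nonneg_left (h5.trans h8) (Real.exp_pos _).le
    _ = Real.exp (-(lam * t)) * Real.exp (lam ^ 2 * V / 2) * 2 ^ Fintype.card ι := by ring
    _ = _ := by
        rw [← Real.exp_add]
        congr 2
        rw [← hlam]
        field_simp
        ring

end Pool.Agent.Work.MP_bf01b2_co.Bd
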