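import Pool.Agent.Work.MP_bf01b2_co.Bd.Stmts

/-!
# Item IT : all halving steps
-/

set_option autoImplicit false

namespace Pool.Agent.Work.MP_bf01b2_co.Bd

/-- The map with the coordinates `c0 < c ≤ I`. -/
def it_Psi {s : ℕ} (B c0 I : ℕ) (ω : List Bool → Opt s) (κ : ℕ → List Bool → Bool)
    (v : List Bool) : (ℕ × ℕ → ZMod 2) × (ℕ → Bool) :=
  (P B ω v, fun c => if c0 < c ∧ c ≤ I then bit (fun t => col t = c) (κ c) v else false)

theorem it_fib_mono {X Y : Type} (T : Finset (List Bool)) (φ : List Bool → X) (ψ : List Bool → Y)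
    (a b : ℝ) (hab : a ≤ b) (h : ∀ y : Y, ∃ x : X, ∀ v, ψ v = y → φ v = x) (hf : FibLe T φ a) :
    FibLe T ψ b := by
  classical
  intro y
  obtain ⟨x, hx⟩ := h y
  refine le_trans ?_ ((hf x).trans hab)
  apply Nat.cast_le.mpr
  apply Finset.card_le_card
  intro v hv
  rw [Finset.mem_filter] at hv ⊢
  exact ⟨hv.1, hx v hv.2⟩

theorem it_ind (h1 : Half) (h2 : RulThm) (s B r1 : ℕ) (T : Finset (List Bool))
    (ω : List Bool → Opt s) (hT : PrefClosed T) (hr1 : 45 ≤ r1)
    (hnear : NearD T (P B ω) (20 * (r1 - 45) ^ 2)) (hfib : FibLe T (P B ω) (2 ^ r1)) :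
    ∀ d : ℕ, d ≤ r1 - 45 → ∃ κ : ℕ → List Bool → Bool,
      FibLe T (it_Psi B (r1 - 45 - d) (r1 - 45) ω κ) (aa (45 + (r1 - 45 - d))) := by
  intro d
  induction d with
  | zero =>
    intro _
    refine ⟨fun _ _ => false, ?_⟩
    refine it_fib_mono T (P B ω) _ (2 ^ r1) _ ?_ ?_ hfib
    · have : 45 + (r1 - 45 - 0) = r1 := by omega
      rw [this]
      unfold aa
      have h3 : (0 : ℝ) ≤ 4 / (r1 : ℝ) := by positivity
      have h4 : (0 : ℝ) < 2 ^ r1 := by positivity
      nlinarith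
    · rintro ⟨x, g⟩
      exact ⟨x, fun v hv => (Prod.mk.inj hv).1⟩
  | succ d ih =>
    intro hd
    obtain ⟨κ, hκ⟩ := ih (by omega)
    set I := r1 - 45 with hI
    set c := I - d with hc
    have hc1 : 1 ≤ c := by omega
    have hcI : c ≤ I := by omega
    have hcd : I - (d + 1) = c - 1 := by omega
    obtain ⟨κ', hκ'⟩ := h1 _ T (it_Psi B c I ω κ) (fun t => col t = c) (20 * c ^ 2) (45 + c) hT
      (by omega) (by
        have : c ^ 2 ≤ (45 + c) ^ 2 := Nat.pow_le_pow_left (by omega) 2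
        omega) (h2 c hc1) (by
        intro u hu v hv huv t ht1 ht2 ht3 ht4 ht5
        have hc2 : c ^ 2 ≤ I ^ 2 := Nat.pow_le_pow_left hcI 2
        exact hnear u hu v hv (Prod.mk.inj huv).1 t ht1 ht2 ht3 (by omega) (by omega)) hκ
    refine ⟨Function.update κ c κ', ?_⟩
    rw [hcd]
    refine it_fib_mono T _ _ _ _ ?_ ?_ hκ'
    · have : 45 + c - 1 = 45 + (c - 1) := by omega
      rw [this]
    · rintro ⟨x, g⟩
      refine ⟨((x, fun c' => if c < c' ∧ c' ≤ I then g c' else false), g c), ?_⟩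
      intro v hv
      obtain ⟨h3, h4⟩ := Prod.mk.inj hv
      refine Prod.ext (Prod.ext h3 ?_) ?_
      · funext c'
        have h5 : (if c - 1 < c' ∧ c' ≤ I then
            bit (fun t => col t = c') (Function.update κ c κ' c') v else false) = g c' :=
          congrFun h4 c'
        simp only [it_Psi]
        by_cases h6 : c < c' ∧ c' ≤ I
        · rw [if_pos h6, if_pos h6, ← h5]
          rw [if_pos ⟨by omega, h6.2⟩, Function.update_of_ne (by omega)]
        · rw [if_neg h6, if_neg h6]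
      · have h5 : (if c - 1 < c ∧ c ≤ I then
            bit (fun t => col t = c) (Function.update κ c κ' c) v else false) = g c :=
          congrFun h4 c
        rw [if_pos ⟨by omega, hcI⟩, Function.update_self] at h5
        exact h5

theorem iter (h1 : Half) (h2 : RulThm) : Iter := by
  intro s B r1 T ω hT hr1 hnear hfib
  obtain ⟨κ, hκ⟩ := it_ind h1 h2 s B r1 T ω hT hr1 hnear hfib (r1 - 45) le_rfl
  refine ⟨κ, ?_⟩
  rw [Nat.sub_self] at hκ
  refine it_fib_mono T _ _ _ _ ?_ ?_ hκ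
  · unfold aa
    norm_num
  · intro y
    refine ⟨y, fun v hv => ?_⟩
    rw [← hv]
    unfold it_Psi Ph
    congr 1

end Pool.Agent.Work.MP_bf01b2_co.Bd
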