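import Pool.Agent.Work.MP_bf01b2_co.Bd.Stmts

/-!
# MP_bf01b2_co, item LB: labels of the block maps
-/

set_option autoImplicit false

namespace Pool.Agent.Work.MP_bf01b2_co.Bd

theorem lb_toNat_le (b : Bool) : b.toNat ≤ 1 := by cases b <;> simp

theorem lb_cod_lt (x : ℕ → Bool) (a p : ℕ) : cod x a p < 2 ^ (p + 1) := by
  induction p with
  | zero =>
    have := lb_toNat_le (x a)
    simp only [cod]; omega
  | succ p ih =>
    have := lb_toNat_le (x (a + p + 1))
    have h2 : 2 ^ (p + 1 + 1) = 2 * 2 ^ (p + 1) := by ring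
    simp only [cod]; omega

theorem lb_cod_congr (x y : ℕ → Bool) (a p : ℕ) (h : ∀ k ≤ p, x (a + k) = y (a + k)) :
    cod x a p = cod y a p := by
  induction p with
  | zero => simp only [cod]; rw [show x a = y a from h 0 le_rfl]
  | succ p ih =>
    simp only [cod]
    rw [ih (fun k hk => h k (by omega)), show x (a + p + 1) = y (a + p + 1) from h (p + 1) le_rfl]

theorem lb_cod_bits (x y : ℕ → Bool) (a p : ℕ) (h : cod x a p = cod y a p) :
    ∀ k ≤ p, x (a + k) = y (a + k) := by
  induction p with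
  | zero =>
    intro k hk
    have hk0 : k = 0 := by omega
    subst hk0
    simp only [cod] at h
    revert h
    simp only [Nat.add_zero]
    cases x a <;> cases y a <;> simp
  | succ p ih =>
    intro k hk
    simp only [cod] at h
    have h1 := lb_toNat_le (x (a + p + 1))
    have h2 := lb_toNat_le (y (a + p + 1))
    by_cases hkp : k ≤ p
    · exact ih (by omega) k hkp
    · have : k = p + 1 := by omega
      subst this
      have h3 : (x (a + p + 1)).toNat = (y (a + p + 1)).toNat := by omega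
      revert h3
      rw [← add_assoc]
      cases x (a + p + 1) <;> cases y (a + p + 1) <;> simp

theorem lb_cod_half (x : ℕ → Bool) (a p : ℕ) : cod x a p = cod x a (p + 1) / 2 := by
  have h1 := lb_toNat_le (x (a + p + 1))
  simp only [cod]
  omega

theorem lb_cod_div (x : ℕ → Bool) (a p k : ℕ) : cod x a p = cod x a (p + k) / 2 ^ k := by
  induction k with
  | zero => simp
  | succ k ih =>
    rw [ih, lb_cod_half x a (p + k), Nat.div_div_eq_div_mul, ← add_assoc, pow_succ, mul_comm]

theorem lb_cod4 (x : ℕ → Bool) (a p : ℕ) (hp : p ≤ 4) : cod x a p = cod x a 4 / 2 ^ (4 - p) := by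
  have := lb_cod_div x a p (4 - p)
  rwa [show p + (4 - p) = 4 by omega] at this

theorem lb_tab_lt : ∀ ty : Bool, ∀ p < 5, ∀ c < 2 ^ (p + 1), tlab ty p c < 7 := by
  decide +kernel

theorem lb_tab_inj' : ∀ ty : Bool, ∀ c < 32, ∀ p < 5, ∀ q < 5,
    (p < q ∧ tfl ty p = true ∧ tfl ty q = true ∧
      tlab ty p (c / 2 ^ (4 - p)) = tlab ty q (c / 2 ^ (4 - q))) → False := by
  decide +kernel

theorem lb_tab_inj : ∀ ty : Bool, ∀ c < 32, ∀ p < 5, ∀ q < 5, p < q → tfl ty p = true →
    tfl ty q = true → tlab ty p (c / 2 ^ (4 - p)) ≠ tlab ty q (c / 2 ^ (4 - q)) :=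
  fun ty c hc p hp q hq h1 h2 h3 h4 => lb_tab_inj' ty c hc p hp q hq ⟨h1, h2, h3, h4⟩

/-- The meaning of `lb a x i = some c`. -/
theorem lb_iff (a : ℕ) (x : ℕ → Bool) (i c : ℕ) : lb a x i = some c ↔
    tfl (decide (i / 5 < a)) (i % 5) = true ∧
    c = 7 * (i / 5) + tlab (decide (i / 5 < a)) (i % 5)
      (cod x (5 * (i / 5)) 4 / 2 ^ (4 - i % 5)) := by
  unfold lb
  rw [lb_cod4 x (5 * (i / 5)) (i % 5) (by omega)]
  split_ifs with h
  · simp only [Option.some.injEq, h, true_and]
    exact eq_comm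
  · simp [h]

theorem lb_none_iff (a : ℕ) (x : ℕ → Bool) (i : ℕ) : lb a x i ≠ none ↔
    tfl (decide (i / 5 < a)) (i % 5) = true := by
  unfold lb
  split_ifs with h <;> simp [h]

theorem lb_code_lt (x : ℕ → Bool) (g i : ℕ) (hi : i < 5) :
    cod x (5 * g) 4 / 2 ^ (4 - i) < 2 ^ (i + 1) := by
  rw [← lb_cod4 x (5 * g) i (by omega)]
  exact lb_cod_lt _ _ _

theorem lb_range (a : ℕ) (x : ℕ → Bool) (i c : ℕ) (h : lb a x i = some c) :
    7 * (i / 5) ≤ c ∧ c < 7 * (i / 5) + 7 := by
  rw [lb_iff] at h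
  have h1 := lb_tab_lt (decide (i / 5 < a)) (i % 5) (by omega)
    (cod x (5 * (i / 5)) 4 / 2 ^ (4 - i % 5)) (lb_code_lt x (i / 5) (i % 5) (by omega))
  omega

theorem lbInj : LbInj := by
  have key : ∀ (a : ℕ) (x : ℕ → Bool) (i j c : ℕ),
      lb a x i = some c → lb a x j = some c → i < j → False := by
    intro a x i j c hi hj hij
    have h1 := lb_range a x i c hi
    have h2 := lb_range a x j c hj
    have hg : i / 5 = j / 5 := by omega
    rw [lb_iff] at hi hj
    rw [← hg] at hj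
    have hc : cod x (5 * (i / 5)) 4 < 32 := lb_cod_lt x (5 * (i / 5)) 4
    refine lb_tab_inj (decide (i / 5 < a)) _ hc (i % 5) (by omega) (j % 5) (by omega)
      (by omega) hi.1 hj.1 ?_
    have h3 := hi.2
    have h4 := hj.2
    omega
  intro a x i j c hi hj
  rcases Nat.lt_trichotomy i j with h | h | h
  · exact (key a x i j c hi hj h).elim
  · exact h
  · exact (key a x j i c hj hi h).elim

theorem lb_count (a : ℕ) (x : ℕ → Bool) (s : ℕ) :
    ((Finset.range (5 * s)).filter fun i => lb a x i ≠ none).card = 3 * s + min a s := by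
  induction s with
  | zero => simp
  | succ s ih =>
    rw [Finset.card_filter] at ih ⊢
    rw [show 5 * (s + 1) = 5 * s + 1 + 1 + 1 + 1 + 1 by ring]
    rw [Finset.sum_range_succ, Finset.sum_range_succ, Finset.sum_range_succ,
      Finset.sum_range_succ, Finset.sum_range_succ, ih]
    simp only [lb_none_iff]
    have e0 : (5 * s) / 5 = s ∧ (5 * s) % 5 = 0 := by omega
    have e1 : (5 * s + 1) / 5 = s ∧ (5 * s + 1) % 5 = 1 := by omega
    have e2 : (5 * s + 1 + 1) / 5 = s ∧ (5 * s + 1 + 1) % 5 = 2 := by omega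
    have e3 : (5 * s + 1 + 1 + 1) / 5 = s ∧ (5 * s + 1 + 1 + 1) % 5 = 3 := by omega
    have e4 : (5 * s + 1 + 1 + 1 + 1) / 5 = s ∧ (5 * s + 1 + 1 + 1 + 1) % 5 = 4 := by omega
    rw [e0.1, e0.2, e1.1, e1.2, e2.1, e2.2, e3.1, e3.2, e4.1, e4.2]
    by_cases hs : s < a
    · simp [tfl, hs]
      omega
    · simp [tfl, hs]
      omega

theorem lbBasic : LbBasic := by
  refine ⟨lb_range, ?_, ?_⟩
  · intro a x y i h
    unfold lb
    rw [lb_cod_congr x y (5 * (i / 5)) (i % 5) (fun k hk => h _ (by omega))]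
  · intro a s x ha
    have h := lb_count a x s
    rw [Nat.min_eq_left ha] at h
    convert h

/-! ### Masks -/

/-- Bitmask of the labels used in the first `p` levels of a block. -/
def lbMsk (ty : Bool) (c : ℕ) : ℕ → ℕ
  | 0 => 0
  | (p + 1) => if tfl ty p = true then
      lbMsk ty c p ||| 2 ^ tlab ty p (c / 2 ^ (4 - p)) else lbMsk ty c p

theorem lb_msk_testBit (ty : Bool) (c p k : ℕ) : (lbMsk ty c p).testBit k = true ↔
    ∃ i < p, tfl ty i = true ∧ tlab ty i (c / 2 ^ (4 - i)) = k := by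
  induction p with
  | zero => simp [lbMsk]
  | succ p ih =>
    unfold lbMsk
    split_ifs with h
    · rw [Nat.testBit_or, Bool.or_eq_true, ih, Nat.testBit_two_pow, decide_eq_true_eq]
      constructor
      · rintro (⟨i, hi, h1⟩ | h1)
        · exact ⟨i, by omega, h1⟩
        · exact ⟨p, by omega, h, h1⟩
      · rintro ⟨i, hi, h1, h2⟩
        by_cases hip : i = p
        · subst hip; exact Or.inr h2
        · exact Or.inl ⟨i, by omega, h1, h2⟩
    · rw [ih]
      constructor
      · rintro ⟨i, hi, h1⟩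
        exact ⟨i, by omega, h1⟩
      · rintro ⟨i, hi, h1, h2⟩
        by_cases hip : i = p
        · subst hip; exact absurd h1 h
        · exact ⟨i, by omega, h1, h2⟩

theorem lb_block_iff (a : ℕ) (x : ℕ → Bool) (l g k : ℕ) (hk : k < 7) :
    (∃ i < l, lb a x i = some (7 * g + k)) ↔
      ∃ i < min 5 (l - 5 * g), tfl (decide (g < a)) i = true ∧
        tlab (decide (g < a)) i (cod x (5 * g) 4 / 2 ^ (4 - i)) = k := by
  constructor
  · rintro ⟨i, hi, h⟩
    have h1 := lb_range a x i _ h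
    have hg : i / 5 = g := by omega
    rw [lb_iff, hg] at h
    refine ⟨i % 5, ?_, h.1, ?_⟩
    · omega
    · have := h.2; omega
  · rintro ⟨i, hi, h1, h2⟩
    have hi5 : i < 5 := by omega
    refine ⟨5 * g + i, by omega, ?_⟩
    rw [lb_iff]
    have e1 : (5 * g + i) / 5 = g := by omega
    have e2 : (5 * g + i) % 5 = i := by omega
    rw [e1, e2]
    exact ⟨h1, by rw [h2]⟩

theorem lb_msk_eq (a : ℕ) (x y : ℕ → Bool) (l m : ℕ) (h : SetEq a x l y m) (g : ℕ) :
    lbMsk (decide (g < a)) (cod x (5 * g) 4) (min 5 (l - 5 * g)) =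
      lbMsk (decide (g < a)) (cod y (5 * g) 4) (min 5 (m - 5 * g)) := by
  apply Nat.eq_of_testBit_eq
  intro k
  rw [Bool.eq_iff_iff, lb_msk_testBit, lb_msk_testBit]
  by_cases hk : k < 7
  · rw [← lb_block_iff a x l g k hk, ← lb_block_iff a y m g k hk]
    exact h (7 * g + k)
  · constructor
    · rintro ⟨i, hi, _, h2⟩
      have hi5 : i < 5 := by omega
      have := lb_tab_lt (decide (g < a)) i hi5 _ (lb_code_lt x g i hi5)
      omega
    · rintro ⟨i, hi, _, h2⟩
      have hi5 : i < 5 := by omega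
      have := lb_tab_lt (decide (g < a)) i hi5 _ (lb_code_lt y g i hi5)
      omega

end Pool.Agent.Work.MP_bf01b2_co.Bd
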