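import Pool.Agent.Work.MP_bf01b2_co.Bd.Stmts

/-!
# MP_bf01b2_co, `n + O(1)` : the load theorem
-/

set_option autoImplicit false

namespace Pool.Agent.Work.MP_bf01b2_co.Bd

open Classical

/-- Words of length at most four. -/
def ld_W : Finset (List Bool) :=
  (Finset.range 5).biUnion fun k => (Finset.univ : Finset (Fin k → Bool)).image List.ofFn

theorem ld_W_mem (w : List Bool) (h : w.length ≤ 4) : w ∈ ld_W := by
  unfold ld_W
  rw [Finset.mem_biUnion]
  refine ⟨w.length, by simp; omega, ?_⟩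
  rw [Finset.mem_image]
  exact ⟨fun i => w.get i, Finset.mem_univ _, List.ofFn_get w⟩

theorem ld_W_len (w : List Bool) (h : w ∈ ld_W) : w.length ≤ 4 := by
  unfold ld_W at h
  rw [Finset.mem_biUnion] at h
  obtain ⟨k, hk, hw⟩ := h
  rw [Finset.mem_image] at hw
  obtain ⟨f, _, rfl⟩ := hw
  rw [List.length_ofFn]
  simp at hk
  omega

theorem ld_W_card : ld_W.card ≤ 31 := by
  unfold ld_W
  refine Finset.card_biUnion_le.trans ?_
  have h1 : ∀ k ∈ Finset.range 5,
      ((Finset.univ : Finset (Fin k → Bool)).image List.ofFn).card ≤ 2 ^ k := by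
    intro k _
    refine Finset.card_image_le.trans ?_
    simp
  refine (Finset.sum_le_sum h1).trans ?_
  decide

theorem ld_opt (s : ℕ) : Nonempty (Opt s) := by
  obtain ⟨A, _, hA⟩ := Finset.exists_subset_card_eq (s := (Finset.univ : Finset (Fin (7 * s))))
    (n := 3 * s) (by simp; omega)
  exact ⟨(⟨A, by omega⟩, 1)⟩

theorem ld_z {s B : ℕ} (hs : 0 < s) {T : Finset (List Bool)} {w z β : List Bool}
    (hz : z.length % (5 * s) = 0) (hβ : β ∈ Nz s B T w z) :
    z = β.take ((β.length / (5 * s) - B) * (5 * s)) := by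
  unfold Nz at hβ
  rw [Finset.mem_filter] at hβ
  obtain ⟨_, _, h2, h3, _⟩ := hβ
  have h4 : (β.length / (5 * s) - B) * (5 * s) = z.length := by
    rw [h2, Nat.add_sub_cancel]
    exact Nat.div_mul_cancel (Nat.dvd_of_mod_eq_zero hz)
  rw [h4, h3]

theorem ld_sumN {s B : ℕ} (hs : 0 < s) (T : Finset (List Bool)) (w : List Bool) :
    ∑ ρ ∈ Finset.range (B + 1),
      ∑ z ∈ T.filter (fun z => z.length % (5 * s) = 0 ∧ z.length / (5 * s) % (B + 1) = ρ),
        (Nz s B T w z).card ≤ T.card := by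
  have h1 : ∀ ρ, ∑ z ∈ T.filter (fun z => z.length % (5 * s) = 0 ∧
      z.length / (5 * s) % (B + 1) = ρ), (Nz s B T w z).card =
      ((T.filter (fun z => z.length % (5 * s) = 0 ∧
        z.length / (5 * s) % (B + 1) = ρ)).sigma fun z => Nz s B T w z).card := by
    intro ρ
    rw [Finset.card_sigma]
  simp_rw [h1]
  rw [← Finset.card_sigma]
  refine Finset.card_le_card_of_injOn (fun p => p.2.2) ?_ ?_
  · intro p hp
    simp only [Finset.coe_sigma, Set.mem_sigma_iff, Finset.mem_coe] at hp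
    have h3 := hp.2.2
    unfold Nz at h3
    exact (Finset.mem_filter.mp h3).1
  · rintro ⟨ρ, z, β⟩ hp ⟨ρ', z', β'⟩ hp' h
    simp only [Finset.coe_sigma, Set.mem_sigma_iff, Finset.mem_coe, Finset.mem_sigma,
      Finset.mem_filter] at hp hp'
    simp only at h
    subst h
    have e1 := ld_z hs hp.2.1.2.1 hp.2.2
    have e2 := ld_z hs hp'.2.1.2.1 hp'.2.2
    have e3 : z = z' := e1.trans e2.symm
    subst e3
    have e4 : ρ = ρ' := hp.2.1.2.2.symm.trans hp'.2.1.2.2
    subst e4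
    rfl

theorem ld_deep {s B : ℕ} (hs : 0 < s) {T : Finset (List Bool)} (hT : PrefClosed T)
    (o0 : Opt s) (η : {y // y ∈ T} → Opt s) (x : ℕ × ℕ → ZMod 2) :
    (T.filter fun v => P B (ex T o0 η) v = x ∧ B * (5 * s) ≤ v.length).card ≤
      ∑ w ∈ ld_W, ∑ ρ ∈ Finset.range (B + 1),
        ∑ z ∈ T.filter (fun z => z.length % (5 * s) = 0 ∧ z.length / (5 * s) % (B + 1) = ρ),
          Xz B T o0 x w z η := by
  have h1 : (T.filter fun v => P B (ex T o0 η) v = x ∧ B * (5 * s) ≤ v.length) ⊆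
      ld_W.biUnion fun w => (Finset.range (B + 1)).biUnion fun ρ =>
        (T.filter (fun z => z.length % (5 * s) = 0 ∧
          z.length / (5 * s) % (B + 1) = ρ)).biUnion fun z =>
          ((Nz s B T w z).filter fun β => P B (ex T o0 η) (β ++ w) = x).image
            fun β => β ++ w := by
    intro v hv
    rw [Finset.mem_filter] at hv
    obtain ⟨hvT, hvx, hvl⟩ := hv
    set w := v.drop (5 * (v.length / 5)) with hw
    set β := v.take (5 * (v.length / 5)) with hβ
    have hβw : β ++ w = v := List.take_append_drop _ _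
    have hβl : β.length = 5 * (v.length / 5) := by
      rw [hβ, List.length_take]
      omega
    have hwl : w.length ≤ 4 := by
      rw [hw, List.length_drop]
      omega
    have hdiv : β.length / (5 * s) = v.length / (5 * s) := by
      rw [hβl, Nat.mul_div_mul_left _ _ (by norm_num), Nat.div_div_eq_div_mul]
    have hB : B ≤ v.length / (5 * s) := by
      rw [Nat.le_div_iff_mul_le (by omega)]
      exact hvl
    set k := v.length / (5 * s) - B with hk
    have hkle : k * (5 * s) ≤ β.length := by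
      have h2 : k * (5 * s) ≤ (β.length / (5 * s)) * (5 * s) :=
        Nat.mul_le_mul_right _ (by rw [hdiv]; omega)
      exact h2.trans (Nat.div_mul_le_self _ _)
    set z := v.take (k * (5 * s)) with hz
    have hzl : z.length = k * (5 * s) := by
      rw [hz, List.length_take]
      have : β.length ≤ v.length := by rw [hβl]; omega
      omega
    have hzβ : β.take z.length = z := by
      rw [hzl, hβ, List.take_take, hz]
      congr 1
      rw [← hβl]
      omega
    have hzdiv : z.length / (5 * s) = k := by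
      rw [hzl, Nat.mul_div_cancel _ (by omega)]
    rw [Finset.mem_biUnion]
    refine ⟨w, ld_W_mem w hwl, ?_⟩
    rw [Finset.mem_biUnion]
    refine ⟨z.length / (5 * s) % (B + 1), Finset.mem_range.mpr (Nat.mod_lt _ (by omega)), ?_⟩
    rw [Finset.mem_biUnion]
    refine ⟨z, ?_, ?_⟩
    · rw [Finset.mem_filter]
      refine ⟨hT v hvT _, ?_, rfl⟩
      rw [hzl]
      exact Nat.mul_mod_left _ _
    · rw [Finset.mem_image]
      refine ⟨β, ?_, hβw⟩
      rw [Finset.mem_filter]
      refine ⟨?_, by rw [hβw]; exact hvx⟩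
      unfold Nz
      rw [Finset.mem_filter]
      refine ⟨hT v hvT _, ?_, ?_, hzβ, by rw [hβw]; exact hvT⟩
      · rw [hβl]
        exact Nat.mul_mod_right _ _
      · rw [hzdiv, hdiv]
        omega
  refine (Finset.card_le_card h1).trans ?_
  refine Finset.card_biUnion_le.trans (Finset.sum_le_sum fun w _ => ?_)
  refine Finset.card_biUnion_le.trans (Finset.sum_le_sum fun ρ _ => ?_)
  refine Finset.card_biUnion_le.trans (Finset.sum_le_sum fun z _ => ?_)
  exact Finset.card_image_le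

theorem ld_shallow (h2 : Near) {s B : ℕ} (hs : 0 < s) (hB : 0 < B) (T : Finset (List Bool))
    (ω : List Bool → Opt s) (x : ℕ × ℕ → ZMod 2) :
    (T.filter fun v => P B ω v = x ∧ v.length < B * (5 * s)).card ≤ 31 := by
  refine le_trans ?_ ld_W_card
  refine Finset.card_le_card_of_injOn (fun v => v.drop (5 * (v.length / 5))) ?_ ?_
  · intro v _
    refine ld_W_mem _ ?_
    rw [List.length_drop]
    omega
  · intro u hu v hv h
    simp only [Finset.coe_filter, Set.mem_setOf_eq] at hu hv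
    simp only at h
    have h3 := h2 s B hs hB ω u v 0 (hu.2.1.trans hv.2.1.symm) (by omega) (by omega) (by simp)
      (by rw [Nat.zero_add]; exact hu.2.2) (by rw [Nat.zero_add]; exact hv.2.2)
    obtain ⟨_, h4⟩ := h3
    calc u = u.take (5 * (u.length / 5)) ++ u.drop (5 * (u.length / 5)) :=
          (List.take_append_drop _ _).symm
      _ = v.take (5 * (v.length / 5)) ++ v.drop (5 * (v.length / 5)) := by rw [h4, h]
      _ = v := List.take_append_drop _ _

theorem ld_arith (S θ c : ℝ) (n M q : ℕ) (hS : S ≤ 2 ^ n) (hθ : θ ≤ 2 / 2 ^ q) (h9 : 0 ≤ θ)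
    (hn : (2 : ℝ) ^ n = 2 ^ q * 2 ^ M) (h8 : c ≤ 2 ^ M) : 4 * S * θ + c ≤ 9 * 2 ^ M := by
  have h1 : 4 * S * θ ≤ 4 * 2 ^ n * (2 / 2 ^ q) := by
    have h2 : 4 * S * θ ≤ 4 * 2 ^ n * θ :=
      mul_le_mul_of_nonneg_right (by linarith) h9
    have h3 : 4 * 2 ^ n * θ ≤ 4 * 2 ^ n * (2 / 2 ^ q) :=
      mul_le_mul_of_nonneg_left hθ (by positivity)
    exact h2.trans h3
  have h4 : 4 * (2 : ℝ) ^ n * (2 / 2 ^ q) = 8 * 2 ^ M := by
    rw [hn]
    field_simp
    ring
  linarith

theorem loadThm (h1 : SumSmall) (h2 : Near) : LoadThm := by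
  intro s B n T hs hB hT hTn hsn hZ1 hZ2 hZ3
  obtain ⟨o0⟩ := ld_opt s
  obtain ⟨η, hη⟩ := h1 s B n T o0 hs hB hT hTn hsn hZ1
  refine ⟨ex T o0 η, fun x => ?_⟩
  have hsplit : (T.filter fun v => P B (ex T o0 η) v = x).card ≤
      (T.filter fun v => P B (ex T o0 η) v = x ∧ v.length < B * (5 * s)).card +
      (T.filter fun v => P B (ex T o0 η) v = x ∧ B * (5 * s) ≤ v.length).card := by
    refine (Finset.card_le_card ?_).trans (Finset.card_union_le _ _)
    intro v hv
    rw [Finset.mem_filter] at hv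
    rw [Finset.mem_union, Finset.mem_filter, Finset.mem_filter]
    rcases Nat.lt_or_ge v.length (B * (5 * s)) with h | h
    · exact Or.inl ⟨hv.1, hv.2, h⟩
    · exact Or.inr ⟨hv.1, hv.2, h⟩
  have hsh := ld_shallow h2 hs (by omega : 0 < B) T (ex T o0 η) x
  have hdp := ld_deep hs hT o0 η x (B := B)
  obtain ⟨M, hM⟩ : ∃ M, M = n - 7 * s * B := ⟨_, rfl⟩
  rw [← hM] at hZ3 ⊢
  have hZpos : 0 < (Z s : ℝ) ^ B := by
    have h5 : 0 < 2 * Z s ^ B := lt_of_lt_of_le (by positivity) hZ2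
    have h6 : 0 < Z s ^ B := by omega
    exact_mod_cast h6
  have hθ : (1 / (Z s : ℝ)) ^ B ≤ 2 / 2 ^ (7 * s * B) := by
    rw [one_div, inv_pow, inv_eq_one_div, div_le_div_iff₀ hZpos (by positivity)]
    have h5 : ((2 ^ (7 * s * B) : ℕ) : ℝ) ≤ ((2 * Z s ^ B : ℕ) : ℝ) := by exact_mod_cast hZ2
    push_cast at h5
    linarith
  have h2n : (2 : ℝ) ^ n = 2 ^ (7 * s * B) * 2 ^ M := by
    rw [← pow_add]
    congr 1
    omega
  have h8 : ((B + 1 : ℕ) : ℝ) * (2 * (n : ℝ) + 10) ≤ 2 ^ M := by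
    exact_mod_cast hZ3
  have h9 : (0 : ℝ) ≤ (1 / (Z s : ℝ)) ^ B :=
    pow_nonneg (div_nonneg zero_le_one (Nat.cast_nonneg _)) _
  have hw : ∀ w ∈ ld_W, ((∑ ρ ∈ Finset.range (B + 1),
        ∑ z ∈ T.filter (fun z => z.length % (5 * s) = 0 ∧ z.length / (5 * s) % (B + 1) = ρ),
          Xz B T o0 x w z η : ℕ) : ℝ) ≤ 9 * 2 ^ M := by
    intro w hw
    have hwl := ld_W_len w hw
    rw [Nat.cast_sum]
    have h5 : ∀ ρ ∈ Finset.range (B + 1),
        ((∑ z ∈ T.filter (fun z => z.length % (5 * s) = 0 ∧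
          z.length / (5 * s) % (B + 1) = ρ), Xz B T o0 x w z η : ℕ) : ℝ) ≤
        4 * ((∑ z ∈ T.filter (fun z => z.length % (5 * s) = 0 ∧
          z.length / (5 * s) % (B + 1) = ρ), (Nz s B T w z).card : ℕ) : ℝ) *
          (1 / (Z s : ℝ)) ^ B + (2 * n + 10) := by
      intro ρ hρ
      exact hη x w hwl ρ (Finset.mem_range.mp hρ)
    refine (Finset.sum_le_sum h5).trans ?_
    rw [Finset.sum_add_distrib, Finset.sum_const, Finset.card_range, nsmul_eq_mul,
      ← Finset.sum_mul, ← Finset.mul_sum, ← Nat.cast_sum]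
    have h7 := (ld_sumN (B := B) hs T w).trans hTn
    generalize (∑ ρ ∈ Finset.range (B + 1),
        ∑ z ∈ T.filter (fun z => z.length % (5 * s) = 0 ∧ z.length / (5 * s) % (B + 1) = ρ),
          (Nz s B T w z).card) = S at h7 ⊢
    have h6 : (S : ℝ) ≤ 2 ^ n := by exact_mod_cast h7
    exact ld_arith _ _ _ n M (7 * s * B) h6 hθ h9 h2n h8
  have hsum : ((∑ w ∈ ld_W, ∑ ρ ∈ Finset.range (B + 1),
        ∑ z ∈ T.filter (fun z => z.length % (5 * s) = 0 ∧ z.length / (5 * s) % (B + 1) = ρ),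
          Xz B T o0 x w z η : ℕ) : ℝ) ≤ 279 * 2 ^ M := by
    rw [Nat.cast_sum]
    refine (Finset.sum_le_sum hw).trans ?_
    rw [Finset.sum_const, nsmul_eq_mul]
    have h5 : (ld_W.card : ℝ) ≤ 31 := by exact_mod_cast ld_W_card
    have h6 : (0 : ℝ) ≤ 9 * 2 ^ M := by positivity
    calc (ld_W.card : ℝ) * (9 * 2 ^ M) ≤ 31 * (9 * 2 ^ M) := mul_le_mul_of_nonneg_right h5 h6
      _ = 279 * 2 ^ M := by ring
  have h10 : (1 : ℝ) ≤ 2 ^ M := one_le_pow₀ (by norm_num)
  have h11 : ((T.filter fun v => P B (ex T o0 η) v = x).card : ℝ) ≤ 31 + 279 * 2 ^ M := by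
    have h12 : ((T.filter fun v => P B (ex T o0 η) v = x).card : ℝ) ≤
        ((T.filter fun v => P B (ex T o0 η) v = x ∧ v.length < B * (5 * s)).card : ℝ) +
        ((T.filter fun v => P B (ex T o0 η) v = x ∧ B * (5 * s) ≤ v.length).card : ℝ) := by
      exact_mod_cast hsplit
    have h13 : ((T.filter fun v => P B (ex T o0 η) v = x ∧
        v.length < B * (5 * s)).card : ℝ) ≤ 31 := by exact_mod_cast hsh
    have h14 : ((T.filter fun v => P B (ex T o0 η) v = x ∧
        B * (5 * s) ≤ v.length).card : ℝ) ≤ 279 * 2 ^ M := by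
      refine le_trans ?_ hsum
      exact_mod_cast hdp
    linarith
  have h15 : (2 : ℝ) ^ (M + 9) = 512 * 2 ^ M := by
    rw [pow_add]
    norm_num
    ring
  rw [h15]
  linarith

end Pool.Agent.Work.MP_bf01b2_co.Bd
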