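import Pool.Agent.Work.MP_bf01b2_co.Bd.Stmts

/-!
# Item LI : local injectivity of the complete map
-/

set_option autoImplicit false

namespace Pool.Agent.Work.MP_bf01b2_co.Bd

theorem li_take_succ (u : List Bool) (i : ℕ) (h : i < u.length) :
    u.take (i + 1) = u.take i ++ [u.getD i false] := by
  rw [List.take_succ_eq_append_getElem h, List.getD_eq_getElem _ _ h]

theorem li_getD_take (u : List Bool) (i n : ℕ) (h : i < n) :
    (u.take n).getD i false = u.getD i false := by
  simp only [List.getD_eq_getElem?_getD]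
  rw [List.getElem?_take_of_lt h]

theorem li_getD_eq (u v : List Bool) (n : ℕ) (h : u.take n = v.take n) (i : ℕ) (hi : i < n) :
    u.getD i false = v.getD i false := by
  rw [← li_getD_take u i n hi, h, li_getD_take v i n hi]

theorem li_ext (u v : List Bool) (hl : u.length = v.length)
    (h : ∀ i < u.length, u.getD i false = v.getD i false) : u = v := by
  apply List.ext_getElem hl
  intro i h1 h2
  have := h i h1
  rw [List.getD_eq_getElem _ _ h1, List.getD_eq_getElem _ _ h2] at this
  exact this

/-- Longest common beginning. -/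
theorem li_lcp (u v : List Bool) : ∀ (d t : ℕ), u.length - t ≤ d → t ≤ u.length → t ≤ v.length →
    u.take t = v.take t → ∃ c, t ≤ c ∧ c ≤ u.length ∧ c ≤ v.length ∧ u.take c = v.take c ∧
      (c = u.length ∨ c = v.length ∨ u.getD c false ≠ v.getD c false) := by
  intro d
  induction d with
  | zero =>
    intro t h1 h2 h3 h4
    exact ⟨t, le_rfl, h2, h3, h4, Or.inl (by omega)⟩
  | succ d ih =>
    intro t h1 h2 h3 h4
    by_cases h5 : t = u.length
    · exact ⟨t, le_rfl, h2, h3, h4, Or.inl h5⟩
    by_cases h6 : t = v.length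
    · exact ⟨t, le_rfl, h2, h3, h4, Or.inr (Or.inl h6)⟩
    by_cases h7 : u.getD t false = v.getD t false
    · obtain ⟨c, a1, a2⟩ := ih (t + 1) (by omega) (by omega) (by omega) (by
        rw [li_take_succ u t (by omega), li_take_succ v t (by omega), h4, h7])
      exact ⟨c, by omega, a2⟩
    · exact ⟨t, le_rfl, h2, h3, h4, Or.inr (Or.inr h7)⟩

theorem li_P_step (h4 : EdgeP) (s B : ℕ) (hs : 0 < s) (ω : List Bool → Opt s) (u : List Bool)
    (i : ℕ) (hi : i < u.length) (hcd : cd B ω (u.take (i + 1)) i = none) :
    P B ω (u.take (i + 1)) = P B ω (u.take i) := by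
  funext c
  have hlen : (u.take i).length = i := by rw [List.length_take]; omega
  have h := (h4 s B hs ω (u.take i) (u.getD i false)).1 c
  rw [hlen, ← li_take_succ u i hi, hcd] at h
  rw [h]; simp

theorem li_P_step0 (h4 : EdgeP) (s B : ℕ) (hs : 0 < s) (ω : List Bool → Opt s) (u : List Bool)
    (i : ℕ) (hi : i < u.length) (h5 : i % 5 = 0) :
    P B ω (u.take (i + 1)) = P B ω (u.take i) := by
  apply li_P_step h4 s B hs ω u i hi
  have hlen : (u.take i).length = i := by rw [List.length_take]; omega
  have h := (h4 s B hs ω (u.take i) (u.getD i false)).2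
  rw [hlen, ← li_take_succ u i hi] at h
  exact h h5

theorem li_bit_step (h5 : EdgeB) (p : ℕ → Prop) [DecidablePred p] (κ : List Bool → Bool)
    (u : List Bool) (i : ℕ) (hi : i < u.length) (hp : ¬ p i) :
    bit p κ (u.take (i + 1)) = bit p κ (u.take i) := by
  have hlen : (u.take i).length = i := by rw [List.length_take]; omega
  have h := (h5 p κ (u.take i) (u.getD i false)).1
  rw [hlen, ← li_take_succ u i hi] at h
  exact h hp

theorem li_bit_cut (h5 : EdgeB) (p : ℕ → Prop) [DecidablePred p] (κ : List Bool → Bool)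
    (u : List Bool) (i : ℕ) (hi : i < u.length) (hp : p i) :
    bit p κ (u.take (i + 1)) = xor (κ (u.take i)) (u.getD i false) := by
  have hlen : (u.take i).length = i := by rw [List.length_take]; omega
  have h := (h5 p κ (u.take i) (u.getD i false)).2
  rw [hlen, ← li_take_succ u i hi] at h
  exact h hp

/-- If `P` does not change at a level, some bit changes. -/
theorem li_change (s B I : ℕ) (ω : List Bool → Opt s)
    (κ : ℕ → List Bool → Bool) (u : List Bool) (i : ℕ)
    (hP : P B ω (u.take (i + 1)) = P B ω (u.take i))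
    (hne : Ph B I ω κ (u.take (i + 1)) ≠ Ph B I ω κ (u.take i)) :
    ∃ c, 1 ≤ c ∧ c ≤ I ∧ bit (fun t => col t = c) (κ c) (u.take (i + 1)) ≠
      bit (fun t => col t = c) (κ c) (u.take i) := by
  by_contra hcon
  push Not at hcon
  apply hne
  unfold Ph
  rw [hP]
  congr 1
  funext c
  by_cases hc : 1 ≤ c ∧ c ≤ I
  · rw [if_pos hc, if_pos hc]
    exact hcon c hc.1 hc.2
  · rw [if_neg hc, if_neg hc]

theorem li_col (i : ℕ) (h : i % 10 ≠ 0) : col i = 0 := by
  unfold col
  rw [if_neg h]

/-- `Ph` changes at a level only if the level is not `5` modulo `10`; at a level which is not a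
multiple of `5` the real part must change. -/
theorem li_cd (h4 : EdgeP) (h5 : EdgeB) (s B I : ℕ) (hs : 0 < s) (ω : List Bool → Opt s)
    (κ : ℕ → List Bool → Bool) (u : List Bool) (i : ℕ) (hi : i < u.length) (h10 : i % 10 ≠ 0)
    (hne : Ph B I ω κ (u.take (i + 1)) ≠ Ph B I ω κ (u.take i)) :
    cd B ω (u.take (i + 1)) i ≠ none := by
  intro hcd
  obtain ⟨c, hc1, hc2, hc3⟩ := li_change s B I ω κ u i (li_P_step h4 s B hs ω u i hi hcd) hne
  apply hc3
  apply li_bit_step h5 _ _ u i hi
  rw [li_col i h10]
  omega

theorem li_mod (h4 : EdgeP) (h5 : EdgeB) (s B I : ℕ) (hs : 0 < s) (ω : List Bool → Opt s)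
    (κ : ℕ → List Bool → Bool) (u : List Bool) (i : ℕ) (hi : i < u.length)
    (hne : Ph B I ω κ (u.take (i + 1)) ≠ Ph B I ω κ (u.take i)) : i % 10 ≠ 5 := by
  intro h10
  apply li_cd h4 h5 s B I hs ω κ u i hi (by omega) hne
  have hlen : (u.take i).length = i := by rw [List.length_take]; omega
  have h := (h4 s B hs ω (u.take i) (u.getD i false)).2
  rw [hlen, ← li_take_succ u i hi] at h
  exact h (by omega)

theorem li_len (h4 : EdgeP) (h5 : EdgeB) (s B I : ℕ) (hs : 0 < s) (ω : List Bool → Opt s)
    (κ : ℕ → List Bool → Bool) (u : List Bool) (t : ℕ)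
    (hch : ∀ i, t ≤ i → i < u.length → Ph B I ω κ (u.take (i + 1)) ≠ Ph B I ω κ (u.take i)) :
    u.length ≤ t + 10 := by
  by_contra hcon
  obtain ⟨i, h1, h2, h3⟩ : ∃ i, t ≤ i ∧ i < t + 10 ∧ i % 10 = 5 := by
    refine ⟨t + (15 - t % 10) % 10, by omega, by omega, by omega⟩
  exact li_mod h4 h5 s B I hs ω κ u i (by omega) (hch i h1 (by omega)) h3

/-- The first case: divergence after the first level of the block. -/
theorem li_case1 (h1 : BlkLoc) (h2 : QSet) (h3 : Decomp) (h4 : EdgeP) (h5 : EdgeB)
    (h6 : LbBasic) (s B I : ℕ) (hs : 0 < s) (ω : List Bool → Opt s)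
    (κ : ℕ → List Bool → Bool) (u v : List Bool) (c : ℕ)
    (hg : u.length / 5 = v.length / 5)
    (hP : P B ω u = P B ω v) (hc1 : 5 * (u.length / 5) + 1 ≤ c) (hcu : c ≤ u.length)
    (hcv : c ≤ v.length) (hc : u.take c = v.take c)
    (hu : ∀ i, c ≤ i → i < u.length → Ph B I ω κ (u.take (i + 1)) ≠ Ph B I ω κ (u.take i))
    (hv : ∀ i, c ≤ i → i < v.length → Ph B I ω κ (v.take (i + 1)) ≠ Ph B I ω κ (v.take i)) :
    u = v := by
  set g := u.length / 5 with hgdef
  set K := g / s with hK
  have hKu : u.length / (5 * s) = K := by rw [← Nat.div_div_eq_div_mul]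
  have hKv : v.length / (5 * s) = K := by rw [← Nat.div_div_eq_div_mul, ← hg]
  have hKg : K * s ≤ g := Nat.div_mul_le_self g s
  have hKg2 : g < K * s + s := by
    have := Nat.lt_div_mul_add (a := g) hs
    rw [← hK] at this
    exact this
  have hK5 : K * (5 * s) = 5 * (K * s) := by ring
  set b := K * (5 * s) with hb
  have hb5 : b % 5 = 0 := by rw [hK5]; omega
  have hbc : b ≤ 5 * g := by omega
  have hbl : 5 * g + 5 ≤ b + 5 * s := by omega
  have hlu : u.length < 5 * g + 5 := by omega
  have hlv : v.length < 5 * g + 5 := by omega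
  have hbu : b ≤ u.length := by omega
  have hbv : b ≤ v.length := by omega
  have hboundary : ∀ k, k ≤ K → u.take (k * (5 * s)) = v.take (k * (5 * s)) := by
    intro k hk
    have hkb : k * (5 * s) ≤ b := Nat.mul_le_mul_right _ hk
    have h7 : (u.take c).take (k * (5 * s)) = (v.take c).take (k * (5 * s)) := by rw [hc]
    rw [List.take_take, List.take_take] at h7
    rw [min_eq_left (by omega)] at h7
    exact h7
  -- label sets
  have hSet : SetEq (nA (ω (u.take b))) (bits s K u) (u.length - b) (bits s K v)
      (v.length - b) := by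
    apply h2 s (ω (u.take b)) _ _ _ _ (by omega) (by omega)
    intro j _
    have e1 := h3 s B hs ω u (K % B) j
    have e2 := h3 s B hs ω v (K % B) j
    rw [hP, e2, hKu, hKv, Finset.sum_range_succ, Finset.sum_range_succ, if_pos rfl, if_pos rfl]
      at e1
    have e3 : ∑ k ∈ Finset.range K, (if k % B = K % B then
          Q (ω (v.take (k * (5 * s)))) (bits s k v) (min (5 * s) (v.length - k * (5 * s))) j
        else 0) = ∑ k ∈ Finset.range K, (if k % B = K % B then
          Q (ω (u.take (k * (5 * s)))) (bits s k u) (min (5 * s) (u.length - k * (5 * s))) j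
        else 0) := by
      apply Finset.sum_congr rfl
      intro k hk
      have hkK : k < K := Finset.mem_range.mp hk
      have hk1 : (k + 1) * (5 * s) ≤ b := Nat.mul_le_mul_right _ hkK
      have hk2 : (k + 1) * (5 * s) = k * (5 * s) + 5 * s := by ring
      split_ifs with hkB
      · rw [min_eq_left (by omega), min_eq_left (by omega), hboundary k hkK.le]
        unfold Q
        apply Finset.sum_congr rfl
        intro i hi
        have hi' := Finset.mem_range.mp hi
        have : fl (ω (v.take (k * (5 * s)))) (bits s k v) i =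
            fl (ω (v.take (k * (5 * s)))) (bits s k u) i := by
          unfold fl
          congr 1
          apply h6.2.1
          intro j' hj'
          unfold bits
          exact (li_getD_eq u v c hc _ (by omega)).symm
        rw [this]
      · rfl
    rw [e3] at e1
    have e4 := add_left_cancel e1
    rw [← hb, min_eq_right (by omega), min_eq_right (by omega)] at e4
    rw [hboundary K le_rfl] at e4 ⊢
    exact e4.symm
  have hbits : ∀ (w : List Bool) (i j : ℕ), b + i < w.length → j ≤ i →
      bits s K (w.take (b + i + 1)) j = bits s K w j := by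
    intro w i j _ hj
    unfold bits
    exact li_getD_take w _ _ (by omega)
  have hlb : ∀ (w : List Bool), w.length < 5 * g + 5 → w.take b = u.take b → (∀ i, c ≤ i →
      i < w.length → Ph B I ω κ (w.take (i + 1)) ≠ Ph B I ω κ (w.take i)) →
      ∀ i, c - b ≤ i → i < w.length - b → lb (nA (ω (u.take b))) (bits s K w) i ≠ none := by
    intro w hwl hwb hch i hi1 hi2 hcon
    have h7 := li_cd h4 h5 s B I hs ω κ w (b + i) (by omega) (by omega)
      (hch (b + i) (by omega) (by omega))
    apply h7
    have h8 : (b + i) / (5 * s) = K := by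
      rw [hb, mul_comm K, Nat.mul_add_div (by omega), Nat.div_eq_of_lt (by omega), add_zero]
    have h9 : (b + i) % (5 * s) = i := by
      rw [hb, Nat.mul_add_mod_self_right, Nat.mod_eq_of_lt (by omega)]
    have h10 : (w.take (b + i + 1)).take b = u.take b := by
      rw [List.take_take, min_eq_left (by omega), hwb]
    unfold cd
    rw [h8, h9, ← hb, h10]
    unfold fl
    have h11 : lb (nA (ω (u.take b))) (bits s K (w.take (b + i + 1))) i = none := by
      rw [← hcon]
      apply h6.2.1
      intro j hj
      exact hbits w i j (by omega) hj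
    rw [h11]
    rfl
  have hub : v.take b = u.take b := (hboundary K le_rfl).symm
  have hdiv1 : (u.length - b) / 5 = g - b / 5 := by omega
  obtain ⟨r1, r2⟩ := h1 _ _ _ _ _ (c - b) hSet (by omega) (by omega) (by omega) (by omega) (by
    intro i hi
    unfold bits
    exact li_getD_eq u v c hc _ (by omega)) (hlb u hlu rfl hu) (hlb v hlv hub hv)
  apply li_ext u v (by omega)
  intro i hi
  by_cases hib : i < b
  · exact li_getD_eq u v c hc i (by omega)
  · have h7 := r2 (i - b) (by omega)
    unfold bits at h7
    rw [← hb, show b + (i - b) = i by omega] at h7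
    exact h7

theorem locP (h1 : BlkLoc) (h2 : QSet) (h3 : Decomp) (h4 : EdgeP) (h5 : EdgeB)
    (h6 : LbBasic) : LocP := by
  intro s B I hs hB T ω κ hT hnear u hu v hv huv t ht1 ht2 ht3 hcu hcv
  have hP : P B ω u = P B ω v := (Prod.mk.inj huv).1
  have hbit : ∀ c, 1 ≤ c → c ≤ I →
      bit (fun t => col t = c) (κ c) u = bit (fun t => col t = c) (κ c) v := by
    intro c hc1 hc2
    have h : (if 1 ≤ c ∧ c ≤ I then bit (fun t => col t = c) (κ c) u else false) =
        (if 1 ≤ c ∧ c ≤ I then bit (fun t => col t = c) (κ c) v else false) :=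
      congrFun (Prod.mk.inj huv).2 c
    rw [if_pos ⟨hc1, hc2⟩, if_pos ⟨hc1, hc2⟩] at h
    exact h
  have hlu := li_len h4 h5 s B I hs ω κ u t hcu
  have hlv := li_len h4 h5 s B I hs ω κ v t hcv
  obtain ⟨hg, hgt⟩ := hnear u hu v hv hP t ht1 ht2 ht3 hlu hlv
  -- longest common beginning
  set g := u.length / 5 with hgdef
  obtain ⟨c, hc0, hc1, hc2, hc3, hc4⟩ : ∃ c, (t ≤ c ∧ 5 * g ≤ c) ∧ c ≤ u.length ∧
      c ≤ v.length ∧ u.take c = v.take c ∧
      (c = u.length ∨ c = v.length ∨ u.getD c false ≠ v.getD c false) := by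
    rw [← hg] at hgt
    by_cases h7 : t ≤ 5 * g
    · obtain ⟨c, a1, a2⟩ := li_lcp u v _ (5 * g) le_rfl (by omega) (by omega) hgt
      exact ⟨c, ⟨by omega, a1⟩, a2⟩
    · obtain ⟨c, a1, a2⟩ := li_lcp u v _ t le_rfl ht1 ht2 ht3
      exact ⟨c, ⟨a1, by omega⟩, a2⟩
  by_cases hcase : 5 * g + 1 ≤ c
  · exact li_case1 h1 h2 h3 h4 h5 h6 s B I hs ω κ u v c hg hP hcase hc1 hc2 hc3
      (fun i hi1 hi2 => hcu i (by omega) hi2) (fun i hi1 hi2 => hcv i (by omega) hi2)
  have hc5 : c = 5 * g := by omega
  have hcm : c % 5 = 0 := by omega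
  -- one ends at `c`
  have aux : ∀ u' v' : List Bool, (∀ c', 1 ≤ c' → c' ≤ I →
      bit (fun t => col t = c') (κ c') u' = bit (fun t => col t = c') (κ c') v') →
      u'.take c = v'.take c → c = u'.length → c < v'.length → v'.length < 5 * g + 5 →
      (∀ i, t ≤ i → i < v'.length → Ph B I ω κ (v'.take (i + 1)) ≠ Ph B I ω κ (v'.take i)) →
      False := by
    intro u' v' hbit' htk hcu' hcv' hlv' hch
    obtain ⟨c', k1, k2, k3⟩ := li_change s B I ω κ v' c (li_P_step0 h4 s B hs ω v' c hcv' hcm)
      (hch c hc0.1 hcv')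
    have h7 : ∀ d, c + 1 + d ≤ v'.length →
        bit (fun t => col t = c') (κ c') (v'.take (c + 1 + d)) =
          bit (fun t => col t = c') (κ c') (v'.take (c + 1)) := by
      intro d
      induction d with
      | zero => intro _; rfl
      | succ d ih =>
        intro hd
        rw [show c + 1 + (d + 1) = (c + 1 + d) + 1 by ring,
          li_bit_step h5 _ _ v' (c + 1 + d) (by omega) (by rw [li_col _ (by omega)]; omega)]
        exact ih (by omega)
    have h8 := h7 (v'.length - (c + 1)) (by omega)
    rw [show c + 1 + (v'.length - (c + 1)) = v'.length by omega, List.take_length] at h8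
    apply k3
    rw [← h8, ← hbit' c' k1 k2, ← htk, hcu', List.take_length]
  by_cases h8 : c = u.length
  · by_cases h9 : c = v.length
    · rw [← List.take_length (l := u), ← List.take_length (l := v), ← h8, ← h9]
      exact hc3
    · exact (aux u v hbit hc3 h8 (by omega) (by omega) hcv).elim
  · by_cases h9 : c = v.length
    · exact (aux v u (fun c' k1 k2 => (hbit c' k1 k2).symm) hc3.symm h9 (by omega) (by omega)
        hcu).elim
    · exfalso
      have h10 : u.getD c false ≠ v.getD c false := by
        rcases hc4 with h | h | h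
        · exact absurd h h8
        · exact absurd h h9
        · exact h
      obtain ⟨c1, k1, k2, k3⟩ := li_change s B I ω κ u c
        (li_P_step0 h4 s B hs ω u c (by omega) hcm) (hcu c hc0.1 (by omega))
      obtain ⟨c2, l1, l2, l3⟩ := li_change s B I ω κ v c
        (li_P_step0 h4 s B hs ω v c (by omega) hcm) (hcv c hc0.1 (by omega))
      have e1 : col c = c1 := by
        by_contra hcon
        exact k3 (li_bit_step h5 _ _ u c (by omega) hcon)
      have e2 : col c = c2 := by
        by_contra hcon
        exact l3 (li_bit_step h5 _ _ v c (by omega) hcon)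
      have e12 : c2 = c1 := e2.symm.trans e1
      subst e12
      rw [li_bit_cut h5 _ _ u c (by omega) e1] at k3
      rw [li_bit_cut h5 _ _ v c (by omega) e1] at l3
      rw [hc3] at k3
      revert k3 l3 h10
      generalize bit (fun t => col t = c2) (κ c2) (v.take c) = z
      generalize κ c2 (v.take c) = z1
      generalize u.getD c false = z2
      generalize v.getD c false = z3
      revert z z1 z2 z3
      decide

end Pool.Agent.Work.MP_bf01b2_co.Bd
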