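import Mathlib

/-!
# The symmetric local lemma for finitely many independent choices (counting form)
-/

set_option autoImplicit false

namespace Pool.Agent.Work.MP_bf01b2_co.Bd

section

variable {I J α : Type} [Fintype I] [Fintype J] [Fintype α] [DecidableEq I] [DecidableEq J]
  [DecidableEq α]

/-- Use `w` on `S` and `w'` outside. -/
def lmix (S : Finset I) (w w' : I → α) : I → α := fun i => if i ∈ S then w i else w' i

theorem lll_indep (S : Finset I) (A B : Finset (I → α))
    (hA : ∀ w w' : I → α, (∀ i ∈ S, w i = w' i) → w ∈ A → w' ∈ A)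
    (hB : ∀ w w' : I → α, (∀ i ∉ S, w i = w' i) → w ∈ B → w' ∈ B) :
    (A ∩ B).card * Fintype.card (I → α) ≤ A.card * B.card := by
  rw [← Finset.card_univ, ← Finset.card_product, ← Finset.card_product]
  apply Finset.card_le_card_of_injOn
    (fun x : (I → α) × (I → α) => (lmix S x.1 x.2, lmix S x.2 x.1))
  · rintro ⟨w, w'⟩ hw
    simp only [Finset.coe_product, Set.mem_prod, Finset.mem_coe, Finset.mem_inter,
      Finset.mem_univ, and_true] at hw
    simp only [Finset.coe_product, Set.mem_prod, Finset.mem_coe]
    refine ⟨hA w _ ?_ hw.1, hB w _ ?_ hw.2⟩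
    · intro i hi
      simp [lmix, hi]
    · intro i hi
      simp [lmix, hi]
  · rintro ⟨w, w'⟩ - ⟨z, z'⟩ - h
    simp only [Prod.mk.injEq] at h
    obtain ⟨h1, h2⟩ := h
    refine Prod.ext ?_ ?_
    · funext i
      by_cases hi : i ∈ S
      · have := congrFun h1 i
        simpa [lmix, hi] using this
      · have := congrFun h2 i
        simpa [lmix, hi] using this
    · funext i
      by_cases hi : i ∈ S
      · have := congrFun h2 i
        simpa [lmix, hi] using this
      · have := congrFun h1 i
        simpa [lmix, hi] using this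

/-- The choices avoiding the events in `T`. -/
def avoid (A : J → Finset (I → α)) (T : Finset J) : Finset (I → α) :=
  Finset.univ.filter fun w => ∀ j ∈ T, w ∉ A j

theorem lll_step (A : J → Finset (I → α)) (S : J → Finset I) (D : ℕ)
    (hS : ∀ j, ∀ w w' : I → α, (∀ i ∈ S j, w i = w' i) → w ∈ A j → w' ∈ A j)
    (hD : ∀ j, (Finset.univ.filter fun j' => ¬ Disjoint (S j) (S j')).card ≤ D)
    (hp : ∀ j, (A j).card * (4 * D) ≤ Fintype.card (I → α)) :
    ∀ n : ℕ, ∀ T : Finset J, T.card ≤ n → ∀ j,
      2 * D * (A j ∩ avoid A T).card ≤ (avoid A T).card := by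
  intro n
  induction n using Nat.strong_induction_on with
  | _ n ih =>
    intro T hT j
    set T2 := T.filter fun t => Disjoint (S j) (S t) with hT2
    set T1 := T.filter fun t => ¬ Disjoint (S j) (S t) with hT1
    have hcard : T2.card + T1.card = T.card :=
      Finset.card_filter_add_card_filter_not _
    have hsub : avoid A T ⊆ avoid A T2 := by
      intro w hw
      simp only [avoid, Finset.mem_filter, Finset.mem_univ, true_and] at hw ⊢
      intro t ht
      exact hw t (Finset.mem_filter.mp ht).1
    have hN : 0 < Fintype.card (I → α) ∨ Fintype.card (I → α) = 0 := by omega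
    rcases hN with hN | hN
    swap
    · have h0 : (Finset.univ : Finset (I → α)).card = 0 := by
        rw [Finset.card_univ]; exact hN
      have h1 : A j ∩ avoid A T = ∅ := by
        have h2 : (A j ∩ avoid A T).card = 0 := by
          have := Finset.card_le_card (Finset.subset_univ (A j ∩ avoid A T))
          omega
        exact Finset.card_eq_zero.mp h2
      rw [h1]; simp
    -- independence
    have h1 := lll_indep (S j) (A j) (avoid A T2) (hS j) (by
      intro w w' hww hw
      simp only [avoid, Finset.mem_filter, Finset.mem_univ, true_and] at hw ⊢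
      intro t ht hcon
      refine hw t ht (hS t w' w ?_ hcon)
      intro i hi
      have hd := (Finset.mem_filter.mp ht).2
      exact (hww i (fun h => (Finset.disjoint_left.mp hd) h hi)).symm)
    have h2 : 4 * D * (A j ∩ avoid A T2).card ≤ (avoid A T2).card := by
      have h3 : 4 * D * (A j ∩ avoid A T2).card * Fintype.card (I → α)
          ≤ (avoid A T2).card * Fintype.card (I → α) := by
        calc 4 * D * (A j ∩ avoid A T2).card * Fintype.card (I → α)
            = 4 * D * ((A j ∩ avoid A T2).card * Fintype.card (I → α)) := by ring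
          _ ≤ 4 * D * ((A j).card * (avoid A T2).card) := Nat.mul_le_mul_left _ h1
          _ = ((A j).card * (4 * D)) * (avoid A T2).card := by ring
          _ ≤ Fintype.card (I → α) * (avoid A T2).card := Nat.mul_le_mul_right _ (hp j)
          _ = (avoid A T2).card * Fintype.card (I → α) := by ring
      exact Nat.le_of_mul_le_mul_right h3 hN
    -- lower bound for avoid T
    have h4 : (avoid A T2).card ≤ 2 * (avoid A T).card := by
      by_cases hT1e : T1 = ∅
      · have : T2 = T := by
          apply Finset.filter_true_of_mem
          intro t ht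
          by_contra hcon
          have : t ∈ T1 := Finset.mem_filter.mpr ⟨ht, hcon⟩
          rw [hT1e] at this
          simp at this
        rw [this]; omega
      · have hpos : 0 < T1.card := Finset.card_pos.mpr (Finset.nonempty_of_ne_empty hT1e)
        have hT1D : T1.card ≤ D := by
          refine (Finset.card_le_card ?_).trans (hD j)
          intro t ht
          exact Finset.mem_filter.mpr ⟨Finset.mem_univ _, (Finset.mem_filter.mp ht).2⟩
        have hcover : avoid A T2 ⊆ avoid A T ∪ T1.biUnion (fun t => A t ∩ avoid A T2) := by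
          intro w hw
          by_cases h : w ∈ avoid A T
          · exact Finset.mem_union_left _ h
          · apply Finset.mem_union_right
            have hw' := hw
            simp only [avoid, Finset.mem_filter, Finset.mem_univ, true_and] at h hw'
            push Not at h
            obtain ⟨t, ht, hwt⟩ := h
            rw [Finset.mem_biUnion]
            refine ⟨t, Finset.mem_filter.mpr ⟨ht, fun hd => ?_⟩, Finset.mem_inter.mpr ⟨hwt, hw⟩⟩
            exact hw' t (Finset.mem_filter.mpr ⟨ht, hd⟩) hwt
        have h5 : (avoid A T2).card ≤ (avoid A T).card +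
            ∑ t ∈ T1, (A t ∩ avoid A T2).card :=
          (Finset.card_le_card hcover).trans ((Finset.card_union_le _ _).trans
            (Nat.add_le_add_left Finset.card_biUnion_le _))
        have h6 : 2 * D * ∑ t ∈ T1, (A t ∩ avoid A T2).card ≤ D * (avoid A T2).card := by
          rw [Finset.mul_sum]
          calc ∑ t ∈ T1, 2 * D * (A t ∩ avoid A T2).card
              ≤ ∑ t ∈ T1, (avoid A T2).card := by
                apply Finset.sum_le_sum
                intro t _
                exact ih T2.card (by omega) T2 le_rfl t
            _ = T1.card * (avoid A T2).card := by rw [Finset.sum_const, smul_eq_mul]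
            _ ≤ D * (avoid A T2).card := Nat.mul_le_mul_right _ hT1D
        have hDpos : 0 < D := lt_of_lt_of_le hpos hT1D
        have h7 : 2 * ∑ t ∈ T1, (A t ∩ avoid A T2).card ≤ (avoid A T2).card := by
          have h8 : D * (2 * ∑ t ∈ T1, (A t ∩ avoid A T2).card) ≤ D * (avoid A T2).card := by
            calc D * (2 * ∑ t ∈ T1, (A t ∩ avoid A T2).card)
                = 2 * D * ∑ t ∈ T1, (A t ∩ avoid A T2).card := by ring
              _ ≤ _ := h6
          exact Nat.le_of_mul_le_mul_left h8 hDpos
        omega
    have h9 : (A j ∩ avoid A T).card ≤ (A j ∩ avoid A T2).card :=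
      Finset.card_le_card (Finset.inter_subset_inter_left hsub)
    have h10 : 4 * D * (A j ∩ avoid A T).card ≤ 2 * (avoid A T).card :=
      (Nat.mul_le_mul_left _ h9).trans (h2.trans h4)
    have h11 : 4 * D * (A j ∩ avoid A T).card = 2 * (2 * D * (A j ∩ avoid A T).card) := by ring
    omega

/-- The symmetric local lemma. -/
theorem lll_basic [Nonempty α] (A : J → Finset (I → α)) (S : J → Finset I) (D : ℕ) (hD0 : 0 < D)
    (hS : ∀ j, ∀ w w' : I → α, (∀ i ∈ S j, w i = w' i) → w ∈ A j → w' ∈ A j)
    (hD : ∀ j, (Finset.univ.filter fun j' => ¬ Disjoint (S j) (S j')).card ≤ D)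
    (hp : ∀ j, (A j).card * (4 * D) ≤ Fintype.card (I → α)) :
    ∃ w : I → α, ∀ j, w ∉ A j := by
  have key : ∀ T : Finset J, 0 < (avoid A T).card := by
    intro T
    induction T using Finset.induction_on with
    | empty =>
      have : avoid A (∅ : Finset J) = Finset.univ := by
        ext w; simp [avoid]
      rw [this, Finset.card_univ]
      exact Fintype.card_pos
    | insert j T _ ih =>
      have h1 := lll_step A S D hS hD hp T.card T le_rfl j
      have h2 : avoid A T ⊆ avoid A (insert j T) ∪ (A j ∩ avoid A T) := by
        intro w hw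
        by_cases h : w ∈ A j
        · exact Finset.mem_union_right _ (Finset.mem_inter.mpr ⟨h, hw⟩)
        · apply Finset.mem_union_left
          simp only [avoid, Finset.mem_filter, Finset.mem_univ, true_and] at hw ⊢
          intro t ht
          rcases Finset.mem_insert.mp ht with rfl | ht
          · exact h
          · exact hw t ht
      have h3 := (Finset.card_le_card h2).trans (Finset.card_union_le _ _)
      have h4 : 2 * (A j ∩ avoid A T).card ≤ 2 * D * (A j ∩ avoid A T).card :=
        Nat.mul_le_mul_right _ (by omega)
      omega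
  obtain ⟨w, hw⟩ := Finset.card_pos.mp (key Finset.univ)
  refine ⟨w, fun j => ?_⟩
  simp only [avoid, Finset.mem_filter, Finset.mem_univ, true_and, forall_const] at hw
  exact hw j

/-- The symmetric local lemma: every event depends on at most `k` choices, every choice occurs in
at most `d` events. -/
theorem lll [Nonempty α] (A : J → Finset (I → α)) (S : J → Finset I) (k d : ℕ)
    (hk0 : 0 < k) (hd0 : 0 < d)
    (hS : ∀ j, ∀ w w' : I → α, (∀ i ∈ S j, w i = w' i) → w ∈ A j → w' ∈ A j)
    (hk : ∀ j, (S j).card ≤ k)
    (hd : ∀ i, (Finset.univ.filter fun j => i ∈ S j).card ≤ d)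
    (hp : ∀ j, (A j).card * (4 * (k * d)) ≤ Fintype.card (I → α)) :
    ∃ w : I → α, ∀ j, w ∉ A j := by
  refine lll_basic A S (k * d) (Nat.mul_pos hk0 hd0) hS ?_ hp
  intro j
  have h1 : (Finset.univ.filter fun j' => ¬ Disjoint (S j) (S j')) ⊆
      (S j).biUnion fun i => Finset.univ.filter fun j' => i ∈ S j' := by
    intro j' hj'
    have h2 := (Finset.mem_filter.mp hj').2
    rw [Finset.not_disjoint_iff] at h2
    obtain ⟨i, hi, hi'⟩ := h2
    rw [Finset.mem_biUnion]
    exact ⟨i, hi, Finset.mem_filter.mpr ⟨Finset.mem_univ _, hi'⟩⟩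
  calc _ ≤ _ := Finset.card_le_card h1
    _ ≤ ∑ i ∈ S j, (Finset.univ.filter fun j' => i ∈ S j').card := Finset.card_biUnion_le
    _ ≤ ∑ _i ∈ S j, d := Finset.sum_le_sum fun i _ => hd i
    _ = (S j).card * d := by rw [Finset.sum_const, smul_eq_mul]
    _ ≤ k * d := Nat.mul_le_mul_right _ (hk j)

end

end Pool.Agent.Work.MP_bf01b2_co.Bd
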