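import Pool.Agent.Work.MP_bf01b2_co.Bd.Stmts
import Pool.Agent.Work.MP_bf01b2_co.Bd.LLL

/-!
# Item LL : the symmetric local lemma for coins
-/

set_option autoImplicit false

namespace Pool.Agent.Work.MP_bf01b2_co.Bd

theorem localLemma : LocalLemma := by
  intro ι α _ _ _ A S p d hS hp hd hd1 hpd
  classical
  obtain ⟨w, hw⟩ := lll_basic (fun a => Finset.univ.filter fun ω => A a ω) S d hd1 (by
    intro a w w' hww hw
    simp only [Finset.mem_filter, Finset.mem_univ, true_and] at hw ⊢
    exact hS a w w' hww hw) (by
    intro a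
    have := hd a
    convert this) (by
    intro a
    have h1 := hp a
    have h2 : (((Finset.univ.filter fun ω => A a ω).card * (4 * d) : ℕ) : ℝ) ≤
        ((Fintype.card (ι → Bool) : ℕ) : ℝ) := by
      rw [Fintype.card_fun, Fintype.card_bool]
      push_cast
      have hd0 : (0 : ℝ) ≤ d := Nat.cast_nonneg _
      calc ((Finset.univ.filter fun ω => A a ω).card : ℝ) * (4 * d)
          ≤ (p * 2 ^ Fintype.card ι) * (4 * d) := by
            apply mul_le_mul_of_nonneg_right _ (by positivity)
            convert h1
        _ = (4 * p * d) * 2 ^ Fintype.card ι := by ring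
        _ ≤ 1 * 2 ^ Fintype.card ι := mul_le_mul_of_nonneg_right hpd (by positivity)
        _ = 2 ^ Fintype.card ι := one_mul _
    exact_mod_cast h2)
  refine ⟨w, fun a ha => hw a ?_⟩
  simp only [Finset.mem_filter, Finset.mem_univ, true_and]
  exact ha

end Pool.Agent.Work.MP_bf01b2_co.Bd
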