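import Pool.Agent.Work.MP_bf01b2_co.Bd.Stmts

/-!
# MP_bf01b2_co, `n + O(1)` : Markov inequality and union bound (item MK)
-/

set_option autoImplicit false

namespace Pool.Agent.Work.MP_bf01b2_co.Bd

open Classical

theorem mk_exp {Ω' : Type} [Fintype Ω'] (S : Ω' → ℕ) (M : ℝ) (m : ℕ) (N : ℝ) (hM : 0 ≤ M)
    (h : ∑ η, (2 : ℝ) ^ (S η) ≤ Real.exp (2 * M) * N) :
    ((Finset.univ.filter fun η => ¬ ((S η : ℝ) ≤ 4 * M + m)).card : ℝ) * 2 ^ m ≤ N := by
  have hlog : (1 / 2 : ℝ) < Real.log 2 := by have := Real.log_two_gt_d9; linarith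
  have key : ∀ η ∈ Finset.univ.filter (fun η => ¬ ((S η : ℝ) ≤ 4 * M + m)),
      Real.exp (2 * M) * 2 ^ m ≤ (2 : ℝ) ^ (S η) := by
    intro η hη
    have h1 := (Finset.mem_filter.1 hη).2
    rw [not_le] at h1
    have e1 : (2 : ℝ) ^ m = Real.exp (m * Real.log 2) := by
      rw [← Real.log_pow, Real.exp_log (by positivity)]
    have e2 : (2 : ℝ) ^ (S η) = Real.exp (S η * Real.log 2) := by
      rw [← Real.log_pow, Real.exp_log (by positivity)]
    rw [e1, e2, ← Real.exp_add]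
    apply Real.exp_le_exp.2
    nlinarith
  have h2 : ((Finset.univ.filter fun η => ¬ ((S η : ℝ) ≤ 4 * M + m)).card : ℝ) *
      (Real.exp (2 * M) * 2 ^ m) ≤ Real.exp (2 * M) * N := by
    refine le_trans ?_ h
    rw [← nsmul_eq_mul, ← Finset.sum_const]
    refine (Finset.sum_le_sum key).trans ?_
    exact Finset.sum_le_sum_of_subset_of_nonneg (Finset.filter_subset _ _)
      (fun _ _ _ => by positivity)
  have h3 : 0 < Real.exp (2 * M) := Real.exp_pos _
  have h4 : Real.exp (2 * M) *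
      (((Finset.univ.filter fun η => ¬ ((S η : ℝ) ≤ 4 * M + m)).card : ℝ) * 2 ^ m) ≤
      Real.exp (2 * M) * N := by
    linarith
  exact le_of_mul_le_mul_left h4 h3

theorem mk_prod {ζ : Type} (Zs : Finset ζ) (a : ζ → ℕ) (t : ℝ) (ht : 0 ≤ t) :
    ∏ z ∈ Zs, (1 + 2 * ((a z : ℝ) * t)) ≤ Real.exp (2 * (((∑ z ∈ Zs, a z : ℕ) : ℝ) * t)) := by
  have : 2 * (((∑ z ∈ Zs, a z : ℕ) : ℝ) * t) = ∑ z ∈ Zs, 2 * ((a z : ℝ) * t) := by
    push_cast
    rw [Finset.sum_mul, Finset.mul_sum]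
  rw [this, Real.exp_sum]
  apply Finset.prod_le_prod
  · intro z _; positivity
  · intro z _
    have := Real.add_one_le_exp (2 * ((a z : ℝ) * t))
    linarith

/-- the Markov step for fixed data -/
theorem mk_markov (h1 : Peel) (h2 : MomZ) (h3 : IndZ) (s B n : ℕ) (T : Finset (List Bool))
    (o0 : Opt s) (hs : 0 < s) (hB : 2 ≤ B) (hT : PrefClosed T)
    (hZ : 2 ^ (5 * s * (B + 1)) ≤ Z s ^ (B - 1)) (x : ℕ × ℕ → ZMod 2) (w : List Bool)
    (hw : w.length ≤ 4) (ρ : ℕ) :
    ((Finset.univ.filter fun η : {y // y ∈ T} → Opt s =>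
      ¬ (((∑ z ∈ T.filter (fun z => z.length % (5 * s) = 0 ∧ z.length / (5 * s) % (B + 1) = ρ),
        Xz B T o0 x w z η : ℕ) : ℝ) ≤
      4 * (((∑ z ∈ T.filter (fun z => z.length % (5 * s) = 0 ∧ z.length / (5 * s) % (B + 1) = ρ),
        (Nz s B T w z).card : ℕ) : ℝ) * (1 / (Z s : ℝ)) ^ B) + (2 * n + 10 : ℕ))).card : ℝ) *
        2 ^ (2 * n + 10) ≤ Fintype.card ({y // y ∈ T} → Opt s) := by
  have : Nonempty (Opt s) := ⟨o0⟩
  set Zs := T.filter (fun z => z.length % (5 * s) = 0 ∧ z.length / (5 * s) % (B + 1) = ρ) with hZs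
  have hθ : (0 : ℝ) ≤ (1 / (Z s : ℝ)) ^ B := by positivity
  apply mk_exp (fun η : {y // y ∈ T} → Opt s => ∑ z ∈ Zs, Xz B T o0 x w z η)
  · positivity
  · have hp := h1 {y // y ∈ T} (Opt s) (List Bool) Zs (fun z => z.length)
      (fun z => Rz s B T z) (fun z η => (2 : ℝ) ^ (Xz B T o0 x w z η))
      (fun z => 1 + 2 * (((Nz s B T w z).card : ℝ) * (1 / (Z s : ℝ)) ^ B))
      (fun z ω => by positivity) (fun z => by positivity)
      (fun z hz ω => by
        have hz1 := (Finset.mem_filter.1 hz).2.1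
        exact h2 s B T o0 x w z hs hB hT hw hz1 hZ ω)
      (fun z hz z' hz' hne hrk ω ω' hωω' => by
        have hz1 := (Finset.mem_filter.1 hz).2
        have hz2 := (Finset.mem_filter.1 hz').2
        have := h3 s B T o0 x w z z' hs (by omega) hT hw hz1.1 hz2.1 (by rw [hz1.2, hz2.2])
          hrk hne ω ω' hωω'
        simp only [this])
    have hprod := mk_prod Zs (fun z => (Nz s B T w z).card) _ hθ
    have e : ∀ η : {y // y ∈ T} → Opt s, (2 : ℝ) ^ (∑ z ∈ Zs, Xz B T o0 x w z η) =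
        ∏ z ∈ Zs, (2 : ℝ) ^ (Xz B T o0 x w z η) := fun η =>
      (Finset.prod_pow_eq_pow_sum _ _ _).symm
    simp only [e]
    refine hp.trans ?_
    exact mul_le_mul_of_nonneg_right hprod (by positivity)

/-- words of length at most four -/
def mkW (p : Fin 5 × (Fin 4 → Bool)) : List Bool := (List.ofFn p.2).take p.1

theorem mk_words (w : List Bool) (hw : w.length ≤ 4) : ∃ p, mkW p = w := by
  refine ⟨(⟨w.length, by omega⟩, fun i => w.getD i false), ?_⟩
  unfold mkW
  apply List.ext_getElem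
  · simp; omega
  · intro i h1 h2
    rw [List.getElem_take, List.getElem_ofFn]
    simp [h2]

theorem sumSmall (h1 : Peel) (h2 : MomZ) (h3 : IndZ) (h4 : Supp) : SumSmall := by
  intro s B n T o0 hs hB hT _ hn hZ
  have : Nonempty (Opt s) := ⟨o0⟩
  -- the good event
  let Good : (ℕ × ℕ → ZMod 2) → List Bool → ℕ → ({y // y ∈ T} → Opt s) → Prop :=
    fun x w ρ η => (((∑ z ∈ T.filter
        (fun z => z.length % (5 * s) = 0 ∧ z.length / (5 * s) % (B + 1) = ρ),
        Xz B T o0 x w z η : ℕ) : ℝ) ≤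
      4 * (((∑ z ∈ T.filter (fun z => z.length % (5 * s) = 0 ∧ z.length / (5 * s) % (B + 1) = ρ),
        (Nz s B T w z).card : ℕ) : ℝ) * (1 / (Z s : ℝ)) ^ B) + (2 * n + 10 : ℕ))
  let xA : Finset (ℕ × ℕ) → (ℕ × ℕ → ZMod 2) := fun A c => if c ∈ A then 1 else 0
  let I : Finset (Finset (ℕ × ℕ) × (Fin 5 × (Fin 4 → Bool)) × ℕ) :=
    (Finset.range B ×ˢ Finset.range (7 * s)).powerset ×ˢ (Finset.univ ×ˢ Finset.range (B + 1))
  have hwl : ∀ p : Fin 5 × (Fin 4 → Bool), (mkW p).length ≤ 4 := by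
    intro p
    unfold mkW
    simp
  have hbad : ∀ i ∈ I, ((Finset.univ.filter fun η => ¬ Good (xA i.1) (mkW i.2.1) i.2.2 η).card : ℝ)
      * 2 ^ (2 * n + 10) ≤ Fintype.card ({y // y ∈ T} → Opt s) := by
    intro i _
    exact mk_markov h1 h2 h3 s B n T o0 hs hB hT hZ (xA i.1) (mkW i.2.1) (hwl _) i.2.2
  have hN : (0 : ℝ) < Fintype.card ({y // y ∈ T} → Opt s) := by
    have : 0 < Fintype.card ({y // y ∈ T} → Opt s) := Fintype.card_pos
    exact_mod_cast this
  have hI : I.card < 2 ^ (2 * n + 10) := by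
    have e : I.card = 2 ^ (B * (7 * s)) * (80 * (B + 1)) := by
      simp only [I, Finset.card_product, Finset.card_powerset, Finset.card_range,
        Finset.card_univ, Fintype.card_prod, Fintype.card_fin, Fintype.card_fun,
        Fintype.card_bool]
      norm_num
    rw [e]
    have h5 : B ≤ n := by nlinarith
    have h6 : 2 ^ (B * (7 * s)) ≤ 2 ^ n := Nat.pow_le_pow_right (by norm_num) (by nlinarith)
    have h7 : n < 2 ^ n := Nat.lt_two_pow_self
    have h8 : 2 ^ (2 * n + 10) = 2 ^ n * (2 ^ n * 1024) := by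
      rw [two_mul, pow_add, pow_add]; ring
    rw [h8]
    have h9 : 80 * (B + 1) < 2 ^ n * 1024 := by nlinarith
    calc 2 ^ (B * (7 * s)) * (80 * (B + 1)) ≤ 2 ^ n * (80 * (B + 1)) :=
          Nat.mul_le_mul_right _ h6
      _ < 2 ^ n * (2 ^ n * 1024) := Nat.mul_lt_mul_of_pos_left h9 (by positivity)
  -- some option is good for all indices
  have hex : ∃ η, ∀ i ∈ I, Good (xA i.1) (mkW i.2.1) i.2.2 η := by
    by_contra hcon
    push Not at hcon
    have hcov : (Finset.univ : Finset ({y // y ∈ T} → Opt s)) ⊆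
        I.biUnion fun i => Finset.univ.filter fun η => ¬ Good (xA i.1) (mkW i.2.1) i.2.2 η := by
      intro η _
      obtain ⟨i, hi, hη⟩ := hcon η
      exact Finset.mem_biUnion.2 ⟨i, hi, Finset.mem_filter.2 ⟨Finset.mem_univ _, hη⟩⟩
    have h5 := (Finset.card_le_card hcov).trans Finset.card_biUnion_le
    rw [Finset.card_univ] at h5
    have h6 : (Fintype.card ({y // y ∈ T} → Opt s) : ℝ) * 2 ^ (2 * n + 10) ≤
        I.card * Fintype.card ({y // y ∈ T} → Opt s) := by
      have h7 : (Fintype.card ({y // y ∈ T} → Opt s) : ℝ) ≤ ∑ i ∈ I,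
          ((Finset.univ.filter fun η => ¬ Good (xA i.1) (mkW i.2.1) i.2.2 η).card : ℝ) := by
        exact_mod_cast h5
      refine (mul_le_mul_of_nonneg_right h7 (by positivity)).trans ?_
      rw [Finset.sum_mul]
      refine (Finset.sum_le_sum hbad).trans ?_
      rw [Finset.sum_const, nsmul_eq_mul]
    have h7 : ((I.card : ℕ) : ℝ) < 2 ^ (2 * n + 10) := by exact_mod_cast hI
    nlinarith
  obtain ⟨η, hη⟩ := hex
  refine ⟨η, fun x w hw ρ hρ => ?_⟩
  have hgoal : Good x w ρ η → ((∑ z ∈ T.filter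
      (fun z => z.length % (5 * s) = 0 ∧ z.length / (5 * s) % (B + 1) = ρ),
        Xz B T o0 x w z η : ℕ) : ℝ) ≤
      4 * ((∑ z ∈ T.filter (fun z => z.length % (5 * s) = 0 ∧ z.length / (5 * s) % (B + 1) = ρ),
        (Nz s B T w z).card : ℕ) : ℝ) * (1 / (Z s : ℝ)) ^ B + (2 * n + 10) := by
    intro hg
    refine hg.trans (le_of_eq ?_)
    generalize (∑ z ∈ T.filter
      (fun z => z.length % (5 * s) = 0 ∧ z.length / (5 * s) % (B + 1) = ρ),
        (Nz s B T w z).card) = q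
    generalize (1 / (Z s : ℝ)) ^ B = r
    push_cast
    ring
  by_cases hx : ∀ c : ℕ × ℕ, x c ≠ 0 → c.1 < B ∧ c.2 < 7 * s
  · apply hgoal
    obtain ⟨p, hp⟩ := mk_words w hw
    have hxe : xA ((Finset.range B ×ˢ Finset.range (7 * s)).filter fun c => x c ≠ 0) = x := by
      funext c
      simp only [xA, Finset.mem_filter, Finset.mem_product, Finset.mem_range]
      by_cases hc : x c = 0
      · rw [if_neg (by tauto), hc]
      · rw [if_pos ⟨hx c hc, hc⟩]
        have : ∀ a : ZMod 2, a ≠ 0 → 1 = a := by decide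
        exact this _ hc
    have := hη (((Finset.range B ×ˢ Finset.range (7 * s)).filter fun c => x c ≠ 0), p, ρ) (by
      simp only [I, Finset.mem_product, Finset.mem_powerset, Finset.mem_univ, Finset.mem_range,
        true_and]
      exact ⟨Finset.filter_subset _ _, hρ⟩)
    simp only at this
    rw [hxe, hp] at this
    exact this
  · push Not at hx
    obtain ⟨c, hc, hcB⟩ := hx
    have hX0 : ∀ z, Xz B T o0 x w z η = 0 := by
      intro z
      unfold Xz
      rw [Finset.card_eq_zero, Finset.filter_eq_empty_iff]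
      intro β _ he
      apply hc
      rw [← he]
      apply h4 s B hs (by omega)
      by_cases h : c.1 < B
      · exact Or.inr (hcB h)
      · exact Or.inl (not_lt.1 h)
    have hz : (∑ z ∈ T.filter
      (fun z => z.length % (5 * s) = 0 ∧ z.length / (5 * s) % (B + 1) = ρ),
        Xz B T o0 x w z η) = 0 := Finset.sum_eq_zero fun z _ => hX0 z
    rw [hz]
    generalize (∑ z ∈ T.filter
      (fun z => z.length % (5 * s) = 0 ∧ z.length / (5 * s) % (B + 1) = ρ),
        (Nz s B T w z).card) = q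
    have h5 : (0 : ℝ) ≤ (1 / (Z s : ℝ)) ^ B := pow_nonneg (by positivity) B
    generalize (1 / (Z s : ℝ)) ^ B = r at h5
    rw [Nat.cast_zero]
    positivity

end Pool.Agent.Work.MP_bf01b2_co.Bd
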