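import Pool.Agent.Work.MP_bf01b2_co.Bd.Stmts

set_option autoImplicit false

namespace Pool.Agent.Work.MP_bf01b2_co.Bd

open Classical

/-- Strings of length `< n`. -/
def mz_short : ℕ → Finset (List Bool)
  | 0 => ∅
  | n + 1 => insert [] ((mz_short n).image (List.cons true) ∪ (mz_short n).image (List.cons false))

theorem mz_mem_short (n : ℕ) : ∀ l : List Bool, l.length < n → l ∈ mz_short n := by
  induction n with
  | zero => intro l h; omega
  | succ n ih =>
    intro l h
    unfold mz_short
    rw [Finset.mem_insert]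
    cases l with
    | nil => exact Or.inl rfl
    | cons b l =>
      right
      rw [List.length_cons] at h
      rw [Finset.mem_union, Finset.mem_image, Finset.mem_image]
      cases b with
      | true => exact Or.inl ⟨l, ih l (by omega), rfl⟩
      | false => exact Or.inr ⟨l, ih l (by omega), rfl⟩

theorem mz_card_short (n : ℕ) : (mz_short n).card + 1 ≤ 2 ^ n := by
  induction n with
  | zero => simp [mz_short]
  | succ n ih =>
    have h0 : mz_short (n + 1) =
        insert [] ((mz_short n).image (List.cons true) ∪ (mz_short n).image (List.cons false)) :=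
      rfl
    have h1 : (mz_short (n + 1)).card ≤ ((mz_short n).card + (mz_short n).card) + 1 := by
      rw [h0]
      exact (Finset.card_insert_le _ _).trans (Nat.succ_le_succ
        ((Finset.card_union_le _ _).trans (Nat.add_le_add Finset.card_image_le
          Finset.card_image_le)))
    rw [pow_succ]
    omega

theorem mz_count (s B : ℕ) (T : Finset (List Bool)) (w z : List Bool) (hs : 0 < s)
    (hz : z.length % (5 * s) = 0) : (Nz s B T w z).card ≤ 2 ^ (5 * s * (B + 1)) := by
  have h1 : (Nz s B T w z).card ≤ (mz_short (5 * s * (B + 1))).card := by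
    refine Finset.card_le_card_of_injOn (fun β => β.drop z.length) ?_ ?_
    · intro β hβ
      have hβ' := (Finset.mem_filter.1 (Finset.mem_coe.1 hβ)).2
      refine Finset.mem_coe.2 (mz_mem_short _ _ ?_)
      rw [List.length_drop]
      have q1 := Nat.div_add_mod β.length (5 * s)
      have q2 := Nat.mod_lt β.length (by omega : 0 < 5 * s)
      have q3 := Nat.div_add_mod z.length (5 * s)
      rw [hβ'.2.1] at q1
      rw [hz] at q3
      have q4 : 5 * s * (z.length / (5 * s) + B) = 5 * s * (z.length / (5 * s)) + 5 * s * B := by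
        ring
      have q5 : 5 * s * (B + 1) = 5 * s * B + 5 * s := by ring
      omega
    · intro β hβ β' hβ' h
      have h1 := (Finset.mem_filter.1 (Finset.mem_coe.1 hβ)).2.2.2.1
      have h2 := (Finset.mem_filter.1 (Finset.mem_coe.1 hβ')).2.2.2.1
      have h3 : β.drop z.length = β'.drop z.length := h
      rw [← List.take_append_drop z.length β, ← List.take_append_drop z.length β', h1, h2, h3]
  have h2 := mz_card_short (5 * s * (B + 1))
  omega

theorem mz_exp {x : ℝ} (h0 : 0 ≤ x) (h1 : x ≤ 1) : Real.exp x ≤ 1 + 2 * x := by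
  have h := Real.exp_bound' h0 h1 (n := 2) (by norm_num)
  norm_num [Finset.sum_range_succ, Nat.factorial] at h
  nlinarith

theorem momZ (h : ProbS) : MomZ := by
  intro s B T o0 x w z hs hB hT hw hz hZ ω
  set N := Nz s B T w z with hN
  set Ωc : ℝ := (Fintype.card ({y // y ∈ T} → Opt s) : ℝ) with hΩc
  set p : ({y // y ∈ T} → Opt s) → List Bool → Prop := fun η β =>
    P B (ex T o0 (mix (Rz s B T z) η ω)) (β ++ w) = x with hp
  set θ : ℝ := 1 / (Z s : ℝ) with hθ
  have hZpos : 0 < Z s := by
    by_contra h0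
    have h1 : Z s = 0 := by omega
    rw [h1, zero_pow (by omega)] at hZ
    have := Nat.pos_of_ne_zero (pow_ne_zero (5 * s * (B + 1)) (by norm_num : (2 : ℕ) ≠ 0))
    omega
  have hZr : (0 : ℝ) < Z s := by exact_mod_cast hZpos
  have hθpos : 0 < θ := by positivity
  have hΩpos : 0 ≤ Ωc := Nat.cast_nonneg _
  -- expansion
  have e1 : ∀ η, (2 : ℝ) ^ Xz B T o0 x w z (mix (Rz s B T z) η ω) =
      ∑ S ∈ N.powerset, if ∀ β ∈ S, p η β then (1 : ℝ) else 0 := by
    intro η
    have q1 : N.powerset.filter (fun S => ∀ β ∈ S, p η β) = (N.filter (p η)).powerset := by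
      ext S
      rw [Finset.mem_filter, Finset.mem_powerset, Finset.mem_powerset]
      constructor
      · rintro ⟨a, b⟩ β hβ
        exact Finset.mem_filter.2 ⟨a hβ, b β hβ⟩
      · intro a
        exact ⟨fun β hβ => (Finset.mem_filter.1 (a hβ)).1,
          fun β hβ => (Finset.mem_filter.1 (a hβ)).2⟩
    rw [← Finset.sum_filter, q1, Finset.sum_const, Finset.card_powerset, nsmul_eq_mul, mul_one]
    push_cast
    rfl
  have e2 : ∑ η : {y // y ∈ T} → Opt s, (2 : ℝ) ^ Xz B T o0 x w z (mix (Rz s B T z) η ω) =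
      ∑ S ∈ N.powerset, ((Finset.univ.filter fun η => ∀ β ∈ S, p η β).card : ℝ) := by
    rw [Finset.sum_congr rfl fun η _ => e1 η, Finset.sum_comm]
    refine Finset.sum_congr rfl fun S _ => ?_
    rw [← Finset.sum_filter, Finset.sum_const, nsmul_eq_mul, mul_one]
  set y : ℝ := θ ^ (B - 1) with hy
  have hypos : 0 < y := by positivity
  have e3 : ∀ S ∈ N.powerset, ((Finset.univ.filter fun η => ∀ β ∈ S, p η β).card : ℝ) ≤
      (θ * y ^ S.card + if S = ∅ then 1 - θ else 0) * Ωc := by
    intro S hS
    by_cases hS0 : S = ∅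
    · rw [if_pos hS0, hS0, Finset.card_empty, pow_zero]
      have q : (θ * 1 + (1 - θ)) * Ωc = Ωc := by ring
      rw [q]
      have q2 := Finset.card_le_univ
        (Finset.univ.filter fun η : {y // y ∈ T} → Opt s => ∀ β ∈ (∅ : Finset (List Bool)), p η β)
      rw [hΩc]
      exact_mod_cast q2
    · rw [if_neg hS0, add_zero]
      have q := h s B T o0 x w z hs hB hT hw hz ω S (Finset.mem_powerset.1 hS)
        (Finset.nonempty_iff_ne_empty.2 hS0)
      refine q.trans (le_of_eq ?_)
      rw [hy, ← pow_mul, pow_succ]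
      ring
  rw [e2]
  refine (Finset.sum_le_sum e3).trans ?_
  rw [← Finset.sum_mul]
  refine mul_le_mul_of_nonneg_right ?_ hΩpos
  rw [Finset.sum_add_distrib, ← Finset.mul_sum]
  have e4 : ∑ S ∈ N.powerset, y ^ S.card = (1 + y) ^ N.card := by
    have q := Finset.sum_pow_mul_eq_add_pow y (1 : ℝ) N
    simp only [one_pow, mul_one] at q
    rw [q, add_comm]
  have e5 : ∑ S ∈ N.powerset, (if S = ∅ then 1 - θ else 0) = 1 - θ := by
    rw [Finset.sum_ite_eq' N.powerset ∅ (fun _ => 1 - θ), if_pos (Finset.empty_mem_powerset N)]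
  rw [e4, e5]
  have hNy : (N.card : ℝ) * y ≤ 1 := by
    have q1 : N.card ≤ Z s ^ (B - 1) := (mz_count s B T w z hs hz).trans hZ
    have q2 : (N.card : ℝ) ≤ (Z s : ℝ) ^ (B - 1) := by exact_mod_cast q1
    rw [hy, hθ, one_div, inv_pow, ← div_eq_mul_inv, div_le_one (by positivity)]
    exact q2
  have e6 : (1 + y) ^ N.card ≤ 1 + 2 * ((N.card : ℝ) * y) := by
    have q1 : (1 + y) ^ N.card ≤ Real.exp ((N.card : ℝ) * y) := by
      rw [Real.exp_nat_mul]
      refine pow_le_pow_left₀ (by positivity) ?_ _
      have := Real.add_one_le_exp y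
      linarith
    exact q1.trans (mz_exp (by positivity) hNy)
  have e7 : θ * (2 * ((N.card : ℝ) * y)) = 2 * ((N.card : ℝ) * θ ^ B) := by
    have q : θ ^ B = θ * y := by
      rw [hy, ← pow_succ']
      congr 1
      omega
    rw [q]
    ring
  nlinarith [mul_le_mul_of_nonneg_left e6 hθpos.le]

end Pool.Agent.Work.MP_bf01b2_co.Bd
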