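import Pool.Agent.Work.MP_bf01b2_co.Bd.Stmts

/-!
# MP_bf01b2_co : item NE, the near lemma
-/

set_option autoImplicit false

namespace Pool.Agent.Work.MP_bf01b2_co.Bd

open Finset

theorem ne_take {u v : List Bool} {a b : ℕ} (h : u.take b = v.take b) (hab : a ≤ b) :
    u.take a = v.take a := by
  have h1 := congrArg (List.take a) h
  rwa [List.take_take, List.take_take, min_eq_left hab] at h1

theorem ne_getD {u v : List Bool} {b i : ℕ} (h : u.take b = v.take b) (hi : i < b) :
    u.getD i false = v.getD i false := by
  have h1 : ∀ w : List Bool, w.getD i false = (w.take b).getD i false := by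
    intro w
    rw [List.getD_eq_getElem?_getD, List.getD_eq_getElem?_getD, List.getElem?_take_of_lt hi]
  rw [h1 u, h1 v, h]

theorem ne_ext {u v : List Bool} {b : ℕ} (hu : b ≤ u.length) (hv : b ≤ v.length)
    (h : ∀ i < b, u.getD i false = v.getD i false) : u.take b = v.take b := by
  refine List.ext_getElem (by simp [hu, hv]) fun i h1 h2 => ?_
  have h3 : i < b := by
    rw [List.length_take] at h1
    omega
  have h4 := h i h3
  rw [List.getD_eq_getElem _ _ (by omega), List.getD_eq_getElem _ _ (by omega)] at h4
  rw [List.getElem_take, List.getElem_take]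
  exact h4

theorem ne_Q (h4 : LbBasic) {s : ℕ} (o : Opt s) (x y : ℕ → Bool) (l j : ℕ)
    (h : ∀ i < l, x i = y i) : Q o x l j = Q o y l j := by
  rw [Q, Q]
  refine Finset.sum_congr rfl fun i hi => ?_
  have hi2 := Finset.mem_range.1 hi
  have h1 : fl o x i = fl o y i := by
    rw [fl, fl, h4.2.1 (nA o) x y i fun j hj => h j (by omega)]
  rw [h1]

theorem ne_mod {B K k : ℕ} (h1 : K < k) (h2 : k < K + B) : k % B ≠ K % B := by
  intro h
  have h3 : K ≡ k [MOD B] := h.symm
  have h4 : B ∣ k - K := (Nat.modEq_iff_dvd' h1.le).1 h3
  have h5 := Nat.le_of_dvd (by omega) h4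
  omega

theorem ne_decomp (h3 : Decomp) {s B : ℕ} (hs : 0 < s) (ω : List Bool → Opt s) (u : List Bool)
    (K j : ℕ) (hK : K * (5 * s) ≤ u.length) (hu : u.length < (K + B) * (5 * s)) :
    P B ω u (K % B, j) = (∑ k ∈ range K, if k % B = K % B then
      Q (ω (u.take (k * (5 * s)))) (bits s k u) (min (5 * s) (u.length - k * (5 * s))) j else 0) +
      Q (ω (u.take (K * (5 * s)))) (bits s K u) (min (5 * s) (u.length - K * (5 * s))) j := by
  have h0 : 0 < 5 * s := by omega
  rw [h3 s B hs ω u (K % B) j]
  have h1 : K ≤ u.length / (5 * s) := (Nat.le_div_iff_mul_le h0).2 hK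
  have h2 : u.length / (5 * s) < K + B := (Nat.div_lt_iff_lt_mul h0).2 hu
  have h4 : range (K + 1) ⊆ range (u.length / (5 * s) + 1) := by
    intro k hk
    rw [Finset.mem_range] at hk ⊢
    omega
  rw [← Finset.sum_subset h4, Finset.sum_range_succ, if_pos rfl]
  intro k hk hk2
  rw [Finset.mem_range] at hk hk2
  rw [if_neg (ne_mod (by omega) (by omega))]

theorem near (h1 : BlkInj) (h2 : QSet) (h3 : Decomp) (h4 : LbBasic) : Near := by
  intro s B hs _ ω u v K hP
  have h0 : 0 < 5 * s := by omega
  have key : ∀ d K : ℕ, u.length < (K + d) * (5 * s) → K * (5 * s) ≤ u.length →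
      K * (5 * s) ≤ v.length → u.take (K * (5 * s)) = v.take (K * (5 * s)) →
      u.length < (K + B) * (5 * s) → v.length < (K + B) * (5 * s) → SameBlk u v := by
    intro d
    induction d with
    | zero =>
      intro K hd hKu
      rw [add_zero] at hd
      omega
    | succ d ih =>
      intro K hd hKu hKv htake hu hv
      have hQ : ∀ j < 7 * s, Q (ω (u.take (K * (5 * s)))) (bits s K u)
          (min (5 * s) (u.length - K * (5 * s))) j = Q (ω (u.take (K * (5 * s)))) (bits s K v)
          (min (5 * s) (v.length - K * (5 * s))) j := by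
        intro j _
        have h5 := congrFun hP (K % B, j)
        rw [ne_decomp h3 hs ω u K j hKu hu, ne_decomp h3 hs ω v K j hKv hv, ← htake] at h5
        have h6 : (∑ k ∈ range K, if k % B = K % B then
            Q (ω (u.take (k * (5 * s)))) (bits s k u) (min (5 * s) (u.length - k * (5 * s))) j
              else 0) = ∑ k ∈ range K, if k % B = K % B then
            Q (ω (v.take (k * (5 * s)))) (bits s k v) (min (5 * s) (v.length - k * (5 * s))) j
              else 0 := by
          refine Finset.sum_congr rfl fun k hk => ?_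
          have hk2 : (k + 1) * (5 * s) ≤ K * (5 * s) :=
            Nat.mul_le_mul_right _ (Finset.mem_range.1 hk)
          have hk3 : (k + 1) * (5 * s) = k * (5 * s) + 5 * s := by ring
          have h7 : min (5 * s) (u.length - k * (5 * s)) = 5 * s := by omega
          have h8 : min (5 * s) (v.length - k * (5 * s)) = 5 * s := by omega
          rw [h7, h8, ne_take htake (by omega : k * (5 * s) ≤ K * (5 * s))]
          rw [ne_Q h4 (ω (v.take (k * (5 * s)))) (bits s k u) (bits s k v) (5 * s) j]
          intro i hi
          exact ne_getD htake (by omega)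
        rw [h6] at h5
        exact add_left_cancel h5
      have hset := h2 s _ _ _ _ _ (min_le_left _ _) (min_le_left _ _) hQ
      obtain ⟨hl, hbits⟩ := h1 _ _ _ _ _ hset
      by_cases hcase : min (5 * s) (u.length - K * (5 * s)) / 5 = s
      · have h5 : 5 * s ≤ u.length - K * (5 * s) := by omega
        have h6 : 5 * s ≤ v.length - K * (5 * s) := by omega
        have h7 : (K + 1) * (5 * s) = K * (5 * s) + 5 * s := by ring
        have h8 : (K + 1 + B) * (5 * s) = (K + B) * (5 * s) + 5 * s := by ring
        refine ih (K + 1) ?_ (by omega) (by omega) ?_ (by omega) (by omega)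
        · have h9 : K + 1 + d = K + (d + 1) := by ring
          rw [h9]
          exact hd
        · refine ne_ext (by omega) (by omega) fun i hi => ?_
          by_cases hi2 : i < K * (5 * s)
          · exact ne_getD htake hi2
          · have h10 := hbits (i - K * (5 * s)) (by omega)
            simp only [bits] at h10
            rwa [Nat.add_sub_cancel' (by omega)] at h10
      · have h5 : min (5 * s) (u.length - K * (5 * s)) = u.length - K * (5 * s) := by omega
        have h6 : min (5 * s) (v.length - K * (5 * s)) = v.length - K * (5 * s) := by omega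
        rw [h5] at hbits
        rw [h5, h6] at hl
        have h7 : K * (5 * s) = 5 * (K * s) := by ring
        refine ⟨by omega, ?_⟩
        have h8 : u.length / 5 = v.length / 5 := by omega
        rw [← h8]
        refine ne_ext (Nat.mul_div_le _ _) (by rw [h8]; exact Nat.mul_div_le _ _) fun i hi => ?_
        by_cases hi2 : i < K * (5 * s)
        · exact ne_getD htake hi2
        · have h10 := hbits (i - K * (5 * s)) (by omega)
          simp only [bits] at h10
          rwa [Nat.add_sub_cancel' (by omega)] at h10
  intro hKu hKv htake hu hv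
  exact key B K hu hKu hKv htake hu hv

theorem nearP (h : Near) : NearP := by
  intro s B D hs hB hD ω T u _ v _ hP t htu htv htake hu hv
  have h0 : 0 < 5 * s := by omega
  have h1 : t / (5 * s) * (5 * s) ≤ t := Nat.div_mul_le_self _ _
  have h2 : t < (t / (5 * s) + 1) * (5 * s) := by
    rw [mul_comm]
    exact Nat.lt_mul_div_succ t h0
  obtain ⟨C, rfl⟩ := Nat.exists_eq_add_of_le hB
  have h3 : 2 + C - 2 = C := by omega
  rw [h3] at hD
  have h4 : (t / (5 * s) + (2 + C)) * (5 * s) = (t / (5 * s) + 1) * (5 * s) + C * (5 * s) + 5 * s := by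
    ring
  refine h s (2 + C) hs (by omega) ω u v (t / (5 * s)) hP (h1.trans htu) (h1.trans htv)
    (ne_take htake h1) (by omega) (by omega)

end Pool.Agent.Work.MP_bf01b2_co.Bd
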