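import Pool.Agent.Work.MP_bf01b2_co.Bd.Stmts

/-!
# MP_bf01b2_co, `n + O(1)` : item NU, choice of the parameters
-/

set_option autoImplicit false

namespace Pool.Agent.Work.MP_bf01b2_co.Bd

theorem nu_pow (L : ℕ) (hL : 41 ≤ L) : 1000000 * L ^ 2 ≤ 2 ^ (L - 1) := by
  induction L, hL using Nat.le_induction with
  | base => norm_num
  | succ L hL ih =>
    have h1 : 2 ^ (L + 1 - 1) = 2 * 2 ^ (L - 1) := by
      rw [← pow_succ']
      congr 1
      omega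
    rw [h1]
    nlinarith

theorem nu_r : ((823543 : ℝ) / 884736) ^ 10 ≤ 1 / 2 := by norm_num

/-- Lower bound for the powers of `Z`. -/
theorem nu_Z (h : ZLow) (L k : ℕ) (hk : k ≤ 2 ^ L) :
    (2 : ℝ) ^ (7 * (10 * (L + 4)) * k) ≤ 2 * (Z (10 * (L + 4)) : ℝ) ^ k := by
  have h1 := h (10 * (L + 4))
  have h2 : ((823543 : ℝ) / 884736) ^ (10 * (L + 4)) ≤ (1 / 2) ^ (L + 4) := by
    rw [pow_mul]
    exact pow_le_pow_left₀ (by positivity) nu_r _
  set δ : ℝ := 2 * ((823543 : ℝ) / 884736) ^ (10 * (L + 4)) with hδ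
  have hδ0 : 0 ≤ δ := by positivity
  have h3 : δ ≤ 1 / (8 * 2 ^ L) := by
    have h4 : (1 / 2 : ℝ) ^ (L + 4) = 1 / (16 * 2 ^ L) := by
      rw [pow_add, one_div_pow, one_div_pow]
      norm_num
    rw [h4] at h2
    have h5 : (2 : ℝ) * (1 / (16 * 2 ^ L)) = 1 / (8 * 2 ^ L) := by
      field_simp
      norm_num
    rw [hδ, ← h5]
    linarith
  have hL1 : (1 : ℝ) ≤ 2 ^ L := one_le_pow₀ (by norm_num)
  have h6 : δ ≤ 1 / 8 := by
    refine h3.trans ?_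
    apply one_div_le_one_div_of_le (by norm_num)
    linarith
  have hkδ : (k : ℝ) * δ ≤ 1 / 8 := by
    have hk' : (k : ℝ) ≤ 2 ^ L := by exact_mod_cast hk
    calc (k : ℝ) * δ ≤ 2 ^ L * (1 / (8 * 2 ^ L)) :=
          mul_le_mul hk' h3 hδ0 (by positivity)
      _ = 1 / 8 := by field_simp
  have h7 : 1 + (k : ℝ) * (-δ) ≤ (1 + -δ) ^ k := one_add_mul_le_pow (by linarith) k
  have h8 : ((2 : ℝ) ^ (7 * (10 * (L + 4))) * (1 - δ)) ^ k ≤ (Z (10 * (L + 4)) : ℝ) ^ k :=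
    pow_le_pow_left₀ (mul_nonneg (by positivity) (by linarith)) h1 k
  rw [mul_pow, ← pow_mul] at h8
  have h9 : (1 : ℝ) / 2 ≤ (1 - δ) ^ k := by
    have : (1 + -δ) = 1 - δ := by ring
    rw [this] at h7
    linarith
  have h10 : (2 : ℝ) ^ (7 * (10 * (L + 4)) * k) * (1 / 2) ≤
      2 ^ (7 * (10 * (L + 4)) * k) * (1 - δ) ^ k :=
    mul_le_mul_of_nonneg_left h9 (by positivity)
  linarith

theorem params (h : ZLow) : Params := by
  refine ⟨2 ^ 40, ?_⟩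
  intro n hn
  have hn0 : n ≠ 0 := by
    have : 0 < 2 ^ 40 := by positivity
    omega
  set L := Nat.log 2 n + 1 with hL
  have hL1 : n < 2 ^ L := Nat.lt_pow_succ_log_self (by norm_num) n
  have hL2 : 2 ^ (L - 1) ≤ n := by
    rw [hL, Nat.add_sub_cancel]
    exact Nat.pow_log_le_self 2 hn0
  have hL3 : 41 ≤ L := by
    have : 40 ≤ Nat.log 2 n := Nat.le_log_of_pow_le (by norm_num) hn
    omega
  have hL4 : 1000000 * L ^ 2 ≤ n := (nu_pow L hL3).trans hL2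
  clear_value L
  clear hn hL2 hL
  obtain ⟨s, hs⟩ : ∃ s, s = 10 * (L + 4) := ⟨_, rfl⟩
  obtain ⟨B, hB⟩ : ∃ B, B = (n - 2 * L - 10) / (7 * s) := ⟨_, rfl⟩
  have hs0 : 0 < 7 * s := by omega
  have hLL : 41 * L ≤ L ^ 2 := by nlinarith
  -- `7 * s * B` is close to `n`
  have hup : 7 * s * B ≤ n - 2 * L - 10 := by
    rw [hB]
    exact Nat.mul_div_le _ _
  have hlo : n - 2 * L - 10 < 7 * s * B + 7 * s := by
    have := Nat.lt_mul_div_succ (n - 2 * L - 10) hs0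
    rw [← hB] at this
    linarith [Nat.mul_succ (7 * s) B]
  have hB7 : 7 ≤ B := by
    rw [hB, Nat.le_div_iff_mul_le hs0]
    omega
  have hBn : B ≤ 2 ^ L := by
    have h1 : B ≤ 7 * s * B := Nat.le_mul_of_pos_left _ hs0
    omega
  refine ⟨s, B, by omega, by omega, by omega, ?_, ?_, ?_, by omega, ?_⟩
  · -- `2 ^ (5 s (B + 1)) ≤ Z ^ (B - 1)`
    have h1 := nu_Z h L (B - 1) (by omega)
    rw [← hs] at h1
    have h2 : 5 * s * (B + 1) + 1 ≤ 7 * s * (B - 1) := by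
      obtain ⟨b, rfl⟩ : ∃ b, B = b + 7 := ⟨B - 7, by omega⟩
      have e1 : b + 7 - 1 = b + 6 := by omega
      rw [e1]
      have e2 : 5 * s * (b + 7 + 1) = 5 * (s * b) + 40 * s := by ring
      have e3 : 7 * s * (b + 6) = 7 * (s * b) + 42 * s := by ring
      rw [e2, e3]
      omega
    have h3 : (2 : ℝ) ^ (5 * s * (B + 1) + 1) ≤ 2 ^ (7 * s * (B - 1)) :=
      pow_le_pow_right₀ (by norm_num) h2
    rw [pow_succ] at h3
    have h4 : (2 : ℝ) ^ (5 * s * (B + 1)) ≤ (Z s : ℝ) ^ (B - 1) := by linarith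
    exact_mod_cast h4
  · have h1 := nu_Z h L B hBn
    rw [← hs] at h1
    exact_mod_cast h1
  · -- `(B + 1) (2 n + 10) ≤ 2 ^ (n - 7 s B)`
    have h1 : 2 ^ (2 * L + 10) ≤ 2 ^ (n - 7 * s * B) :=
      Nat.pow_le_pow_right (by norm_num) (by omega)
    refine le_trans ?_ h1
    have h2 : 2 ^ (2 * L + 10) = 1024 * (2 ^ L * 2 ^ L) := by
      rw [pow_add, two_mul, pow_add]
      norm_num
      ring
    rw [h2]
    have h3 : B + 1 ≤ 2 * n := by
      have h1 : B ≤ 7 * s * B := Nat.le_mul_of_pos_left _ hs0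
      omega
    have h4 : 2 * n + 10 ≤ 12 * n := by omega
    have h5 : n * n ≤ 2 ^ L * 2 ^ L := Nat.mul_le_mul hL1.le hL1.le
    calc (B + 1) * (2 * n + 10) ≤ (2 * n) * (12 * n) := Nat.mul_le_mul h3 h4
      _ = 24 * (n * n) := by ring
      _ ≤ 1024 * (2 ^ L * 2 ^ L) := by omega
  · -- `20 (n - 7 s B - 36) ^ 2 ≤ (B - 2) 5 s`
    have h1 : n - 7 * s * B + 9 - 45 ≤ 80 * L := by omega
    have h2 : 20 * (n - 7 * s * B + 9 - 45) ^ 2 ≤ 20 * (80 * L) ^ 2 :=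
      Nat.mul_le_mul_left _ (Nat.pow_le_pow_left h1 2)
    refine h2.trans ?_
    obtain ⟨b, hb⟩ : ∃ b, B = b + 2 := ⟨B - 2, by omega⟩
    have e1 : B - 2 = b := by omega
    rw [e1]
    have e2 : 7 * s * B = 7 * (b * s) + 14 * s := by rw [hb]; ring
    have e3 : b * (5 * s) = 5 * (b * s) := by ring
    rw [e3]
    have e4 : 20 * (80 * L) ^ 2 = 128000 * L ^ 2 := by ring
    rw [e4]
    rw [e2] at hlo
    omega

end Pool.Agent.Work.MP_bf01b2_co.Bd
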