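import Pool.Agent.Work.MP_bf01b2_co.Bd.Stmts

/-!
# MP_bf01b2_co : item PE, peeling for product averages
-/

set_option autoImplicit false

namespace Pool.Agent.Work.MP_bf01b2_co.Bd

theorem pe_mix_mix {ι Ω : Type} [DecidableEq ι] (R : Finset ι) (η ω : ι → Ω) :
    mix R (mix R η ω) (mix R ω η) = η := by
  funext i
  simp only [mix]
  split_ifs <;> rfl

/-- The swap `(η, ω) ↦ (mix R η ω, mix R ω η)`. -/
def peSwap {ι Ω : Type} [DecidableEq ι] (R : Finset ι) : (ι → Ω) × (ι → Ω) ≃ (ι → Ω) × (ι → Ω) where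
  toFun p := (mix R p.1 p.2, mix R p.2 p.1)
  invFun p := (mix R p.1 p.2, mix R p.2 p.1)
  left_inv := fun p => Prod.ext (pe_mix_mix R p.1 p.2) (pe_mix_mix R p.2 p.1)
  right_inv := fun p => Prod.ext (pe_mix_mix R p.1 p.2) (pe_mix_mix R p.2 p.1)

theorem pe_sum {ι Ω : Type} [Fintype ι] [DecidableEq ι] [Fintype Ω] (R : Finset ι)
    (g : (ι → Ω) → ℝ) :
    ∑ ω : ι → Ω, ∑ η : ι → Ω, g (mix R η ω) = Fintype.card (ι → Ω) * ∑ ω : ι → Ω, g ω := by
  classical
  have h1 : ∑ ω : ι → Ω, ∑ η : ι → Ω, g (mix R η ω) =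
      ∑ p : (ι → Ω) × (ι → Ω), g (mix R p.1 p.2) := by
    rw [Fintype.sum_prod_type, Finset.sum_comm]
  have h2 : ∑ p : (ι → Ω) × (ι → Ω), g (mix R p.1 p.2) = ∑ p : (ι → Ω) × (ι → Ω), g p.1 :=
    Fintype.sum_equiv (peSwap R) _ _ fun p => rfl
  rw [h1, h2, Fintype.sum_prod_type, Finset.sum_comm]
  simp

theorem peel : Peel := by
  intro ι Ω ζ _ _ _ _ Zs rk R f c hf hc hz
  classical
  induction Zs using Finset.strongInduction with
  | H Zs ih =>
    intro hloc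
    rcases Zs.eq_empty_or_nonempty with rfl | hne
    · simp
    · obtain ⟨z, hzZ, hmax⟩ := Finset.exists_max_image Zs rk hne
      have hcard : (0 : ℝ) < Fintype.card (ι → Ω) := by
        exact_mod_cast Fintype.card_pos
      have h1 : ∀ η ω : ι → Ω, ∏ z' ∈ Zs.erase z, f z' (mix (R z) η ω) =
          ∏ z' ∈ Zs.erase z, f z' ω := by
        intro η ω
        refine Finset.prod_congr rfl fun z' hz' => ?_
        have hz'2 := Finset.mem_of_mem_erase hz'
        refine hloc z hzZ z' hz'2 (Finset.ne_of_mem_erase hz') (hmax z' hz'2) _ _ ?_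
        intro i hi
        simp only [mix, if_neg hi]
      have h2 := pe_sum (R z) fun ω => ∏ z' ∈ Zs, f z' ω
      have h3 : ∀ ω, ∏ z' ∈ Zs, f z' ω = f z ω * ∏ z' ∈ Zs.erase z, f z' ω := fun ω =>
        (Finset.mul_prod_erase Zs (fun z' => f z' ω) hzZ).symm
      have h4 : ∑ ω : ι → Ω, ∑ η : ι → Ω, ∏ z' ∈ Zs, f z' (mix (R z) η ω) ≤
          c z * Fintype.card (ι → Ω) * ∑ ω : ι → Ω, ∏ z' ∈ Zs.erase z, f z' ω := by
        rw [Finset.mul_sum]
        refine Finset.sum_le_sum fun ω _ => ?_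
        have h5 : ∑ η : ι → Ω, ∏ z' ∈ Zs, f z' (mix (R z) η ω) =
            (∑ η : ι → Ω, f z (mix (R z) η ω)) * ∏ z' ∈ Zs.erase z, f z' ω := by
          rw [Finset.sum_mul]
          refine Finset.sum_congr rfl fun η _ => ?_
          rw [h3, h1]
        rw [h5]
        exact mul_le_mul_of_nonneg_right (hz z hzZ ω) (Finset.prod_nonneg fun z' _ => hf z' ω)
      rw [h2] at h4
      have h5 : ∑ ω : ι → Ω, ∏ z' ∈ Zs, f z' ω ≤
          c z * ∑ ω : ι → Ω, ∏ z' ∈ Zs.erase z, f z' ω := by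
        refine le_of_mul_le_mul_left ?_ hcard
        calc (Fintype.card (ι → Ω) : ℝ) * ∑ ω : ι → Ω, ∏ z' ∈ Zs, f z' ω
            ≤ c z * Fintype.card (ι → Ω) * ∑ ω : ι → Ω, ∏ z' ∈ Zs.erase z, f z' ω := h4
          _ = Fintype.card (ι → Ω) * (c z * ∑ ω : ι → Ω, ∏ z' ∈ Zs.erase z, f z' ω) := by ring
      have h6 := ih (Zs.erase z) (Finset.erase_ssubset hzZ)
        (fun z' hz' => hz z' (Finset.mem_of_mem_erase hz'))
        (fun z1 hz1 z2 hz2 => hloc z1 (Finset.mem_of_mem_erase hz1) z2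
          (Finset.mem_of_mem_erase hz2))
      calc ∑ ω : ι → Ω, ∏ z' ∈ Zs, f z' ω
          ≤ c z * ∑ ω : ι → Ω, ∏ z' ∈ Zs.erase z, f z' ω := h5
        _ ≤ c z * ((∏ z' ∈ Zs.erase z, c z') * Fintype.card (ι → Ω)) :=
            mul_le_mul_of_nonneg_left h6 (hc z)
        _ = (∏ z' ∈ Zs, c z') * Fintype.card (ι → Ω) := by
            rw [← Finset.mul_prod_erase Zs c hzZ, mul_assoc]

end Pool.Agent.Work.MP_bf01b2_co.Bd
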