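import Pool.Agent.Work.MP_bf01b2_co.Bd.Stmts

/-!
# MP_bf01b2_co, `n + O(1)` : item PP, product bound
-/

set_option autoImplicit false

namespace Pool.Agent.Work.MP_bf01b2_co.Bd

open Classical

theorem prodCount : ProdCount := by
  intro ι Ω _ _ _ Y E θ hθ hE
  have h1 : (Finset.univ.filter fun η : ι → Ω => ∀ i ∈ Y, η i ∈ E i) =
      Fintype.piFinset (fun i => if i ∈ Y then E i else Finset.univ) := by
    ext η
    simp only [Finset.mem_filter, Finset.mem_univ, true_and, Fintype.mem_piFinset]
    constructor
    · intro h i
      split_ifs with hi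
      · exact h i hi
      · exact Finset.mem_univ _
    · intro h i hi
      have := h i
      rwa [if_pos hi] at this
  rw [h1, Fintype.card_piFinset]
  push_cast
  have h2 : ∀ i ∈ (Finset.univ : Finset ι),
      (((if i ∈ Y then E i else Finset.univ : Finset Ω).card : ℕ) : ℝ) ≤
        (if i ∈ Y then θ else 1) * (Fintype.card Ω : ℝ) := by
    intro i _
    split_ifs with hi
    · exact hE i hi
    · rw [one_mul, Finset.card_univ]
  refine (Finset.prod_le_prod (fun i _ => by positivity) h2).trans ?_
  rw [Finset.prod_mul_distrib, Finset.prod_ite, Finset.prod_const, Finset.prod_const,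
    Finset.prod_const, one_pow, mul_one, Fintype.card_fun, Finset.card_univ]
  have h3 : (Finset.univ.filter fun i => i ∈ Y) = Y := by
    ext i
    simp
  rw [h3]
  push_cast
  exact le_rfl

end Pool.Agent.Work.MP_bf01b2_co.Bd
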