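import Pool.Agent.Work.MP_bf01b2_co.Bd.Stmts

/-!
# MP_bf01b2_co, `n + O(1)`, item PS: probability that all block roots of `S` are matched
-/

set_option autoImplicit false

namespace Pool.Agent.Work.MP_bf01b2_co.Bd

/-- `Z s` is positive. -/
lemma ps_Zpos (s : ℕ) : 0 < Z s := by
  unfold Z
  rw [Fintype.card_pos_iff]
  obtain ⟨A, _, hA⟩ := Finset.exists_subset_card_eq
    (s := (Finset.univ : Finset (Fin (7 * s)))) (n := 3 * s) (by
      rw [Finset.card_univ, Fintype.card_fin]; omega)
  exact ⟨⟨A, by omega, by omega⟩⟩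

lemma ps_ex_mem {s : ℕ} (T : Finset (List Bool)) (o0 : Opt s) (η : {y // y ∈ T} → Opt s)
    (y : List Bool) (h : y ∈ T) : ex T o0 η y = η ⟨y, h⟩ := by
  unfold ex; rw [dif_pos h]

lemma ps_mod_eq (k0 B k k' : ℕ) (h1 : k0 ≤ k) (h2 : k < k0 + B) (h3 : k0 ≤ k')
    (h4 : k' < k0 + B) (h : k' % B = k % B) : k' = k := by
  have h5 := Nat.div_add_mod k B
  have h6 := Nat.div_add_mod k' B
  rw [h] at h6
  by_contra hne
  rcases Nat.lt_or_gt_of_ne hne with hlt | hlt
  · have : k' / B < k / B := by
      by_contra hcon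
      push Not at hcon
      have := Nat.mul_le_mul_left B hcon
      omega
    have := Nat.mul_le_mul_left B (show k' / B + 1 ≤ k / B by omega)
    rw [mul_add, mul_one] at this
    omega
  · have : k / B < k' / B := by
      by_contra hcon
      push Not at hcon
      have := Nat.mul_le_mul_left B hcon
      omega
    have := Nat.mul_le_mul_left B (show k / B + 1 ≤ k' / B by omega)
    rw [mul_add, mul_one] at this
    omega

lemma ps_abs {Ω : Type} [Fintype Ω] {p q : Ω → Prop} {ip : DecidablePred p}
    {iq : DecidablePred q} {c : ℝ} (h : ∀ η, p η → q η)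
    (hq : ((Finset.univ.filter q).card : ℝ) ≤ c) :
    ((Finset.univ.filter p).card : ℝ) ≤ c := by
  refine le_trans ?_ hq
  exact_mod_cast Finset.card_le_card (Finset.monotone_filter_right _ (fun η _ => h η))

theorem probS (h1 : Uni) (h2 : CardOpt) (h3 : Decomp) (h4 : Near) (h5 : ProdCount) : ProbS := by
  classical
  intro s B T o0 x w z hs hB hT hw hz ω S hS hSne
  set k0 := z.length / (5 * s) with hk0
  have hM : 0 < 5 * s := by omega
  have hz0 : z.length = k0 * (5 * s) := by
    have := Nat.div_add_mod' z.length (5 * s)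
    rw [hz, add_zero] at this
    exact this.symm
  -- facts about the elements of S
  have hβ : ∀ β ∈ S, β ∈ T ∧ β.length % 5 = 0 ∧ β.length / (5 * s) = k0 + B ∧
      β.take z.length = z ∧ β ++ w ∈ T := by
    intro β hb
    have := hS hb
    unfold Nz at this
    rw [Finset.mem_filter] at this
    exact this
  have hlow : ∀ β ∈ S, (k0 + B) * (5 * s) ≤ β.length := by
    intro β hb
    obtain ⟨_, _, h, _, _⟩ := hβ β hb
    rw [← h]
    exact Nat.div_mul_le_self _ _
  have hupp : ∀ β ∈ S, (β ++ w).length < (k0 + B + 1) * (5 * s) := by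
    intro β hb
    obtain ⟨_, h5', h, _, _⟩ := hβ β hb
    have h6 : β.length < (k0 + B + 1) * (5 * s) := by
      rw [← h]
      exact (Nat.div_lt_iff_lt_mul hM).1 (Nat.lt_succ_self _)
    rw [List.length_append]
    have h7 : (k0 + B + 1) * (5 * s) = 5 * ((k0 + B + 1) * s) := by ring
    omega
  have hslab : ∀ β ∈ S, (β ++ w).length / (5 * s) = k0 + B := by
    intro β hb
    apply Nat.div_eq_of_lt_le
    · rw [List.length_append]
      have := hlow β hb
      omega
    · exact hupp β hb
  have htake : ∀ β ∈ S, ∀ k ≤ k0 + B, (β ++ w).take (k * (5 * s)) = β.take (k * (5 * s)) := by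
    intro β hb k hk
    apply List.take_append_of_le_length
    exact (Nat.mul_le_mul_right _ hk).trans (hlow β hb)
  have hlen : ∀ β ∈ S, ∀ k ≤ k0 + B, (β.take (k * (5 * s))).length = k * (5 * s) := by
    intro β hb k hk
    rw [List.length_take]
    exact min_eq_left ((Nat.mul_le_mul_right _ hk).trans (hlow β hb))
  -- the options
  have hreg : ∀ β ∈ S, ∀ k, k0 ≤ k → k < k0 + B → ∀ h : β.take (k * (5 * s)) ∈ T,
      (⟨β.take (k * (5 * s)), h⟩ : {y // y ∈ T}) ∈ Rz s B T z := by
    intro β hb k hk hk' h
    unfold Rz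
    rw [Finset.mem_filter]
    have hl := hlen β hb k hk'.le
    refine ⟨Finset.mem_univ _, ?_, ?_, ?_, ?_⟩
    · dsimp only
      rw [hl, Nat.mul_mod_left]
    · dsimp only
      rw [hl, hz0]
      exact Nat.mul_le_mul_right _ hk
    · dsimp only
      rw [hl, hz0, ← add_mul]
      exact Nat.mul_lt_mul_of_pos_right hk' hM
    · dsimp only
      rw [List.take_take, min_eq_left]
      · exact (hβ β hb).2.2.2.1
      · rw [hz0]
        exact Nat.mul_le_mul_right _ hk
  have hnreg : ∀ β ∈ S, ∀ k ≤ k0 + B, (k < k0 ∨ k = k0 + B) → ∀ h : β.take (k * (5 * s)) ∈ T,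
      (⟨β.take (k * (5 * s)), h⟩ : {y // y ∈ T}) ∉ Rz s B T z := by
    intro β hb k hk hk' h hmem
    unfold Rz at hmem
    rw [Finset.mem_filter] at hmem
    obtain ⟨_, _, ha, hb', _⟩ := hmem
    dsimp only at ha hb'
    rw [hlen β hb k hk, hz0] at ha hb'
    rcases hk' with h' | h'
    · have := Nat.mul_lt_mul_of_pos_right h' hM
      omega
    · rw [h', ← add_mul] at hb'
      omega
  -- the target of the piece `k` on the path to `β`
  let W0 : List Bool → Opt s := ex T o0 ω
  let rest : List Bool → ℕ → ℕ → ZMod 2 := fun β k j =>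
    ∑ k' ∈ (Finset.range (k0 + B + 1)).erase k,
      if k' % B = k % B then
        Q (W0 ((β ++ w).take (k' * (5 * s)))) (bits s k' (β ++ w))
          (min (5 * s) ((β ++ w).length - k' * (5 * s))) j
      else 0
  let tgt : List Bool → ℕ → ℕ → ZMod 2 := fun β k j => x (k % B, j) - rest β k j
  -- consequence of a match
  have hmatch : ∀ η : {y // y ∈ T} → Opt s, ∀ β ∈ S,
      P B (ex T o0 (mix (Rz s B T z) η ω)) (β ++ w) = x →
      ∀ k, k0 ≤ k → k < k0 + B → ∀ h : β.take (k * (5 * s)) ∈ T,
        ∀ j, Q (η ⟨β.take (k * (5 * s)), h⟩) (bits s k (β ++ w)) (5 * s) j = tgt β k j := by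
    intro η β hb hP k hk hk' h j
    have hP' := congrFun hP (k % B, j)
    rw [h3 s B hs, hslab β hb,
      ← Finset.add_sum_erase _ _ (Finset.mem_range.2 (show k < k0 + B + 1 by omega))] at hP'
    have e1 : ex T o0 (mix (Rz s B T z) η ω) ((β ++ w).take (k * (5 * s))) =
        η ⟨β.take (k * (5 * s)), h⟩ := by
      rw [htake β hb k hk'.le, ps_ex_mem T o0 _ _ h]
      unfold mix
      rw [if_pos (hreg β hb k hk hk' h)]
    have e2 : min (5 * s) ((β ++ w).length - k * (5 * s)) = 5 * s := by
      apply min_eq_left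
      have := hlow β hb
      have h7 := Nat.mul_le_mul_right (5 * s) (show k + 1 ≤ k0 + B by omega)
      rw [add_mul, one_mul] at h7
      rw [List.length_append]
      omega
    have e3 : (∑ k' ∈ (Finset.range (k0 + B + 1)).erase k,
        if k' % B = k % B then
          Q (ex T o0 (mix (Rz s B T z) η ω) ((β ++ w).take (k' * (5 * s)))) (bits s k' (β ++ w))
            (min (5 * s) ((β ++ w).length - k' * (5 * s))) j
        else 0) = rest β k j := by
      apply Finset.sum_congr rfl
      intro k' hk''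
      rw [Finset.mem_erase, Finset.mem_range] at hk''
      split_ifs with hm
      · have h8 : k' < k0 ∨ k' = k0 + B := by
          by_contra hcon
          push Not at hcon
          exact hk''.1 (ps_mod_eq k0 B k k' hk hk' hcon.1 (by omega) hm)
        have hin : β.take (k' * (5 * s)) ∈ T := hT β (hβ β hb).1 _
        congr 1
        rw [htake β hb k' (by omega), ps_ex_mem T o0 _ _ hin]
        unfold mix
        rw [if_neg (hnreg β hb k' (by omega) h8 hin)]
        simp only [W0]
        rw [ps_ex_mem T o0 _ _ hin]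
      · rfl
    rw [if_pos rfl, e1, e2, e3] at hP'
    simp only [tgt]
    rw [← hP']
    ring
  by_cases hcase : ∃ β ∈ S, ∃ β' ∈ S, β ≠ β' ∧
      β.take ((k0 + 1) * (5 * s)) = β'.take ((k0 + 1) * (5 * s))
  · -- impossible
    obtain ⟨β, hb, β', hb', hne, heq⟩ := hcase
    have hempty : (Finset.univ.filter fun η : {y // y ∈ T} → Opt s =>
        ∀ β ∈ S, P B (ex T o0 (mix (Rz s B T z) η ω)) (β ++ w) = x) = ∅ := by
      rw [Finset.filter_eq_empty_iff]
      intro η _ hη
      have hl := (Nat.mul_le_mul_right (5 * s) (show k0 + 1 ≤ k0 + B by omega)).trans (hlow β hb)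
      have hl' := (Nat.mul_le_mul_right (5 * s) (show k0 + 1 ≤ k0 + B by omega)).trans
        (hlow β' hb')
      have hsb := h4 s B hs (by omega) (ex T o0 (mix (Rz s B T z) η ω)) (β ++ w) (β' ++ w) (k0 + 1)
        ((hη β hb).trans (hη β' hb').symm) (by rw [List.length_append]; omega)
        (by rw [List.length_append]; omega)
        (by rw [htake β hb _ (by omega), htake β' hb' _ (by omega), heq])
        (by
          have := hupp β hb
          rw [show k0 + 1 + B = k0 + B + 1 by omega]; exact this)
        (by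
          have := hupp β' hb'
          rw [show k0 + 1 + B = k0 + B + 1 by omega]; exact this)
      obtain ⟨ha, hb''⟩ := hsb
      have h9 : ∀ γ ∈ S, (γ ++ w).take (5 * ((γ ++ w).length / 5)) = γ := by
        intro γ hγ
        have h10 := (hβ γ hγ).2.1
        have h11 : 5 * ((γ ++ w).length / 5) = γ.length := by
          rw [List.length_append]; omega
        rw [h11]
        simp
      rw [h9 β hb, h9 β' hb'] at hb''
      exact hne hb''
    rw [hempty, Finset.card_empty, Nat.cast_zero]
    positivity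
  push Not at hcase
  obtain ⟨β0, hβ0⟩ := hSne
  -- index set
  let I : Finset (List Bool × ℕ) := insert (β0, 0) (S ×ˢ Finset.Ico 1 B)
  have hIcard : I.card = (B - 1) * S.card + 1 := by
    rw [Finset.card_insert_of_notMem, Finset.card_product, Nat.card_Ico, mul_comm]
    rw [Finset.mem_product, Finset.mem_Ico]
    rintro ⟨_, h, _⟩
    exact absurd h (by norm_num)
  have hI : ∀ p ∈ I, p.1 ∈ S ∧ p.2 < B := by
    intro p hp
    rcases Finset.mem_insert.1 hp with h | h
    · rw [h]; exact ⟨hβ0, by simp only; omega⟩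
    · rw [Finset.mem_product, Finset.mem_Ico] at h
      exact ⟨h.1, h.2.2⟩
  let g : List Bool × ℕ → List Bool := fun p => p.1.take ((k0 + p.2) * (5 * s))
  have hginj : Set.InjOn g (I : Set (List Bool × ℕ)) := by
    intro p hp q hq hpq
    rw [Finset.mem_coe] at hp hq
    have hlenp := hlen p.1 (hI p hp).1 (k0 + p.2) (by have := (hI p hp).2; omega)
    have hlenq := hlen q.1 (hI q hq).1 (k0 + q.2) (by have := (hI q hq).2; omega)
    simp only [g] at hpq
    have h12 : (k0 + p.2) * (5 * s) = (k0 + q.2) * (5 * s) := by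
      rw [← hlenp, ← hlenq, hpq]
    have h13 : p.2 = q.2 := by
      have := Nat.eq_of_mul_eq_mul_right hM h12
      omega
    rcases Nat.eq_zero_or_pos p.2 with h0 | h0
    · have hp1 : p = (β0, 0) := by
        rcases Finset.mem_insert.1 hp with h | h
        · exact h
        · rw [Finset.mem_product, Finset.mem_Ico] at h
          omega
      have hq1 : q = (β0, 0) := by
        rcases Finset.mem_insert.1 hq with h | h
        · exact h
        · rw [Finset.mem_product, Finset.mem_Ico] at h
          omega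
      rw [hp1, hq1]
    · have h14 : p.1.take ((k0 + 1) * (5 * s)) = q.1.take ((k0 + 1) * (5 * s)) := by
        have h15 := congrArg (List.take ((k0 + 1) * (5 * s))) hpq
        rw [List.take_take, List.take_take] at h15
        rw [min_eq_left (Nat.mul_le_mul_right _ (by omega)),
          min_eq_left (Nat.mul_le_mul_right _ (by omega))] at h15
        exact h15
      have h16 : p.1 = q.1 := by
        by_contra hne
        exact hcase p.1 (hI p hp).1 q.1 (hI q hq).1 hne h14
      exact Prod.ext h16 h13
  have hgT : ∀ p ∈ I, g p ∈ T := fun p hp => hT p.1 (hβ p.1 (hI p hp).1).1 _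
  let Y : Finset {y // y ∈ T} := Finset.univ.filter fun y => y.1 ∈ I.image g
  have hYcard : Y.card = (B - 1) * S.card + 1 := by
    rw [← hIcard, ← Finset.card_image_of_injOn hginj]
    have : Y.image (fun y => y.1) = I.image g := by
      ext y
      constructor
      · intro h
        obtain ⟨y', hy', rfl⟩ := Finset.mem_image.1 h
        exact (Finset.mem_filter.1 hy').2
      · intro h
        obtain ⟨p, hp, rfl⟩ := Finset.mem_image.1 h
        exact Finset.mem_image.2 ⟨⟨g p, hgT p hp⟩, Finset.mem_filter.2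
          ⟨Finset.mem_univ _, Finset.mem_image_of_mem g hp⟩, rfl⟩
    rw [← this, Finset.card_image_of_injective _ Subtype.val_injective]
  let E : {y // y ∈ T} → Finset (Opt s) := fun y => Finset.univ.filter fun o =>
    ∀ p ∈ I, g p = y.1 → ∀ j < 7 * s,
      Q o (bits s (k0 + p.2) (p.1 ++ w)) (5 * s) j = tgt p.1 (k0 + p.2) j
  have hcard : (0 : ℝ) < Z s := by exact_mod_cast ps_Zpos s
  have hE : ∀ y ∈ Y, ((E y).card : ℝ) ≤ (1 / (Z s : ℝ)) * Fintype.card (Opt s) := by
    intro y hy
    obtain ⟨p, hp, hpy⟩ := Finset.mem_image.1 (Finset.mem_filter.1 hy).2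
    have h17 : (E y).card ≤ (7 * s).factorial := by
      apply h1 s (bits s (k0 + p.2) (p.1 ++ w)) (tgt p.1 (k0 + p.2))
      intro o ho j hj
      exact (Finset.mem_filter.1 ho).2 p hp hpy j hj
    rw [h2 s]
    push_cast
    rw [one_div, inv_mul_cancel_left₀ hcard.ne']
    exact_mod_cast h17
  have hfin := h5 {y // y ∈ T} (Opt s) Y E (1 / (Z s : ℝ)) (by positivity) hE
  rw [hYcard] at hfin
  refine ps_abs ?_ hfin
  intro η hη y _
  have h20 : ∀ p ∈ I, g p = y.1 → ∀ j < 7 * s,
      Q (η y) (bits s (k0 + p.2) (p.1 ++ w)) (5 * s) j = tgt p.1 (k0 + p.2) j := by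
    intro p hp hpy j _
    have hpS := hI p hp
    have hin : p.1.take ((k0 + p.2) * (5 * s)) ∈ T := hgT p hp
    have h18 := hmatch η p.1 hpS.1 (hη p.1 hpS.1) (k0 + p.2) (by omega)
      (by have := hpS.2; omega) hin j
    have h19 : y = ⟨p.1.take ((k0 + p.2) * (5 * s)), hin⟩ := Subtype.ext hpy.symm
    rw [h19]
    exact h18
  exact Finset.mem_filter.2 ⟨Finset.mem_univ _, h20⟩

end Pool.Agent.Work.MP_bf01b2_co.Bd
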