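import Pool.Agent.Work.MP_bf01b2_co.Bd.Stmts

/-!
# MP_bf01b2_co, item QS: equal window contents give equal label sets
-/

set_option autoImplicit false

namespace Pool.Agent.Work.MP_bf01b2_co.Bd

theorem qs_pv_lt {N : ℕ} (π : Equiv.Perm (Fin N)) {i : ℕ} (h : i < N) : pv π i < N := by
  unfold pv; rw [dif_pos h]; exact Fin.isLt _

theorem qs_pv_inj {N : ℕ} (π : Equiv.Perm (Fin N)) : Function.Injective (pv π) := by
  intro i j h
  by_cases hi : i < N
  · by_cases hj : j < N
    · unfold pv at h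
      rw [dif_pos hi, dif_pos hj] at h
      have h1 := π.injective (Fin.ext h)
      simpa using h1
    · have := qs_pv_lt π hi
      rw [h] at this
      unfold pv at this
      rw [dif_neg hj] at this
      exact absurd this hj
  · by_cases hj : j < N
    · have := qs_pv_lt π hj
      rw [← h] at this
      unfold pv at this
      rw [dif_neg hi] at this
      exact absurd this hi
    · unfold pv at h
      rwa [dif_neg hi, dif_neg hj] at h

theorem qs_fl_iff {s : ℕ} (o : Opt s) (x : ℕ → Bool) (i j : ℕ) :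
    fl o x i = some j ↔ ∃ c, lb (nA o) x i = some c ∧ pv o.2 c = j := by
  unfold fl
  rw [Option.map_eq_some_iff]

open Classical in
theorem qs_Q (h1 : LbInj) {s : ℕ} (o : Opt s) (x : ℕ → Bool) (l j : ℕ) :
    Q o x l j = if ∃ i < l, fl o x i = some j then 1 else 0 := by
  have huniq : ∀ i i', fl o x i = some j → fl o x i' = some j → i = i' := by
    intro i i' hi hi'
    rw [qs_fl_iff] at hi hi'
    obtain ⟨c, hc, hcj⟩ := hi
    obtain ⟨c', hc', hcj'⟩ := hi'
    have : c = c' := qs_pv_inj o.2 (hcj.trans hcj'.symm)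
    subst this
    exact h1 _ _ _ _ _ hc hc'
  unfold Q
  split_ifs with h
  · obtain ⟨i, hi, hij⟩ := h
    rw [Finset.sum_eq_single i]
    · rw [if_pos hij]
    · intro b _ hb
      rw [if_neg]
      intro hbj
      exact hb (huniq b i hbj hij)
    · intro hi'
      exact absurd (Finset.mem_range.2 hi) hi'
  · apply Finset.sum_eq_zero
    intro i hi
    rw [if_neg]
    intro hij
    exact h ⟨i, Finset.mem_range.1 hi, hij⟩

theorem qSet (h1 : LbInj) (h2 : LbBasic) : QSet := by
  have key : ∀ (s : ℕ) (o : Opt s) (x y : ℕ → Bool) (l m : ℕ), l ≤ 5 * s →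
      (∀ j < 7 * s, Q o x l j = Q o y m j) → ∀ c, (∃ i < l, lb (nA o) x i = some c) →
      ∃ i < m, lb (nA o) y i = some c := by
    rintro s o x y l m hl hQ c ⟨i, hi, hic⟩
    have hc := h2.1 _ _ _ _ hic
    have hc' : c < 7 * s := by omega
    have h3 := hQ (pv o.2 c) (qs_pv_lt o.2 hc')
    rw [qs_Q h1, qs_Q h1, if_pos ⟨i, hi, (qs_fl_iff _ _ _ _).2 ⟨c, hic, rfl⟩⟩] at h3
    by_cases h4 : ∃ i < m, fl o y i = some (pv o.2 c)
    · obtain ⟨i', hi', hi'c⟩ := h4
      rw [qs_fl_iff] at hi'c
      obtain ⟨c', hc'', hcc⟩ := hi'c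
      have : c' = c := qs_pv_inj o.2 hcc
      rw [this] at hc''
      exact ⟨i', hi', hc''⟩
    · rw [if_neg h4] at h3
      exact absurd h3 (by decide)
  intro s o x y l m hl hm hQ c
  exact ⟨key s o x y l m hl hQ c, key s o y x m l hm (fun j hj => (hQ j hj).symm) c⟩

end Pool.Agent.Work.MP_bf01b2_co.Bd
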