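import Pool.Agent.Work.MP_bf01b2_co.Bd.Stmts

/-!
# MP_bf01b2_co, item RU: the ruler schedule
-/

set_option autoImplicit false

namespace Pool.Agent.Work.MP_bf01b2_co.Bd

lemma ru_gap (G t0 a : ℕ) (hG : 0 < G) (ht : t0 < G) : ∃ q, a ≤ t0 + G * q ∧ t0 + G * q < a + G := by
  by_cases h : a ≤ t0
  · exact ⟨0, by omega, by omega⟩
  · refine ⟨(a - t0 + G - 1) / G, ?_, ?_⟩
    · have h1 := Nat.div_add_mod (a - t0 + G - 1) G
      have h2 := Nat.mod_lt (a - t0 + G - 1) hG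
      generalize G * ((a - t0 + G - 1) / G) = x at h1 ⊢
      omega
    · have h1 := Nat.div_add_mod (a - t0 + G - 1) G
      generalize G * ((a - t0 + G - 1) / G) = x at h1 ⊢
      omega

lemma ru_val (j i : ℕ) : padicValNat 2 (2 ^ j * (2 * i + 1)) = j := by
  rw [padicValNat.mul (by positivity) (by omega), padicValNat.prime_pow,
    padicValNat.eq_zero_of_not_dvd (by omega)]
  rfl

lemma ru_rul (j i0 q : ℕ) (hi : i0 < 2 ^ j) :
    rul (2 ^ j * (2 * (i0 + 2 ^ j * q) + 1)) = 2 ^ j + i0 := by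
  unfold rul
  rw [ru_val]
  have h1 : 2 ^ j * (2 * (i0 + 2 ^ j * q) + 1) / 2 ^ j = 2 * (i0 + 2 ^ j * q) + 1 :=
    Nat.mul_div_cancel_left _ (by positivity)
  have h2 : (2 * (i0 + 2 ^ j * q) + 1) / 2 = i0 + 2 ^ j * q := by omega
  rw [h1, h2, Nat.add_mul_mod_self_left, Nat.mod_eq_of_lt hi]

theorem rulThm : RulThm := by
  intro c hc a
  set j := Nat.log 2 c with hj
  have h1 : 2 ^ j ≤ c := Nat.pow_log_le_self 2 (by omega)
  have h2 : c < 2 ^ (j + 1) := Nat.lt_pow_succ_log_self (by norm_num) c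
  obtain ⟨i0, hi0⟩ := Nat.exists_eq_add_of_le h1
  have hi : i0 < 2 ^ j := by rw [pow_succ] at h2; omega
  have hp : 0 < 2 ^ j := by positivity
  set p := 2 ^ j with hpdef
  have hm0 : p * (2 * i0 + 1) ≤ 2 * (p * p) := by nlinarith
  have hm1 : 1 ≤ p * (2 * i0 + 1) := Nat.mul_pos hp (by omega)
  have hm2 : 10 * (p * (2 * i0 + 1) - 1) < 20 * (p * p) := by omega
  obtain ⟨q, hq1, hq2⟩ := ru_gap (20 * (p * p)) (10 * (p * (2 * i0 + 1) - 1)) a (by positivity) hm2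
  have hpc : p * p ≤ c ^ 2 := by nlinarith
  have hmq : p * (2 * (i0 + p * q) + 1) = p * (2 * i0 + 1) + 2 * (p * p) * q := by ring
  refine ⟨10 * (p * (2 * i0 + 1) - 1) + 20 * (p * p) * q, hq1, by omega, ?_⟩
  have h20 : 20 * (p * p) * q = 10 * (2 * (p * p) * q) := by ring
  have hmod : (10 * (p * (2 * i0 + 1) - 1) + 20 * (p * p) * q) % 10 = 0 := by
    rw [h20]; omega
  have hdiv : (10 * (p * (2 * i0 + 1) - 1) + 20 * (p * p) * q) / 10 + 1 =
      p * (2 * (i0 + p * q) + 1) := by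
    rw [h20, hmq]; omega
  unfold col
  rw [if_pos hmod, hdiv, hpdef, ru_rul j i0 q (hpdef ▸ hi), ← hpdef, hi0]

end Pool.Agent.Work.MP_bf01b2_co.Bd
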