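import Pool.Agent.Work.MP_bf01b2_co.Bd.Defs
import Pool.Agent.Work.MP_bf01b2_co.Stmts

/-!
# MP_bf01b2_co, `n + O(1)` : statements of the items
-/

set_option autoImplicit false

namespace Pool.Agent.Work.MP_bf01b2_co.Bd

open Classical

/-! ### Static facts about the block maps -/

/-- Item LB1: a slab level determines the label up to collisions: labels at different levels are
different. -/
def LbInj : Prop := ∀ (a : ℕ) (x : ℕ → Bool) (i j c : ℕ),
  lb a x i = some c → lb a x j = some c → i = j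

/-- Item LB2: range of the labels, dependence on the bits, number of flips of a full slab. -/
def LbBasic : Prop :=
  (∀ (a : ℕ) (x : ℕ → Bool) (i c : ℕ), lb a x i = some c →
    7 * (i / 5) ≤ c ∧ c < 7 * (i / 5) + 7) ∧
  (∀ (a : ℕ) (x y : ℕ → Bool) (i : ℕ), (∀ j ≤ i, x j = y j) → lb a x i = lb a y i) ∧
  (∀ (a s : ℕ) (x : ℕ → Bool), a ≤ s →
    ((Finset.range (5 * s)).filter fun i => lb a x i ≠ none).card = 3 * s + a)

/-- Item BI: the label sets determine the complete blocks. -/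
def BlkInj : Prop := ∀ (a : ℕ) (x y : ℕ → Bool) (l m : ℕ), SetEq a x l y m →
  l / 5 = m / 5 ∧ ∀ i < 5 * (l / 5), x i = y i

/-- Item BL: words which diverge in the block after its first level and then flip at every level
have different label sets. -/
def BlkLoc : Prop := ∀ (a : ℕ) (x y : ℕ → Bool) (l m c : ℕ), SetEq a x l y m →
  l / 5 = m / 5 → 5 * (l / 5) + 1 ≤ c → c ≤ l → c ≤ m → (∀ i < c, x i = y i) →
  (∀ i, c ≤ i → i < l → lb a x i ≠ none) → (∀ i, c ≤ i → i < m → lb a y i ≠ none) →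
    l = m ∧ ∀ i < l, x i = y i

/-- Item QS: equal contents of a window mean equal label sets. -/
def QSet : Prop := ∀ (s : ℕ) (o : Opt s) (x y : ℕ → Bool) (l m : ℕ), l ≤ 5 * s → m ≤ 5 * s →
  (∀ j < 7 * s, Q o x l j = Q o y m j) → SetEq (nA o) x l y m

/-- Item UN: the content after a full slab is uniform. -/
def Uni : Prop := ∀ (s : ℕ) (x : ℕ → Bool) (y : ℕ → ZMod 2) (S : Finset (Opt s)),
  (∀ o ∈ S, ∀ j < 7 * s, Q o x (5 * s) j = y j) → S.card ≤ (7 * s).factorial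

/-- Item CZ: the number of options. -/
def CardOpt : Prop := ∀ s : ℕ, Fintype.card (Opt s) = Z s * (7 * s).factorial

/-- Item ZL: lower bound for `Z`. -/
def ZLow : Prop := ∀ s : ℕ, (2 : ℝ) ^ (7 * s) * (1 - 2 * (823543 / 884736 : ℝ) ^ s) ≤ Z s

/-! ### Positions -/

/-- Item DE: decomposition of the position into slabs. -/
def Decomp : Prop := ∀ (s B : ℕ), 0 < s → ∀ (ω : List Bool → Opt s) (v : List Bool) (b j : ℕ),
  P B ω v (b, j) = ∑ k ∈ Finset.range (v.length / (5 * s) + 1),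
    if k % B = b then
      Q (ω (v.take (k * (5 * s)))) (bits s k v) (min (5 * s) (v.length - k * (5 * s))) j
    else 0

/-- Item SU: only coordinates `(b, j)` with `b < B`, `j < 7 s` are used. -/
def Supp : Prop := ∀ (s B : ℕ), 0 < s → 0 < B → ∀ (ω : List Bool → Opt s) (v : List Bool)
  (b j : ℕ), (B ≤ b ∨ 7 * s ≤ j) → P B ω v (b, j) = 0

/-- Item LO: `P` only depends on the options of the boundary prefixes. -/
def Local : Prop := ∀ (s B : ℕ), 0 < s → ∀ (ω ω' : List Bool → Opt s) (v : List Bool),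
  (∀ k, k * (5 * s) < v.length → ω (v.take (k * (5 * s))) = ω' (v.take (k * (5 * s)))) →
    P B ω v = P B ω' v

/-- Item NE: near lemma. -/
def Near : Prop := ∀ (s B : ℕ), 0 < s → 0 < B → ∀ (ω : List Bool → Opt s) (u v : List Bool)
  (K : ℕ), P B ω u = P B ω v → K * (5 * s) ≤ u.length → K * (5 * s) ≤ v.length →
    u.take (K * (5 * s)) = v.take (K * (5 * s)) →
      u.length < (K + B) * (5 * s) → v.length < (K + B) * (5 * s) → SameBlk u v

/-- Item ND: near property of the positions. -/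
def NearP : Prop := ∀ (s B D : ℕ), 0 < s → 2 ≤ B → D ≤ (B - 2) * (5 * s) →
  ∀ (ω : List Bool → Opt s) (T : Finset (List Bool)), NearD T (P B ω) D

/-! ### The load -/

/-- Item PE: peeling. -/
def Peel : Prop := ∀ (ι Ω ζ : Type) [Fintype ι] [DecidableEq ι] [Fintype Ω] [Nonempty Ω]
  (Zs : Finset ζ) (rk : ζ → ℕ) (R : ζ → Finset ι) (f : ζ → (ι → Ω) → ℝ) (c : ζ → ℝ),
  (∀ z ω, 0 ≤ f z ω) → (∀ z, 0 ≤ c z) →
  (∀ z ∈ Zs, ∀ ω, ∑ η : ι → Ω, f z (mix (R z) η ω) ≤ c z * Fintype.card (ι → Ω)) →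
  (∀ z ∈ Zs, ∀ z' ∈ Zs, z' ≠ z → rk z' ≤ rk z →
    ∀ ω ω' : ι → Ω, (∀ i, i ∉ R z → ω i = ω' i) → f z' ω = f z' ω') →
  ∑ ω : ι → Ω, ∏ z ∈ Zs, f z ω ≤ (∏ z ∈ Zs, c z) * Fintype.card (ι → Ω)

/-- Item PP: product bound. -/
def ProdCount : Prop := ∀ (ι Ω : Type) [Fintype ι] [DecidableEq ι] [Fintype Ω]
  (Y : Finset ι) (E : ι → Finset Ω) (θ : ℝ), 0 ≤ θ →
  (∀ i ∈ Y, ((E i).card : ℝ) ≤ θ * Fintype.card Ω) →
    ((Finset.univ.filter fun η : ι → Ω => ∀ i ∈ Y, η i ∈ E i).card : ℝ) ≤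
      θ ^ Y.card * Fintype.card (ι → Ω)

/-- Options on `T`, extended by `o0`. -/
noncomputable def ex {s : ℕ} (T : Finset (List Bool)) (o0 : Opt s) (η : {y // y ∈ T} → Opt s)
    (y : List Bool) : Opt s := if h : y ∈ T then η ⟨y, h⟩ else o0

/-- Block roots `β` with `β ++ w ∈ T`, whose ancestor `B` slabs above is `z`. -/
noncomputable def Nz (s B : ℕ) (T : Finset (List Bool)) (w z : List Bool) : Finset (List Bool) :=
  T.filter fun β => β.length % 5 = 0 ∧ β.length / (5 * s) = z.length / (5 * s) + B ∧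
    β.take z.length = z ∧ β ++ w ∈ T

/-- The region of `z`: pieces below `z` in `B` slabs. -/
noncomputable def Rz (s B : ℕ) (T : Finset (List Bool)) (z : List Bool) :
    Finset {y // y ∈ T} :=
  Finset.univ.filter fun y => y.1.length % (5 * s) = 0 ∧ z.length ≤ y.1.length ∧
    y.1.length < z.length + B * (5 * s) ∧ y.1.take z.length = z

/-- The number of block roots in `Nz` with `β ++ w` at the position `x`. -/
noncomputable def Xz {s : ℕ} (B : ℕ) (T : Finset (List Bool)) (o0 : Opt s)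
    (x : ℕ × ℕ → ZMod 2) (w z : List Bool) (η : {y // y ∈ T} → Opt s) : ℕ :=
  ((Nz s B T w z).filter fun β => P B (ex T o0 η) (β ++ w) = x).card

/-- Item PS: probability that all `β ∈ S` are matched. -/
def ProbS : Prop := ∀ (s B : ℕ) (T : Finset (List Bool)) (o0 : Opt s) (x : ℕ × ℕ → ZMod 2)
  (w z : List Bool), 0 < s → 2 ≤ B → PrefClosed T → w.length ≤ 4 → z.length % (5 * s) = 0 →
  ∀ ω : {y // y ∈ T} → Opt s, ∀ S ⊆ Nz s B T w z, S.Nonempty →
    ((Finset.univ.filter fun η : {y // y ∈ T} → Opt s =>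
      ∀ β ∈ S, P B (ex T o0 (mix (Rz s B T z) η ω)) (β ++ w) = x).card : ℝ) ≤
      (1 / (Z s : ℝ)) ^ ((B - 1) * S.card + 1) * Fintype.card ({y // y ∈ T} → Opt s)

/-- Item PZ: exponential moment of `Xz`. -/
def MomZ : Prop := ∀ (s B : ℕ) (T : Finset (List Bool)) (o0 : Opt s) (x : ℕ × ℕ → ZMod 2)
  (w z : List Bool), 0 < s → 2 ≤ B → PrefClosed T → w.length ≤ 4 → z.length % (5 * s) = 0 →
  2 ^ (5 * s * (B + 1)) ≤ Z s ^ (B - 1) →
  ∀ ω : {y // y ∈ T} → Opt s,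
    ∑ η : {y // y ∈ T} → Opt s, (2 : ℝ) ^ Xz B T o0 x w z (mix (Rz s B T z) η ω) ≤
      (1 + 2 * ((Nz s B T w z).card * (1 / (Z s : ℝ)) ^ B)) *
        Fintype.card ({y // y ∈ T} → Opt s)

/-- Item IZ: independence. -/
def IndZ : Prop := ∀ (s B : ℕ) (T : Finset (List Bool)) (o0 : Opt s) (x : ℕ × ℕ → ZMod 2)
  (w z z' : List Bool), 0 < s → 0 < B → PrefClosed T → w.length ≤ 4 → z.length % (5 * s) = 0 →
  z'.length % (5 * s) = 0 → z.length / (5 * s) % (B + 1) = z'.length / (5 * s) % (B + 1) →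
  z'.length ≤ z.length → z' ≠ z → ∀ ω ω' : {y // y ∈ T} → Opt s,
    (∀ i, i ∉ Rz s B T z → ω i = ω' i) → Xz B T o0 x w z' ω = Xz B T o0 x w z' ω'

/-- Item MK: for a good choice of the options all sums of the `Xz` are small. -/
def SumSmall : Prop := ∀ (s B n : ℕ) (T : Finset (List Bool)) (o0 : Opt s), 0 < s → 2 ≤ B →
  PrefClosed T → T.card ≤ 2 ^ n → 7 * s * B ≤ n → 2 ^ (5 * s * (B + 1)) ≤ Z s ^ (B - 1) →
  ∃ η : {y // y ∈ T} → Opt s, ∀ (x : ℕ × ℕ → ZMod 2) (w : List Bool), w.length ≤ 4 →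
    ∀ ρ < B + 1,
      ((∑ z ∈ T.filter (fun z => z.length % (5 * s) = 0 ∧ z.length / (5 * s) % (B + 1) = ρ),
        Xz B T o0 x w z η : ℕ) : ℝ) ≤
      4 * ((∑ z ∈ T.filter (fun z => z.length % (5 * s) = 0 ∧ z.length / (5 * s) % (B + 1) = ρ),
        (Nz s B T w z).card : ℕ) : ℝ) * (1 / (Z s : ℝ)) ^ B + (2 * n + 10)

/-- Item LD: the load. -/
def LoadThm : Prop := ∀ (s B n : ℕ) (T : Finset (List Bool)), 0 < s → 2 ≤ B →
  PrefClosed T → T.card ≤ 2 ^ n → 7 * s * B ≤ n → 2 ^ (5 * s * (B + 1)) ≤ Z s ^ (B - 1) →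
  2 ^ (7 * s * B) ≤ 2 * Z s ^ B → (B + 1) * (2 * n + 10) ≤ 2 ^ (n - 7 * s * B) →
    ∃ ω : List Bool → Opt s, FibLe T (P B ω) (2 ^ (n - 7 * s * B + 9))

/-! ### Halving -/

/-- Item LL: the symmetric local lemma for coins. -/
def LocalLemma : Prop := ∀ (ι α : Type) [Fintype ι] [DecidableEq ι] [Fintype α]
  (A : α → (ι → Bool) → Prop) (S : α → Finset ι) (p : ℝ) (d : ℕ),
  (∀ a ω ω', (∀ i ∈ S a, ω i = ω' i) → A a ω → A a ω') →
  (∀ a, ((Finset.univ.filter fun ω => A a ω).card : ℝ) ≤ p * 2 ^ Fintype.card ι) →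
  (∀ a, (Finset.univ.filter fun b => ¬ Disjoint (S a) (S b)).card ≤ d) → 1 ≤ d →
  4 * p * d ≤ 1 → ∃ ω, ∀ a, ¬ A a ω

/-- Item HO: Hoeffding's inequality for coins, in counting form. -/
def Hoeff : Prop := ∀ (ι : Type) [Fintype ι] [DecidableEq ι] (w : ι → ℝ) (t V : ℝ), 0 < V →
  0 ≤ t → ∑ i, w i ^ 2 ≤ V →
    ((Finset.univ.filter fun κ : ι → Bool => t < ∑ i, if κ i then w i else - w i).card : ℝ) ≤
      Real.exp (-(t ^ 2 / (2 * V))) * 2 ^ Fintype.card ι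

/-- Item HN: the numerical inequality for the halving step. -/
def HalfNum : Prop := ∀ r : ℕ, 46 ≤ r →
  31 + 1 ≤ aa (r - 1) - aa r / 2 ∧
  (20 * (r : ℝ) ^ 2 + r + 6) ≤ 2 * (aa (r - 1) - aa r / 2 - 31) ^ 2 / (31 * aa r)

/-- Item HA: one halving step. -/
def Half : Prop := ∀ (X : Type) (T : Finset (List Bool)) (φ : List Bool → X) (p : ℕ → Prop)
  [DecidablePred p] (D r : ℕ), PrefClosed T → 46 ≤ r → D ≤ 20 * r ^ 2 →
  (∀ a, ∃ t, a ≤ t ∧ t < a + D ∧ p t) → NearD T φ D → FibLe T φ (aa r) →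
    ∃ κ : List Bool → Bool, FibLe T (fun v => (φ v, bit p κ v)) (aa (r - 1))

/-- Item RU: the ruler schedule. -/
def RulThm : Prop := ∀ c : ℕ, 1 ≤ c → ∀ a : ℕ, ∃ t, a ≤ t ∧ t < a + 20 * c ^ 2 ∧ col t = c

/-- Item IT: all halving steps. -/
def Iter : Prop := ∀ (s B r1 : ℕ) (T : Finset (List Bool)) (ω : List Bool → Opt s),
  PrefClosed T → 45 ≤ r1 → NearD T (P B ω) (20 * (r1 - 45) ^ 2) → FibLe T (P B ω) (2 ^ r1) →
    ∃ κ : ℕ → List Bool → Bool, FibLe T (Ph B (r1 - 45) ω κ) (2 ^ 46)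

/-! ### Edges and the last step -/

/-- Item E1: an edge at a level `5 q` does not change the real coordinates. -/
def EdgeP : Prop := ∀ (s B : ℕ), 0 < s → ∀ (ω : List Bool → Opt s) (y : List Bool) (e : Bool),
  (∀ c, P B ω (y ++ [e]) c =
    P B ω y c + if cd B ω (y ++ [e]) y.length = some c then 1 else 0) ∧
  (y.length % 5 = 0 → cd B ω (y ++ [e]) y.length = none)

/-- Item E2: the bits only change at their own levels, and there exactly one of the two children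
changes its bit. -/
def EdgeB : Prop := ∀ (p : ℕ → Prop) [DecidablePred p] (κ : List Bool → Bool) (y : List Bool)
  (e : Bool), (¬ p y.length → bit p κ (y ++ [e]) = bit p κ y) ∧
    (p y.length → bit p κ (y ++ [e]) = xor (κ y) e)

/-- Local injectivity: two vertices with the same image, such that all edges between their common
ancestor `u.take t = v.take t` and them are changed by `Φ`, are equal. -/
def LocInj {X : Type} (T : Finset (List Bool)) (Φ : List Bool → X) : Prop :=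
  ∀ u ∈ T, ∀ v ∈ T, Φ u = Φ v → ∀ t, t ≤ u.length → t ≤ v.length → u.take t = v.take t →
    (∀ i, t ≤ i → i < u.length → Φ (u.take (i + 1)) ≠ Φ (u.take i)) →
    (∀ i, t ≤ i → i < v.length → Φ (v.take (i + 1)) ≠ Φ (v.take i)) → u = v

/-- Item LI: local injectivity of the complete map. -/
def LocP : Prop := ∀ (s B I : ℕ), 0 < s → 0 < B → ∀ (T : Finset (List Bool))
  (ω : List Bool → Opt s) (κ : ℕ → List Bool → Bool), PrefClosed T → NearD T (P B ω) 10 →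
    LocInj T (Ph B I ω κ)

/-- Item FI: the last step. -/
def Finish : Prop := ∀ (X : Type) (T : Finset (List Bool)) (Φ : List Bool → X) (F m : ℕ),
  PrefClosed T → (∀ y e, y.length % 10 = 5 → y ++ [e] ∈ T → Φ (y ++ [e]) = Φ y) →
  FibLe T Φ F → LocInj T Φ → 2 ^ 10 * F < m →
    ∃ ψ : List Bool → Fin m → ZMod 2,
      (∀ y e, y ++ [e] ∈ T → Φ (y ++ [e]) ≠ Φ y → ψ (y ++ [e]) = ψ y) ∧
      (∀ y e, y ++ [e] ∈ T → Φ (y ++ [e]) = Φ y → ∃ c, ψ (y ++ [e]) = ψ y + Pi.single c 1) ∧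
      ∀ u ∈ T, ∀ v ∈ T, Φ u = Φ v → ψ u = ψ v → u = v

/-! ### Numbers, final statement -/

/-- Item NU: choice of the parameters. -/
def Params : Prop := ∃ n0 : ℕ, ∀ n : ℕ, n0 ≤ n → ∃ s B : ℕ, 0 < s ∧ 4 ≤ B ∧ 7 * s * B ≤ n ∧
  2 ^ (5 * s * (B + 1)) ≤ Z s ^ (B - 1) ∧ 2 ^ (7 * s * B) ≤ 2 * Z s ^ B ∧
  (B + 1) * (2 * n + 10) ≤ 2 ^ (n - 7 * s * B) ∧ 45 ≤ n - 7 * s * B + 9 ∧
  20 * (n - 7 * s * B + 9 - 45) ^ 2 ≤ (B - 2) * (5 * s)

/-- Item CO: the embedding of the prefix closed set, coordinates still separate. -/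
def Core : Prop := ∃ m0 n0 : ℕ, ∀ n : ℕ, n0 ≤ n → ∀ T : Finset (List Bool), PrefClosed T →
  T.card ≤ 2 ^ n → ∃ (s B I : ℕ) (ω : List Bool → Opt s) (κ : ℕ → List Bool → Bool)
    (ψ : List Bool → Fin m0 → ZMod 2), 0 < s ∧ 0 < B ∧ 7 * s * B + I ≤ n ∧
    (∀ y e, y ++ [e] ∈ T → Ph B I ω κ (y ++ [e]) ≠ Ph B I ω κ y → ψ (y ++ [e]) = ψ y) ∧
    (∀ y e, y ++ [e] ∈ T → Ph B I ω κ (y ++ [e]) = Ph B I ω κ y →
      ∃ c, ψ (y ++ [e]) = ψ y + Pi.single c 1) ∧
    ∀ u ∈ T, ∀ v ∈ T, Ph B I ω κ u = Ph B I ω κ v → ψ u = ψ v → u = v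

/-- The final statement. -/
def FinalStatement : Prop := ∃ C : ℕ, ∀ n : ℕ,
  ∀ (V : Type) [Fintype V] [DecidableEq V] (G : SimpleGraph V) [DecidableRel G.Adj],
    G.IsTree → (∀ v : V, G.degree v ≤ 3) → Fintype.card V ≤ 2 ^ n →
      ∃ f : G →g SimpleGraph.fromRel (fun x y : Fin (n + C) → Bool => hammingDist x y = 1),
        Function.Injective f

end Pool.Agent.Work.MP_bf01b2_co.Bd
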