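import Pool.Agent.Work.MP_bf01b2_co.Bd.QS

/-!
# MP_bf01b2_co, item UN: the content after a full slab is uniform
-/

set_option autoImplicit false

namespace Pool.Agent.Work.MP_bf01b2_co.Bd

open Classical

/-- The labels used by a full slab. -/
noncomputable def unF (s a : ℕ) (x : ℕ → Bool) : Finset (Fin (7 * s)) :=
  Finset.univ.filter fun c => ∃ i < 5 * s, lb a x i = some (c : ℕ)

theorem un_card (h1 : LbInj) (h2 : LbBasic) (s a : ℕ) (x : ℕ → Bool) (ha : a ≤ s) :
    (unF s a x).card = 3 * s + a := by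
  rw [← h2.2.2 a s x ha]
  symm
  have hlt : ∀ i, i ∈ (Finset.range (5 * s)).filter (fun i => lb a x i ≠ none) →
      (lb a x i).getD 0 < 7 * s ∧ lb a x i = some ((lb a x i).getD 0) := by
    intro i hi
    rw [Finset.mem_filter, Finset.mem_range] at hi
    obtain ⟨c, hc⟩ := Option.ne_none_iff_exists'.1 hi.2
    have := h2.1 _ _ _ _ hc
    rw [hc]
    refine ⟨?_, rfl⟩
    simp only [Option.getD_some]
    omega
  refine Finset.card_bij (fun i hi => ⟨(lb a x i).getD 0, (hlt i hi).1⟩) ?_ ?_ ?_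
  · intro i hi
    unfold unF
    rw [Finset.mem_filter]
    refine ⟨Finset.mem_univ _, i, ?_, (hlt i hi).2⟩
    rw [Finset.mem_filter, Finset.mem_range] at hi
    exact hi.1
  · intro i hi j hj hij
    have h3 := (hlt i hi).2
    have h4 := (hlt j hj).2
    have h5 : (lb a x i).getD 0 = (lb a x j).getD 0 := congrArg Fin.val hij
    rw [← h5] at h4
    exact h1 _ _ _ _ _ h3 h4
  · intro c hc
    unfold unF at hc
    rw [Finset.mem_filter] at hc
    obtain ⟨_, i, hi, hic⟩ := hc
    refine ⟨i, ?_, ?_⟩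
    · rw [Finset.mem_filter, Finset.mem_range]
      exact ⟨hi, by rw [hic]; simp⟩
    · apply Fin.ext
      show (lb a x i).getD 0 = (c : ℕ)
      rw [hic]; rfl

theorem un_perm {α : Type} [Fintype α] (A F : Finset α) (h : A.card = F.card) :
    ∃ σ : Equiv.Perm α, ∀ i, i ∈ A ↔ σ i ∈ F := by
  have hcard : Fintype.card {x // x ∈ A} = Fintype.card {x // x ∈ F} := by
    rw [Fintype.card_coe, Fintype.card_coe, h]
  let e : {x // x ∈ A} ≃ {x // x ∈ F} := Fintype.equivOfCardEq hcard
  refine ⟨e.extendSubtype, ?_⟩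
  intro i
  constructor
  · intro hi
    exact e.extendSubtype_mem i hi
  · intro hi
    by_contra hi'
    exact e.extendSubtype_not_mem i hi' hi

theorem uni (h1 : LbInj) (h2 : LbBasic) : Uni := by
  intro s x y S hS
  have hnA : ∀ o : Opt s, nA o ≤ s ∧ o.1.1.card = 3 * s + nA o := by
    intro o
    have := o.1.2
    unfold nA
    omega
  have hσ : ∀ A : {A : Finset (Fin (7 * s)) // 3 * s ≤ A.card ∧ A.card ≤ 4 * s},
      ∃ σ : Equiv.Perm (Fin (7 * s)), ∀ i, i ∈ A.1 ↔ σ i ∈ unF s (A.1.card - 3 * s) x := by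
    intro A
    apply un_perm
    have := A.2
    rw [un_card h1 h2 s _ x (by omega)]
    omega
  choose σ hσ using hσ
  -- description of `A` by `y`
  have hdesc : ∀ o ∈ S, ∀ i, i ∈ o.1.1 ↔ y (((o.2 * σ o.1) i : Fin (7 * s)) : ℕ) = 1 := by
    intro o ho i
    rw [hσ o.1 i]
    have h3 := hS o ho (((o.2 * σ o.1) i : Fin (7 * s)) : ℕ) (Fin.isLt _)
    rw [← h3, qs_Q h1]
    have h4 : (σ o.1 i ∈ unF s (o.1.1.card - 3 * s) x) ↔
        ∃ i_1 < 5 * s, fl o x i_1 = some (((o.2 * σ o.1) i : Fin (7 * s)) : ℕ) := by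
      unfold unF
      rw [Finset.mem_filter]
      simp only [Finset.mem_univ, true_and]
      constructor
      · rintro ⟨k, hk, hkc⟩
        refine ⟨k, hk, (qs_fl_iff _ _ _ _).2 ⟨_, hkc, ?_⟩⟩
        unfold pv
        rw [dif_pos (Fin.isLt _)]
        rfl
      · rintro ⟨k, hk, hkc⟩
        rw [qs_fl_iff] at hkc
        obtain ⟨c, hc, hcc⟩ := hkc
        refine ⟨k, hk, ?_⟩
        have h5 : pv o.2 ((σ o.1 i : Fin (7 * s)) : ℕ) =
            (((o.2 * σ o.1) i : Fin (7 * s)) : ℕ) := by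
          unfold pv
          rw [dif_pos (Fin.isLt _)]
          rfl
        have h6 := qs_pv_inj o.2 (hcc.trans h5.symm)
        rw [← h6]
        exact hc
    rw [h4]
    split_ifs with h5
    · exact ⟨fun _ => rfl, fun _ => h5⟩
    · exact ⟨fun h => absurd h h5, fun h => absurd h (by decide)⟩
  have hinj : ∀ o ∈ S, ∀ o' ∈ S, o.2 * σ o.1 = o'.2 * σ o'.1 → o = o' := by
    intro o ho o' ho' h
    have hA : o.1 = o'.1 := by
      apply Subtype.ext
      ext i
      rw [hdesc o ho i, hdesc o' ho' i, h]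
    have hπ : o.2 = o'.2 := by
      rw [hA] at h
      exact mul_right_cancel h
    exact Prod.ext hA hπ
  calc S.card ≤ (Finset.univ : Finset (Equiv.Perm (Fin (7 * s)))).card := by
        apply Finset.card_le_card_of_injOn (fun o => o.2 * σ o.1)
        · intro o _; exact Finset.mem_coe.2 (Finset.mem_univ _)
        · intro o ho o' ho' h
          exact hinj o ho o' ho' h
    _ = _ := by rw [Finset.card_univ, Fintype.card_perm, Fintype.card_fin]

end Pool.Agent.Work.MP_bf01b2_co.Bd
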